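import Mathlib

/-! Absolute differentials in characteristic `p`, subrings of a field, cochains. -/

namespace Pool.Agent.ZFd

open scoped Classical

/-- absolute differentials -/
abbrev Om (A : Type) [CommRing A] : Type := Ω[A⁄ℤ]

section ring

variable {A B : Type} [CommRing A] [CommRing B]

/-- the universal derivation -/
noncomputable abbrev dK : Derivation ℤ A (Om A) := KaehlerDifferential.D ℤ A

/-- pull-back of forms along a ring homomorphism -/
noncomputable def pb (φ : A →+* B) : Om A →+ Om B :=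
  letI := φ.toAlgebra
  (KaehlerDifferential.map ℤ ℤ A B).toAddMonoidHom

theorem pb_d (φ : A →+* B) (b : A) : pb φ (dK b) = dK (φ b) :=
  letI := φ.toAlgebra
  KaehlerDifferential.map_D ℤ ℤ A B b

theorem pb_smul (φ : A →+* B) (a : A) (ω : Om A) : pb φ (a • ω) = φ a • pb φ ω := by
  let := φ.toAlgebra
  exact ((KaehlerDifferential.map ℤ ℤ A B).map_smul a ω).trans (algebraMap_smul B a _).symm

theorem om_ind {P : Om A → Prop} (h0 : P 0) (h1 : ∀ a b : A, P (a • dK b))
    (h2 : ∀ x y, P x → P y → P (x + y)) (ω : Om A) : P ω := by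
  have h : ω ∈ Submodule.span A (Set.range (dK : A → Om A)) := by
    rw [KaehlerDifferential.span_range_derivation]
    trivial
  obtain ⟨c, rfl⟩ := Finsupp.mem_span_range_iff_exists_finsupp.1 h
  clear h
  induction c using Finsupp.induction_linear with
  | zero => simpa using h0
  | add f g hf hg =>
    rw [Finsupp.sum_add_index' (by simp) (by simp [add_smul])]
    exact h2 _ _ hf hg
  | single b a =>
    rw [Finsupp.sum_single_index (by simp)]
    exact h1 a b

variable (A) in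
/-- exact forms -/
noncomputable def Ex : AddSubgroup (Om A) := (dK (A := A)).toLinearMap.toAddMonoidHom.range

theorem mem_Ex {ω : Om A} : ω ∈ Ex A ↔ ∃ a : A, dK a = ω := Iff.rfl

theorem Ex_smul {p : ℕ} [CharP A p] (a : A) {ω : Om A} (h : ω ∈ Ex A) : a ^ p • ω ∈ Ex A := by
  obtain ⟨b, rfl⟩ := mem_Ex.1 h
  refine mem_Ex.2 ⟨a ^ p * b, ?_⟩
  rw [Derivation.leibniz, Derivation.leibniz_pow, ← Nat.cast_smul_eq_nsmul A,
    CharP.cast_eq_zero A p, zero_smul, smul_zero, add_zero]

/-- forms modulo exact forms, a module through the `p`-th power map -/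
def Qm (_p : ℕ) (A : Type) [CommRing A] : Type := Om A ⧸ Ex A

noncomputable instance (p : ℕ) : AddCommGroup (Qm p A) :=
  inferInstanceAs (AddCommGroup (Om A ⧸ Ex A))

/-- the class of a form -/
noncomputable def mq (p : ℕ) : Om A →+ Qm p A := QuotientAddGroup.mk' (Ex A)

theorem mq_surj (p : ℕ) : Function.Surjective (mq p : Om A → Qm p A) :=
  QuotientAddGroup.mk'_surjective _

theorem mq_eq_zero {p : ℕ} {ω : Om A} : mq p ω = 0 ↔ ω ∈ Ex A := QuotientAddGroup.eq_zero_iff ω

noncomputable instance (p : ℕ) [Fact p.Prime] [CharP A p] : Module A (Qm p A) where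
  smul a := QuotientAddGroup.map (Ex A) (Ex A) (DistribSMul.toAddMonoidHom (Om A) (a ^ p))
    fun _ h => Ex_smul a h
  one_smul x := by
    obtain ⟨ω, rfl⟩ := mq_surj p x
    exact congrArg (mq p) (show (1 : A) ^ p • ω = ω by rw [one_pow, one_smul])
  mul_smul a b x := by
    obtain ⟨ω, rfl⟩ := mq_surj p x
    exact congrArg (mq p) (show (a * b) ^ p • ω = a ^ p • b ^ p • ω by rw [mul_pow, mul_smul])
  smul_zero _ := map_zero _
  smul_add _ := map_add _
  add_smul a b x := by
    obtain ⟨ω, rfl⟩ := mq_surj p x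
    exact congrArg (mq p)
      (show (a + b) ^ p • ω = a ^ p • ω + b ^ p • ω by rw [add_pow_char, add_smul])
  zero_smul x := by
    obtain ⟨ω, rfl⟩ := mq_surj p x
    exact congrArg (mq p)
      (show (0 : A) ^ p • ω = 0 by rw [zero_pow (Fact.out : p.Prime).ne_zero, zero_smul])

theorem smul_mq {p : ℕ} [Fact p.Prime] [CharP A p] (a : A) (ω : Om A) :
    a • mq p ω = mq p (a ^ p • ω) := rfl

/-- the inverse Cartier operator -/
noncomputable def gam (p : ℕ) : Om A →+ Qm p A :=
  if h : ∃ γ : Om A →+ Qm p A, ∀ a b : A, γ (a • dK b) = mq p ((a ^ p * b ^ (p - 1)) • dK b) then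
    h.choose else 0

/-- `γ - 1` -/
noncomputable def wp (p : ℕ) : Om A →+ Qm p A := gam p - mq p

/-- pull-back on forms modulo exact forms -/
noncomputable def pbQ (p : ℕ) (φ : A →+* B) : Qm p A →+ Qm p B :=
  QuotientAddGroup.map (Ex A) (Ex B) (pb φ) fun _ h => by
    obtain ⟨b, rfl⟩ := mem_Ex.1 h
    exact mem_Ex.2 ⟨φ b, (pb_d φ b).symm⟩

theorem pbQ_mq (p : ℕ) (φ : A →+* B) (ω : Om A) : pbQ p φ (mq p ω) = mq p (pb φ ω) := rfl

/-- the ring has a finite basis over its subring of `p`-th powers, with coefficient maps `Φ` -/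
def FB (p : ℕ) (A : Type) [CommRing A] : Prop :=
  ∃ (τ : Type) (_ : Fintype τ) (e : τ → A) (Φ : τ → A →+ A),
    (∀ t s b, Φ t (s * b ^ p) = Φ t s * b) ∧ ∀ s, s = ∑ t, Φ t s ^ p * e t

end ring

section field

variable {F : Type} [Field F]

/-- logarithmic differential -/
noncomputable def dlog (f : F) : Om F := f⁻¹ • dK f

/-- `z` is a unit of `O` -/
def Un (O : Subring F) (z : F) : Prop := z ∈ O ∧ z ≠ 0 ∧ z⁻¹ ∈ O

/-- `O` is a local ring and the localisation of `A` at a prime -/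
structure IsLoc (A O : Subring F) : Prop where
  le : A ≤ O
  loc : ∀ z ∈ O, Un O z ∨ Un O (1 - z)
  frac : ∀ z ∈ O, ∃ s ∈ A, Un O s ∧ s * z ∈ A

/-- `A[1 / h]` -/
def away (A : Subring F) (h : F) : Subring F := Subring.closure (insert h⁻¹ (A : Set F))

/-- `R` is a discrete valuation ring with uniformiser `y` -/
structure Dv (R : Subring F) (y : F) : Prop where
  loc : IsLoc R R
  mem : y ∈ R
  ne : y ≠ 0
  nu : ¬Un R y
  pw : ∀ z ∈ R, z ≠ 0 → ∃ n : ℕ, Un R (z / y ^ n)

/-- the forms that are regular on `O` -/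
noncomputable def OmS (O : Subring F) : AddSubgroup (Om F) :=
  AddSubgroup.closure {ω | ∃ a ∈ O, ∃ b ∈ O, ω = a • dK b}

/-- their classes -/
noncomputable def QS (p : ℕ) (O : Subring F) : AddSubgroup (Qm p F) := (OmS O).map (mq p)

/-- the forms `θ` with `(γ - 1) θ` regular -/
noncomputable def ZS (p : ℕ) (O : Subring F) : AddSubgroup (Om F) := (QS p O).comap (wp p)

/-- the residue of a form with a logarithmic pole -/
noncomputable def rsd (p : ℕ) (R : Subring F) (θ : Om F) : ZMod p :=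
  if h : ∃ (n : ℕ) (y : F), Dv R y ∧ θ - n • dlog y ∈ OmS R then (h.choose : ZMod p) else 0

variable {ι : Type} [Fintype ι]

/-- reduced monomials -/
def mon {p : ℕ} (u : ι → F) (I : ι → Fin p) : F := ∏ i, u i ^ (I i : ℕ)

/-- `u` is a `p`-basis of `O` and of its fraction field `F` -/
structure PB (p : ℕ) (O : Subring F) (u : ι → F) : Prop where
  mem : ∀ i, u i ∈ O
  span : ∀ a ∈ O, ∃ c : (ι → Fin p) → F, (∀ I, c I ∈ O) ∧ a = ∑ I, c I ^ p * mon u I
  ind : LinearIndependent F fun i => (dK (u i) : Om F)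
  frac : ∀ z : F, ∃ s ∈ O, s ≠ 0 ∧ s * z ∈ O

/-- coordinates of a form in the basis `d u` -/
noncomputable def co (u : ι → F) (i : ι) : Om F →ₗ[F] F :=
  if h : ∃ b : Module.Basis ι F (Om F), ∀ j, b j = dK (u j) then h.choose.coord i else 0

/-- `∂ / ∂ u_i` -/
noncomputable def der (u : ι → F) (i : ι) : Derivation ℤ F F := (co u i).compDer dK

/-- `u_i ∂ / ∂ u_i` -/
noncomputable def eul (u : ι → F) (i : ι) : Derivation ℤ F F := u i • der u i

/-- the coefficient of the reduced monomial `I` -/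
noncomputable def cf (p : ℕ) (u : ι → F) (I : ι → Fin p) (a : F) : F :=
  if h : ∃ c : (ι → Fin p) → F, a = ∑ J, c J ^ p * mon u J then h.choose I else 0

/-- `A` is smooth of absolute dimension `m` with fraction field `F` -/
structure Sm (p m : ℕ) (A : Subring F) : Prop where
  eft : Algebra.EssFiniteType ℤ A
  frac : ∀ z : F, ∃ s ∈ A, s ≠ 0 ∧ s * z ∈ A
  pb : ∀ O, IsLoc A O → ∃ u : Fin m → F, PB p O u

/-- a smooth local ring -/
def Reg (p m : ℕ) (O : Subring F) : Prop := Sm p m O ∧ IsLoc O O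

end field

section cech

variable {κ W : Type} [AddCommGroup W]

/-- the differential of cochains -/
def cd {q : ℕ} (z : (Fin q → κ) → W) (J : Fin (q + 1) → κ) : W :=
  ∑ k : Fin (q + 1), (-1 : ℤ) ^ (k : ℕ) • z (Fin.removeNth k J)

/-- the cochain has values in the system `S` -/
def In (S : Set κ → AddSubgroup W) {q : ℕ} (z : (Fin q → κ) → W) : Prop :=
  ∀ J, z J ∈ S (Set.range J)

/-- vanishing of cohomology in degree `q` -/
def Van (S : Set κ → AddSubgroup W) (q : ℕ) : Prop :=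
  ∀ z : (Fin (q + 1) → κ) → W, In S z → cd z = 0 → ∃ y : (Fin q → κ) → W, In S y ∧ cd y = z

variable {F : Type} [Field F]

/-- sections of the local system `S` over the intersections of the sets `V j` of local rings -/
def Gm (V : κ → Set (Subring F)) (S : Subring F → AddSubgroup W) (s : Set κ) : AddSubgroup W :=
  ⨅ (O : Subring F) (_ : ∀ j ∈ s, O ∈ V j), S O

theorem mem_Gm {V : κ → Set (Subring F)} {S : Subring F → AddSubgroup W} {s : Set κ} {w : W} :
    w ∈ Gm V S s ↔ ∀ O, (∀ j ∈ s, O ∈ V j) → w ∈ S O := by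
  simp only [Gm, AddSubgroup.mem_iInf]

/-- all finite intersections are affine and smooth -/
def Fam (p m : ℕ) (V : κ → Set (Subring F)) : Prop :=
  ∀ s : Set κ, s.Nonempty → ∃ A, Sm p m A ∧ ∀ O, (∀ j ∈ s, O ∈ V j) ↔ IsLoc A O

variable [Module F W]

/-- the local system `S` comes from the module `M` over `A`, which acts through `μ` -/
structure QC (μ : F →+* F) (A : Subring F) (M : AddSubgroup W) (S : Subring F → AddSubgroup W) :
    Prop where
  smul : ∀ a ∈ A, ∀ w ∈ M, μ a • w ∈ M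
  loc : ∀ O, IsLoc A O → ∀ w, w ∈ S O ↔ ∃ s ∈ A, Un O s ∧ μ s • w ∈ M

/-- `E` is a finitely generated projective module over `R` that spans `W` -/
structure DB (R : Subring F) (E : AddSubgroup W) : Prop where
  smul : ∀ a ∈ R, ∀ w ∈ E, a • w ∈ E
  dual : ∃ (τ : Type) (_ : Fintype τ) (w : τ → W) (l : τ → W →ₗ[F] F), (∀ t, w t ∈ E) ∧
    (∀ t, ∀ x ∈ E, l t x ∈ R) ∧ ∀ x, ∑ t, l t x • w t = x

/-- the modules `E i` agree on the intersections of the standard open sets -/
def Cmp (z : κ → F) (E : κ → AddSubgroup W) : Prop :=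
  ∀ i j, ∀ w ∈ E i, ∃ N : ℕ, (z i / z j) ^ N • w ∈ E j

variable [Fintype κ]

/-- the sections of the twist `E(-m)` -/
noncomputable def tw (z : κ → F) (E : κ → AddSubgroup W) (m : ℤ) (s : Set κ) : AddSubgroup W :=
  AddSubgroup.closure {w | ∃ i ∈ s, ∃ N : ℕ,
    ((∏ j, if j ∈ s then z j / z i else 1) ^ N * z i ^ m) • w ∈ E i}

end cech

section pair

variable {F F' B B' κ : Type} [Field F] [Field F'] [AddCommGroup B] [AddCommGroup B']

/-- a ring homomorphism from `R` to `F'` with the induced maps on forms, all extended additively -/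
structure Rd (p : ℕ) (R : Subring F) (F' : Type) [Field F'] where
  r : F →+ F'
  o : Om F →+ Om F'
  q : Qm p F →+ Qm p F'
  one : r 1 = 1
  mul : ∀ a ∈ R, ∀ b ∈ R, r (a * b) = r a * r b
  om : ∀ a ∈ R, ∀ b ∈ R, o (a • dK b) = r a • dK (r b)
  qm : ∀ ω ∈ OmS R, q (mq p ω) = mq p (o ω)

variable {p m : ℕ} {R : Subring F}

/-- the ring homomorphism -/
def Rd.hom (ρ : Rd p R F') : R →+* F' where
  toFun a := ρ.r a
  map_one' := ρ.one
  map_mul' a b := ρ.mul a a.2 b b.2
  map_zero' := ρ.r.map_zero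
  map_add' a b := ρ.r.map_add a b

/-- the image of a subring of `R` -/
def Rd.im (ρ : Rd p R F') (A : Subring F) : Subring F' := (A.comap R.subtype).map ρ.hom

/-- `e` is the equation in `A` of a smooth divisor with local ring `R` and function field `F'` -/
structure Pr (m : ℕ) (ρ : Rd p R F') (A : Subring F) (e : F) : Prop where
  sm : Sm p (m + 1) A
  smY : Sm p m (ρ.im A)
  loc : IsLoc A R
  mem : e ∈ A
  ne : e ≠ 0
  ker : ∀ a ∈ A, ρ.r a = 0 ↔ a / e ∈ A
  un : ∀ a ∈ R, ρ.r a ≠ 0 → Un R a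

/-- the standard cover given by sections `z` of a line bundle -/
structure Cov (p m : ℕ) (z : κ → F) (A : κ → Subring F) : Prop where
  sm : ∀ i, Sm p m (A i)
  ne : ∀ i, z i ≠ 0
  mem : ∀ i j, z j / z i ∈ A i
  cmp : Cmp z fun i => (A i).toAddSubgroup

/-- the local rings of `A` -/
def lr (A : Subring F) : Set (Subring F) := {O | IsLoc A O}

/-- what is used about the Brauer group `B` of `F` -/
structure BD (p m : ℕ) (F : Type) [Field F] (B : Type) [AddCommGroup B] where
  dl : Qm p F →+ B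
  loc : Subring F → AddSubgroup B
  ker : ∀ x, dl x = 0 ↔ ∃ θ, wp p θ = x
  l0 : ∀ O, Reg p m O → ∀ x ∈ QS p O, dl x ∈ loc O
  l1 : ∀ O, Reg p m O → ∀ a ∈ loc O, p • a = 0 → ∃ x ∈ QS p O, dl x = a
  l2 : ∀ O, Reg p m O → ∀ a ∈ loc O, ∃ a' ∈ loc O, p • a' = a
  spr : ∀ A O, Sm p m A → IsLoc A O → ∀ a ∈ loc O, ∃ h ∈ A, Un O h ∧
    ∀ O', IsLoc A O' → Un O' h → a ∈ loc O'
  top : ∀ a, a ∈ loc ⊤

/-- specialisation of classes -/
structure SpD (X : BD p (m + 1) F B) (Y : BD p m F' B') (ρ : Rd p R F') where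
  sp : B → B'
  add : ∀ a ∈ X.loc R, ∀ b ∈ X.loc R, sp (a + b) = sp a + sp b
  dl : ∀ x ∈ QS p R, sp (X.dl x) = Y.dl (ρ.q x)
  loc : ∀ O, Reg p (m + 1) O → IsLoc O R → Reg p m (ρ.im O) → ∀ a ∈ X.loc O, sp a ∈ Y.loc (ρ.im O)

end pair

end Pool.Agent.ZFd
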