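import Pool.Agent.Lib.MP_751085_ag.ZF.D.PB1

/-! Criteria for `p`-bases. -/

namespace Pool.Agent.ZFd

open scoped Classical

variable {F : Type} [Field F] {p : ℕ} [Fact p.Prime] [CharP F p] {ι : Type} [Fintype ι]
  {O : Subring F} {u : ι → F}

open scoped TensorProduct in
/-- A finite radicial unramified algebra is a quotient. -/
theorem surj_of_radicial {B A : Type} [CommRing B] [CommRing A] [Algebra B A] [CharP A p]
    [Module.Finite B A] [Algebra.FormallyUnramified B A]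
    (h : ∀ a : A, a ^ p ∈ (algebraMap B A).range) : Function.Surjective (algebraMap B A) := by
  obtain ⟨t, h1, h2⟩ := (Algebra.FormallyUnramified.iff_exists_tensorProduct (R := B) (S := A)).1
    inferInstance
  have : CharP (A ⊗[B] A) p := charP_of_injective_algebraMap (R := A) (fun a b e => by
    simpa using congrArg (Algebra.TensorProduct.lmul' B (S := A)) e) p
  have h3 : KaehlerDifferential.ideal B A ≤ nilradical (A ⊗[B] A) := by
    rw [← KaehlerDifferential.span_range_eq_ideal, Ideal.span_le]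
    rintro _ ⟨s, rfl⟩
    obtain ⟨b, hb⟩ := h s
    refine ⟨p, ?_⟩
    rw [sub_pow_char, Algebra.TensorProduct.tmul_pow, Algebra.TensorProduct.tmul_pow, one_pow, ← hb,
      Algebra.algebraMap_eq_smul_one, TensorProduct.smul_tmul]
    exact sub_self _
  have h4 : IsNilpotent (1 - t) := h3 (by
    rw [KaehlerDifferential.ideal, RingHom.mem_ker, map_sub, map_one, h2, sub_self])
  have h5 : IsUnit t := by simpa using h4.isUnit_one_sub
  exact Algebra.isEpi_iff_surjective_algebraMap_of_finite.1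
    ((Algebra.isEpi_iff_forall_one_tmul_eq B A).2 fun a =>
      sub_eq_zero.1 (h5.mul_left_eq_zero.1 (h1 a)))

/-- finite over the `p`-th powers -/
def FF (p : ℕ) (O : Subring F) : Prop := ∃ (τ : Type) (_ : Fintype τ) (e : τ → F), (∀ t, e t ∈ O) ∧
  ∀ a ∈ O, ∃ c : τ → F, (∀ t, c t ∈ O) ∧ a = ∑ t, c t ^ p * e t

theorem PB.ff (h : PB p O u) : FF p O := ⟨_, inferInstance, mon u, h.mon_mem, h.span⟩

/-- the sums `∑ c I ^ p * mon v I` -/
def pb3_M (p : ℕ) [Fact p.Prime] [CharP F p] (O : Subring F) (v : ι → F) : AddSubgroup F where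
  carrier := {a | ∃ c : (ι → Fin p) → F, (∀ I, c I ∈ O) ∧ a = ∑ I, c I ^ p * mon v I}
  add_mem' := by
    rintro _ _ ⟨c, hc, rfl⟩ ⟨d, hd, rfl⟩
    refine ⟨c + d, fun I => O.add_mem (hc I) (hd I), ?_⟩
    simp only [Pi.add_apply, add_pow_char, add_mul, Finset.sum_add_distrib]
  zero_mem' := ⟨0, fun _ => O.zero_mem, by simp [(Fact.out : p.Prime).ne_zero]⟩
  neg_mem' := by
    rintro _ ⟨c, hc, rfl⟩
    refine ⟨-c, fun I => O.neg_mem (hc I), ?_⟩
    rw [← Finset.sum_neg_distrib]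
    refine Finset.sum_congr rfl fun I _ => ?_
    rw [← neg_mul]
    exact congrArg (· * _) (map_neg (frobenius F p) (c I)).symm

theorem pb3_gen (hu : ∀ i, u i ∈ O) {c : F} (hc : c ∈ O) (n : ι → ℕ) :
    c ^ p * ∏ i, u i ^ n i ∈ pb3_M p O u := by
  have hp := (Fact.out : p.Prime).pos
  refine ⟨Pi.single (fun i => ⟨n i % p, Nat.mod_lt _ hp⟩) (c * ∏ i, u i ^ (n i / p)), fun I => ?_,
    ?_⟩
  · rw [Pi.single_apply]
    split_ifs
    · exact O.mul_mem hc (O.prod_mem fun i _ => O.pow_mem (hu i) _)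
    · exact O.zero_mem
  · rw [Finset.sum_eq_single (fun i => (⟨n i % p, Nat.mod_lt _ hp⟩ : Fin p)), Pi.single_eq_same,
      mul_pow, mul_assoc, mon, ← Finset.prod_pow, ← Finset.prod_mul_distrib]
    · refine congrArg _ (Finset.prod_congr rfl fun i _ => ?_)
      rw [← pow_mul, ← pow_add, Nat.div_add_mod']
    · intro I _ hI
      rw [Pi.single_eq_of_ne hI, zero_pow hp.ne', zero_mul]
    · simp

/-- they form a subring -/
def pb3_B (p : ℕ) [Fact p.Prime] [CharP F p] (hu : ∀ i, u i ∈ O) : Subring F :=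
  { pb3_M p O u with
    one_mem' := by simpa using pb3_gen (p := p) hu O.one_mem 0
    mul_mem' := by
      rintro _ _ ⟨c, hc, rfl⟩ ⟨d, hd, rfl⟩
      rw [Finset.sum_mul_sum]
      refine (pb3_M p O u).sum_mem fun I _ => (pb3_M p O u).sum_mem fun J _ => ?_
      have := pb3_gen (p := p) hu (O.mul_mem (hc I) (hd J)) fun i => I i + J i
      simp only [pow_add, Finset.prod_mul_distrib, mul_pow] at this
      rwa [mul_mul_mul_comm] }

theorem pb3_pow (hu : ∀ i, u i ∈ O) {c : F} (hc : c ∈ O) : c ^ p ∈ pb3_B p hu := by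
  have := pb3_gen (p := p) hu hc 0
  simp only [Pi.zero_apply, pow_zero, Finset.prod_const_one, mul_one] at this
  exact this

theorem pb3_u (hu : ∀ i, u i ∈ O) (i : ι) : u i ∈ pb3_B p hu := by
  have := pb3_gen (p := p) hu O.one_mem (Pi.single i 1)
  rwa [one_pow, one_mul, Finset.prod_eq_single i, Pi.single_eq_same, pow_one] at this
  · intro j _ hj
    rw [Pi.single_eq_of_ne hj, pow_zero]
  · simp

theorem pb3_le (hu : ∀ i, u i ∈ O) : pb3_B p hu ≤ O := by
  rintro _ ⟨c, hc, rfl⟩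
  exact O.sum_mem fun I _ => O.mul_mem (O.pow_mem (hc I) _)
    (O.prod_mem fun i _ => O.pow_mem (hu i) _)

theorem pb3_ff (hu : ∀ i, u i ∈ O) (h : O ≤ pb3_B p hu) : FF p O :=
  ⟨_, inferInstance, mon u, fun _ => O.prod_mem fun i _ => O.pow_mem (hu i) _, fun _ ha => h ha⟩

theorem ff_of_eft (h : Algebra.EssFiniteType ℤ O) : FF p O := by
  obtain ⟨σ, hσ⟩ := (Algebra.essFiniteType_iff ℤ O).1 h
  have hu : ∀ i : σ, ((i : O) : F) ∈ O := fun i => i.1.2
  have h1 : ∀ a ∈ Algebra.adjoin ℤ (σ : Set O), (a : F) ∈ pb3_B p hu := by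
    intro a ha
    induction ha using Algebra.adjoin_induction with
    | mem x hx => exact pb3_u hu ⟨x, hx⟩
    | algebraMap n => exact intCast_mem _ n
    | add x y _ _ hx hy => exact Subring.add_mem _ hx hy
    | mul x y _ _ hx hy => exact Subring.mul_mem _ hx hy
  refine pb3_ff hu fun a ha => ?_
  obtain ⟨t, ht, hu', hs⟩ := hσ ⟨a, ha⟩
  have h2 := (un_iff t).2 hu'
  have h3 := (pb3_B p hu).mul_mem ((pb3_B p hu).mul_mem (h1 _ hs)
    ((pb3_B p hu).pow_mem (h1 _ ht) (p - 1))) (pb3_pow hu h2.2.2)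
  have e : (a * t : F) * (t : F) ^ (p - 1) * (t : F)⁻¹ ^ p = a := by
    rw [mul_assoc a, ← pow_succ', Nat.sub_add_cancel (Fact.out : p.Prime).one_le, mul_assoc,
      ← mul_pow, mul_inv_cancel₀ h2.2.1, one_pow, mul_one]
  rwa [Subring.coe_mul, e] at h3

theorem pb_crit (hf : FF p O) (hfr : ∀ z : F, ∃ s ∈ O, s ≠ 0 ∧ s * z ∈ O) (hu : ∀ i, u i ∈ O)
    (hs : Submodule.span O (Set.range fun i => (dK (⟨u i, hu i⟩ : O) : Om O)) = ⊤)
    (hi : LinearIndependent F fun i => (dK (u i) : Om F)) : PB p O u := by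
  obtain ⟨τ, _, e, he, hf⟩ := hf
  let : Algebra (pb3_B p hu) O := (Subring.inclusion (pb3_le hu)).toAlgebra
  have : Module.Finite (pb3_B p hu) O := by
    refine ⟨Submodule.fg_def.2 ⟨Set.range fun t => ⟨e t, he t⟩, Set.finite_range _, ?_⟩⟩
    refine eq_top_iff.2 fun a _ => ?_
    obtain ⟨c, hc, h⟩ := hf a a.2
    refine (Submodule.mem_span_range_iff_exists_fun _).2 ⟨fun t => ⟨_, pb3_pow hu (hc t)⟩, ?_⟩
    refine Subtype.ext (h.trans ?_).symm
    rw [AddSubmonoidClass.coe_finsetSum]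
    rfl
  have : Algebra.FormallyUnramified (pb3_B p hu) O := by
    rw [Algebra.formallyUnramified_iff]
    have h0 : KaehlerDifferential.map ℤ (pb3_B p hu) O O = 0 := by
      refine LinearMap.ext_on_range hs fun i => ?_
      rw [KaehlerDifferential.map_D]
      exact (KaehlerDifferential.D (pb3_B p hu) O).map_algebraMap ⟨u i, pb3_u hu i⟩
    refine subsingleton_of_forall_eq 0 fun x => ?_
    obtain ⟨y, rfl⟩ := KaehlerDifferential.map_surjective ℤ (pb3_B p hu) O x
    rw [h0, LinearMap.zero_apply]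
  have h1 := surj_of_radicial (p := p) (B := pb3_B p hu) (A := O)
    fun a => ⟨⟨_, pb3_pow hu a.2⟩, rfl⟩
  refine ⟨hu, fun a ha => ?_, hi, hfr⟩
  obtain ⟨b, hb⟩ := h1 ⟨a, ha⟩
  obtain rfl : (b : F) = a := congrArg Subtype.val hb
  exact b.2

theorem PB.exch {κ : Type} [Fintype κ] (h : PB p O u) {v : κ → F} (hv : ∀ j, v j ∈ O)
    (hc : Fintype.card κ ≤ Fintype.card ι)
    (H : ∀ i, ∃ c : κ → F, (∀ j, c j ∈ O) ∧ dK (u i) = ∑ j, c j • dK (v j)) : PB p O v := by
  refine pb_crit h.ff h.frac hv (eq_top_iff.2 ?_)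
    (linearIndependent_of_top_le_span_of_card_le_finrank (fun ω _ => ?_) (h.card ▸ hc))
  · rw [← h.span_om, Submodule.span_le]
    rintro _ ⟨i, rfl⟩
    obtain ⟨c, hc, e⟩ := H i
    refine (Submodule.mem_span_range_iff_exists_fun _).2 ⟨fun j => ⟨c j, hc j⟩, h.pb_inj ?_⟩
    simp only [map_sum, pb_smul, pb_d]
    exact e.symm
  · rw [← h.sum_co ω]
    refine Submodule.sum_mem _ fun i _ => Submodule.smul_mem _ _ ?_
    obtain ⟨c, -, e⟩ := H i
    exact (Submodule.mem_span_range_iff_exists_fun _).2 ⟨c, e.symm⟩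

theorem PB.update (h : PB p O u) {y : F} (hy : y ∈ O) {i : ι} (hi : Un O (der u i y)) :
    PB p O (Function.update u i y) := by
  refine h.exch (fun j => ?_) le_rfl fun k => ?_
  · rw [Function.update_apply]
    split_ifs
    exacts [hy, h.mem j]
  by_cases hk : k = i
  · subst hk
    refine ⟨Function.update (fun j => -((der u k y)⁻¹ * der u j y)) k (der u k y)⁻¹, fun j => ?_,
      ?_⟩
    · rw [Function.update_apply]
      split_ifs
      exacts [hi.2.2, O.neg_mem (O.mul_mem hi.2.2 (h.der_mem j hy))]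
    · have e := h.sum_co (dK y)
      rw [← Finset.add_sum_erase _ _ (Finset.mem_univ k)] at e ⊢
      rw [Function.update_self, Function.update_self, ← e, smul_add, smul_smul, ← der_apply,
        inv_mul_cancel₀ hi.2.1, one_smul, Finset.smul_sum, add_assoc, ← Finset.sum_add_distrib,
        Finset.sum_eq_zero, add_zero]
      intro j hj
      rw [Function.update_of_ne (Finset.ne_of_mem_erase hj),
        Function.update_of_ne (Finset.ne_of_mem_erase hj), smul_smul, neg_smul, ← der_apply,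
        add_neg_cancel]
  · refine ⟨Pi.single k 1, fun j => ?_, ?_⟩
    · rw [Pi.single_apply]
      split_ifs
      exacts [O.one_mem, O.zero_mem]
    · simp [Pi.single_apply, Function.update_of_ne hk]

theorem PB.exists_un (h : PB p O u) (hO : IsLoc O O) :
    ∃ v : ι → F, PB p O v ∧ ∀ i, Un O (v i) := by
  have hv : ∀ i, Un O (if Un O (u i) then u i else 1 + u i) := fun i => by
    split_ifs with e
    exacts [e, hO.un_add (un_one O) (h.mem i) e]
  have hd : ∀ i, (dK (if Un O (u i) then u i else 1 + u i) : Om F) = dK (u i) := fun i => by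
    split_ifs <;> simp
  refine ⟨_, h.exch (fun i => (hv i).1) le_rfl fun k => ⟨Pi.single k 1, fun j => ?_, ?_⟩, hv⟩
  · rw [Pi.single_apply]
    split_ifs
    exacts [O.one_mem, O.zero_mem]
  · simp [Pi.single_apply, hd]

theorem sm_of_max {m : ℕ} {A : Subring F} (h1 : Algebra.EssFiniteType ℤ A)
    (h2 : ∀ z : F, ∃ s ∈ A, s ≠ 0 ∧ s * z ∈ A)
    (h3 : ∀ (O : Subring F) (𝔪 : Ideal A), 𝔪.IsMaximal → IsLoc A O → (∀ a : A, Un O a ↔ a ∉ 𝔪) →
      ∃ u : Fin m → F, PB p O u) : Sm p m A := by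
  refine ⟨h1, h2, fun O hO => ?_⟩
  obtain ⟨O₀, 𝔪, a, b, c, d⟩ := hO.exists_max
  obtain ⟨u, hu⟩ := h3 O₀ 𝔪 a b c
  exact ⟨u, hu.loc d⟩

theorem sm_of_pb {m : ℕ} {A : Subring F} (h1 : Algebra.EssFiniteType ℤ A) {u : Fin m → F}
    (h : PB p A u) : Sm p m A := ⟨h1, h.frac, fun _ hO => ⟨u, h.loc hO⟩⟩

end Pool.Agent.ZFd
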