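import Pool.Agent.Lib.MP_751085_ag.ZF.D.PB5
import Pool.Agent.Lib.MP_751085_ag.ZF.D.PB3

/-! Logarithmic poles and residues at a discrete valuation ring. -/

namespace Pool.Agent.ZFd

open scoped Classical

variable {F : Type} [Field F] {p : ℕ} [Fact p.Prime] [CharP F p] {ι : Type} [Fintype ι]
  {O R : Subring F} {u : ι → F} {y : F} {θ θ' : Om F}

omit [Fact p.Prime] [CharP F p] in
theorem dvr_inv (h : Dv R y) : y⁻¹ ∉ R := fun e => h.nu ⟨h.mem, h.ne, e⟩

omit [Fact p.Prime] [CharP F p] in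
theorem dvr_nu (h : Dv R y) {a : F} (ha : Un R a) : a / y ∉ R := fun e =>
  dvr_inv h (ha.mul_mem_iff.1 (by rwa [← div_eq_mul_inv]))

theorem dvr_der (h : Dv R y) (hu : PB p R u) : ∃ i, Un R (der u i y) := by
  by_contra! hn
  have hp := (Fact.out : p.Prime)
  have H : ∀ i, der u i y / y ∈ R := fun i => (h.nu_iff (hu.der_mem i h.mem)).1 (hn i)
  have H1 : ∀ I, cf p u I y / y ∈ R := fun I => (h.nu_iff (hu.cf_mem I h.mem)).1 fun e =>
    dvr_nu h (e.pow p) (hu.cf_pow_div h.ne H (by rw [div_self h.ne]; exact R.one_mem) I)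
  obtain ⟨q, hq⟩ := Nat.exists_eq_add_of_le hp.two_le
  refine dvr_inv h ?_
  have e : y⁻¹ = y ^ q * ∑ I : ι → Fin p, (cf p u I y / y) ^ p * mon u I := by
    have e1 : ∑ I : ι → Fin p, (cf p u I y / y) ^ p * mon u I = y / y ^ p := by
      conv_rhs => rw [← hu.sum_cf y]
      rw [hu.sum_cf y, eq_div_iff (pow_ne_zero _ h.ne), Finset.sum_mul]
      refine Eq.trans (Finset.sum_congr rfl fun I _ => ?_) (hu.sum_cf y)
      have := h.ne
      rw [div_pow]
      field_simp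
    have := h.ne
    rw [e1, show y ^ p = y ^ 2 * y ^ q by rw [← pow_add, ← hq]]
    field_simp
  rw [e]
  exact R.mul_mem (R.pow_mem h.mem _) (R.sum_mem fun I _ =>
    R.mul_mem (R.pow_mem (H1 I) _) (hu.mon_mem I))

/-- some `der u i y` is a unit: otherwise `cf_pow_div` gives `cf I y ∈ y R` for all `I`, so
`y ∈ y ^ p R` -/
theorem Dv.exists_pb (h : Dv R y) (hu : PB p R u) : ∃ (v : ι → F) (i : ι), PB p R v ∧ v i = y := by
  obtain ⟨i, hi⟩ := dvr_der h hu
  exact ⟨_, i, hu.update h.mem hi, Function.update_self ..⟩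

theorem dvr_co {v : ι → F} {j : ι} (hv : PB p R v) (vj : v j = y) (i : ι) :
    co v i (dlog y) = if j = i then y⁻¹ else 0 := by
  rw [dlog, map_smul, ← der_apply, ← vj, hv.der_u, smul_eq_mul, mul_ite, mul_one, mul_zero]

theorem dvr_eul {v : ι → F} {j : ι} (hv : PB p R v) (vj : v j = y) (i : ι) (m : ℕ) {a : F}
    (ha : a * y ^ m ∈ R) : eul v i a * y ^ m ∈ R := by
  have e : ∃ c : ℕ, eul v i (y ^ m) = c * y ^ m := by
    have e1 := hv.eul_prod i (Pi.single j m)
    rw [Finset.prod_eq_single j (fun k _ hk => by simp [hk]) (by simp), Pi.single_eq_same, vj] at e1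
    exact ⟨_, e1⟩
  obtain ⟨c, e⟩ := e
  have e2 : eul v i a * y ^ m = eul v i (a * y ^ m) - c * (a * y ^ m) := by
    rw [Derivation.leibniz, e, smul_eq_mul, smul_eq_mul]
    ring
  rw [e2]
  exact R.sub_mem (hv.eul_mem i ha) (R.mul_mem (natCast_mem R c) ha)

theorem dvr_mem (h : Dv R y) {v : ι → F} {j : ι} (hv : PB p R v) (vj : v j = y) (i : ι) {w e : F}
    (he : e ∈ R) (c : w ^ p = w + e - (fun x => eul v i x)^[p - 1] (w + e)) : w ∈ R := by
  have hp := (Fact.out : p.Prime)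
  by_contra hw
  have w0 : w ≠ 0 := fun e => hw (e ▸ R.zero_mem)
  have h1 := (h.mem_or hv.frac w).resolve_left hw
  have h2 : w⁻¹ ∈ R := by
    have := R.mul_mem h1 h.mem
    rwa [div_mul_cancel₀ _ h.ne] at this
  obtain ⟨m, hm⟩ := h.pw _ h2 (inv_ne_zero w0)
  have hm' : Un R (w * y ^ m) := by
    have := hm.inv
    rwa [inv_div, div_inv_eq_mul, mul_comm] at this
  have m0 : m ≠ 0 := by
    rintro rfl
    exact hw (by simpa using hm'.1)
  have h3 : ∀ (n : ℕ) (x : F), x * y ^ m ∈ R → (fun x => eul v i x)^[n] x * y ^ m ∈ R := fun n => by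
    induction n with
    | zero => exact fun x hx => hx
    | succ n ih => exact fun x hx => ih _ (dvr_eul hv vj i m hx)
  have h4 : (w + e) * y ^ m ∈ R := by
    rw [add_mul]
    exact R.add_mem hm'.1 (R.mul_mem he (R.pow_mem h.mem _))
  have h5 : w ^ p * y ^ m ∈ R := by
    rw [c, sub_mul]
    exact R.sub_mem h4 (h3 _ _ h4)
  obtain ⟨q, hq⟩ := Nat.exists_eq_add_of_le' hp.two_le
  have h6 := hm'.pow p
  rw [show (w * y ^ m) ^ p = y ^ (m * (q + 1)) * (w ^ p * y ^ m) by rw [hq]; ring] at h6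
  exact h.nu ((h6.left (R.pow_mem h.mem _) h5).of_pow (mul_ne_zero m0 q.succ_ne_zero) h.mem)

open Polynomial in
theorem dvr_prod (w : F) : w ^ p - w = ∏ c : ZMod p, (w - (c.val : F)) := by
  have hp := (Fact.out : p.Prime).one_lt
  have h1 := FiniteField.roots_X_pow_card_sub_X (ZMod p)
  rw [ZMod.card] at h1
  have h2 : (X ^ p - X : (ZMod p)[X]).Monic :=
    (monic_X_pow p).sub_of_left (by rw [degree_X_pow, degree_X]; exact_mod_cast hp)
  have h3 := prod_multiset_X_sub_C_of_monic_of_roots_card_eq h2 (by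
    rw [h1, FiniteField.X_pow_card_sub_X_natDegree_eq _ hp, ← Finset.card_def, Finset.card_univ,
      ZMod.card])
  rw [h1, ← Finset.prod_eq_multiset_prod] at h3
  have h4 := congrArg (eval₂RingHom (ZMod.castHom (dvd_refl p) F) w) h3
  simp only [map_prod, map_sub, map_pow, coe_eval₂RingHom, eval₂_X, eval₂_C, ZMod.castHom_apply,
    ← ZMod.natCast_val] at h4
  exact h4.symm

theorem dvr_root (h : Dv R y) {w : F} (hw : w ∈ R) (H : (w ^ p - w) / y ∈ R) :
    ∃ n : ℕ, (w - n) / y ∈ R := by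
  by_contra! hn
  refine dvr_nu h ?_ H
  rw [dvr_prod]
  refine un_prod _ fun c _ => ?_
  by_contra hc
  exact hn _ ((h.nu_iff (R.sub_mem hw (natCast_mem R _))).1 hc)

/-- Take a basis `v` of units except `v i₀ = y` and `w i = v i * co v i θ`. From
`gam θ = mq (θ + ω)`, `ω ∈ OmS R`, and `cartier_log`: `w i ^ p - P i (w i) ∈ R`, where
`P i = 1 - (eul v i) ^ (p - 1)` preserves every `y ^ (-n) R`; so `w i ∈ R`. For `i₀` the element is
in `y R` and `P (w) = w` modulo `y`, so `w ^ p - w = ∏ (w - c) ∈ y R`. -/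
theorem Dv.exists_res (h : Dv R y) (hu : PB p R u) (H : θ ∈ ZS p R) :
    ∃ n : ℕ, θ - n • dlog y ∈ OmS R := by
  have hp := (Fact.out : p.Prime)
  obtain ⟨u', hu', un⟩ := hu.exists_un h.loc
  obtain ⟨j, hj⟩ := dvr_der h hu'
  have hv := hu'.update h.mem hj
  have vj : Function.update u' j y j = y := Function.update_self ..
  have vi : ∀ i, i ≠ j → Un R (Function.update u' j y i) := fun i hi => by
    rw [Function.update_of_ne hi]
    exact un i
  generalize Function.update u' j y = v at hv vj vi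
  obtain ⟨ω, hω, e⟩ := mem_QS.1 (mem_ZS.1 H)
  have e' : gam p θ = mq p (θ + ω) := by rw [map_add, e, wp_apply, add_sub_cancel]
  have c := hv.cartier_log e'
  simp only [map_add, mul_add] at c
  have hc := hv.mem_OmS.1 hω
  have hw : ∀ i, v i * co v i θ ∈ R := fun i =>
    dvr_mem h hv vj i (R.mul_mem (hv.mem i) (hc i)) (c i)
  have h1 : ((v j * co v j θ) ^ p - v j * co v j θ) / y ∈ R := by
    obtain ⟨q, hq⟩ := Nat.exists_eq_add_of_le' hp.two_le
    have hq' : p - 1 = q + 1 := by omega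
    have h2 : ∀ (n : ℕ) (x : F), x ∈ R → (fun x => eul v j x)^[n] x ∈ R := fun n => by
      induction n with
      | zero => exact fun x hx => hx
      | succ n ih => exact fun x hx => ih _ (hv.eul_mem j hx)
    have h3 := hv.der_mem j (h2 q _ (R.add_mem (hw j) (R.mul_mem (hv.mem j) (hc j))))
    rw [c j, hq', Function.iterate_succ_apply', eul_apply]
    generalize der v j _ = d at h3
    have := h.ne
    rw [vj, show (y * co v j θ + y * co v j ω - y * d - y * co v j θ) / y = co v j ω - d by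
      field_simp; ring]
    exact R.sub_mem (hc j) h3
  obtain ⟨n, hn⟩ := dvr_root h (hw j) h1
  refine ⟨n, hv.mem_OmS.2 fun i => ?_⟩
  rw [map_sub, map_nsmul, dvr_co hv vj]
  split_ifs with hi
  · subst hi
    have := h.ne
    rw [vj] at hn
    rwa [show co v j θ - n • y⁻¹ = (y * co v j θ - n) / y by rw [nsmul_eq_mul]; field_simp]
  · rw [smul_zero, sub_zero]
    exact (vi i fun e => hi e.symm).mul_mem_iff.1 (hw i)

theorem Dv.res_unique (h : Dv R y) (hu : PB p R u) {n : ℤ} (H : n • dlog y ∈ OmS R) :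
    (n : ZMod p) = 0 := by
  obtain ⟨v, j, hv, vj⟩ := h.exists_pb hu
  have h1 := hv.mem_OmS.1 H j
  rw [map_zsmul, dvr_co hv vj, if_pos rfl, zsmul_eq_mul] at h1
  by_contra hn
  rw [ZMod.intCast_zmod_eq_zero_iff_dvd] at hn
  obtain ⟨a, b, e⟩ :=
    (Nat.prime_iff_prime_int.1 (Fact.out : p.Prime)).irreducible.coprime_iff_not_dvd.2 hn
  have e1 := congrArg (Int.cast : ℤ → F) e
  simp only [Int.cast_add, Int.cast_mul, Int.cast_natCast, CharP.cast_eq_zero, mul_zero, zero_add,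
    Int.cast_one] at e1
  have h2 := R.mul_mem (intCast_mem R b) h1
  rw [← mul_assoc, e1, one_mul] at h2
  exact dvr_inv h h2

theorem Dv.rsd_eq (h : Dv R y) (hu : PB p R u) {n : ℤ} (H : θ - n • dlog y ∈ OmS R) :
    rsd p R θ = n := by
  have hp := (Fact.out : p.Prime)
  have ex : ∃ (n : ℕ) (y : F), Dv R y ∧ θ - n • dlog y ∈ OmS R := by
    have p0 : (p : ℤ) ≠ 0 := by exact_mod_cast hp.ne_zero
    refine ⟨(n % p).toNat, y, h, ?_⟩
    rw [← natCast_zsmul, Int.toNat_of_nonneg (Int.emod_nonneg n p0), Int.emod_def, sub_smul,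
      mul_smul, natCast_zsmul, p_smul_om, sub_zero]
    exact H
  rw [rsd, dif_pos ex]
  obtain ⟨y', h', H'⟩ := ex.choose_spec
  generalize ex.choose = k at H' ⊢
  have h1 := dlog_mem (h.un_div h')
  rw [dlog_div h.ne h'.ne] at h1
  have h2 := (OmS R).add_mem ((OmS R).sub_mem H H') ((OmS R).nsmul_mem h1 k)
  rw [show θ - n • dlog y - (θ - k • dlog y') + k • (dlog y - dlog y') = ((k : ℤ) - n) • dlog y by
    rw [sub_smul, natCast_zsmul, smul_sub]; abel] at h2
  have h3 := h.res_unique hu h2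
  push_cast at h3
  exact sub_eq_zero.1 h3

theorem dvr_ex (h : Dv R y) (hu : PB p R u) (H : θ ∈ ZS p R) :
    ∃ n : ℤ, θ - n • dlog y ∈ OmS R ∧ rsd p R θ = n := by
  obtain ⟨n, hn⟩ := h.exists_res hu H
  rw [← natCast_zsmul] at hn
  exact ⟨n, hn, h.rsd_eq hu hn⟩

theorem Dv.rsd_add (h : Dv R y) (hu : PB p R u) (H : θ ∈ ZS p R) (H' : θ' ∈ ZS p R) :
    rsd p R (θ + θ') = rsd p R θ + rsd p R θ' := by
  obtain ⟨n, hn, e⟩ := dvr_ex h hu H
  obtain ⟨n', hn', e'⟩ := dvr_ex h hu H'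
  rw [e, e', ← Int.cast_add]
  refine h.rsd_eq hu ?_
  rw [add_smul, add_sub_add_comm]
  exact (OmS R).add_mem hn hn'

theorem Dv.rsd_sub (h : Dv R y) (hu : PB p R u) (H : θ ∈ ZS p R) (H' : θ' ∈ ZS p R) :
    rsd p R (θ - θ') = rsd p R θ - rsd p R θ' := by
  rw [eq_sub_iff_add_eq, ← h.rsd_add hu ((ZS p R).sub_mem H H') H', sub_add_cancel]

theorem Dv.rsd_zsmul (h : Dv R y) (hu : PB p R u) (H : θ ∈ ZS p R) (n : ℤ) :
    rsd p R (n • θ) = n * rsd p R θ := by
  obtain ⟨k, hk, e⟩ := dvr_ex h hu H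
  rw [e, ← Int.cast_mul]
  refine h.rsd_eq hu ?_
  rw [mul_smul, ← smul_sub]
  exact (OmS R).zsmul_mem hk n

theorem Dv.rsd_sum {κ : Type} (h : Dv R y) (hu : PB p R u) (s : Finset κ) {θ : κ → Om F}
    (H : ∀ k ∈ s, θ k ∈ ZS p R) : rsd p R (∑ k ∈ s, θ k) = ∑ k ∈ s, rsd p R (θ k) := by
  induction s using Finset.induction_on with
  | empty =>
    have := h.rsd_eq hu (θ := 0) (n := 0) (by simp)
    simpa using this
  | insert k s hk ih =>
    have H' : ∀ k ∈ s, θ k ∈ ZS p R := fun k hk => H k (Finset.mem_insert_of_mem hk)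
    rw [Finset.sum_insert hk, Finset.sum_insert hk,
      h.rsd_add hu (H k (Finset.mem_insert_self k s)) ((ZS p R).sum_mem H'), ih H']

theorem Dv.rsd_eq_zero (h : Dv R y) (hu : PB p R u) (H : θ ∈ ZS p R) :
    rsd p R θ = 0 ↔ θ ∈ OmS R := by
  refine ⟨fun e0 => ?_, fun e0 => ?_⟩
  · obtain ⟨n, hn, e⟩ := dvr_ex h hu H
    rw [e, ZMod.intCast_zmod_eq_zero_iff_dvd] at e0
    obtain ⟨k, rfl⟩ := e0
    rwa [mul_smul, natCast_zsmul, p_smul_om, sub_zero] at hn
  · have := h.rsd_eq hu (θ := θ) (n := 0) (by simpa using e0)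
    simpa using this

theorem Dv.rsd_dlog (h : Dv R y) (hu : PB p R u) {f : F} {n : ℤ} (hf : Un R (f / y ^ n)) :
    rsd p R (dlog f) = n := by
  have f0 : f ≠ 0 := fun e => hf.2.1 (by rw [e, zero_div])
  refine h.rsd_eq hu ?_
  have e : dlog (y ^ n) = n • dlog y := by
    obtain ⟨k, rfl | rfl⟩ := n.eq_nat_or_neg
    · rw [zpow_natCast, dlog_pow, natCast_zsmul]
    · rw [zpow_neg, zpow_natCast, dlog_inv, dlog_pow, neg_smul, natCast_zsmul]
  rw [← e, ← dlog_div f0 (zpow_ne_zero n h.ne)]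
  exact dlog_mem hf

end Pool.Agent.ZFd
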