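import Pool.Agent.Lib.MP_751085_ag.ZF.D.Loc2

/-! Factorial rings. -/

namespace Pool.Agent.ZFd

open scoped Classical

theorem ufd0_flat {B T : Type} [CommRing B] [CommRing T] {ψ : B →+* T} (hψ : ψ.Flat) {a b : B}
    {s : T} (h : ψ b ∣ ψ a * s) {J : Ideal T} (hJ : ∀ u, b ∣ a * u → ψ u ∈ J) : s ∈ J := by
  let := ψ.toAlgebra
  have : Module.Flat B T := hψ
  obtain ⟨t, ht⟩ := h
  obtain ⟨k, c, y, h1, h2⟩ := Module.Flat.isTrivialRelation_of_sum_smul_eq_zero (R := B) (M := T)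
    (f := ![a, -b]) (x := ![s, t]) (by
      rw [Fin.sum_univ_two]
      change ψ a * s + ψ (-b) * t = 0
      rw [ht, map_neg]
      ring)
  have h3 : s = ∑ j, ψ (c 0 j) * y j := h1 0
  rw [h3]
  refine J.sum_mem fun j _ => J.mul_mem_right _ (hJ _ ⟨c 1 j, ?_⟩)
  have h4 := h2 j
  rw [Fin.sum_univ_two] at h4
  change a * c 0 j + -b * c 1 j = 0 at h4
  linear_combination h4

theorem ufd0_colon {T : Type} [CommRing T] [IsDomain T] [UniqueFactorizationMonoid T] (α β : T) :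
    ∃ γ, ∀ s, β ∣ α * s ↔ γ ∣ s := by
  by_cases hα : α = 0
  · exact ⟨1, by simp [hα]⟩
  obtain ⟨c, hc⟩ := (isGCDMonoid_iff_exists_lcm.1 (inferInstance : IsGCDMonoid T)).2 α β
  obtain ⟨γ, rfl⟩ := ((hc c).2 dvd_rfl).1
  refine ⟨γ, fun s => ?_⟩
  rw [← mul_dvd_mul_iff_left (b := γ) hα, ← hc]
  simp

theorem ufd0_loc {B T : Type} [CommRing B] [IsDomain B] [CommRing T] [IsDomain T] [IsLocalRing T]
    [UniqueFactorizationMonoid T] {ψ : B →+* T} (hψ : ψ.Flat) {𝔪 : Ideal B}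
    (h𝔪 : ∀ a ∈ 𝔪, ¬IsUnit (ψ a)) (a : B) {b : B} (hb : b ≠ 0) :
    ∃ (N : Ideal B) (j : B), b ∣ a * j ∧ j ∉ N ∧ (∀ m ∈ 𝔪, ∀ u, b ∣ a * u → m * u ∈ N) ∧
      ∀ i z, b ∣ a * i → i ∉ N → b ∣ a * z → ∃ s ∉ 𝔪, i ∣ z * s := by
  obtain ⟨γ, hγ⟩ := ufd0_colon (ψ a) (ψ b)
  have hd : ∀ u, b ∣ a * u → γ ∣ ψ u := fun u hu => (hγ _).1 (by
    rw [← map_mul]; exact map_dvd ψ hu)
  have hγ0 : γ ≠ 0 := by
    rintro rfl
    have h0 : ψ b = 0 := zero_dvd_iff.1 (hd b (dvd_mul_left _ _))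
    have : (1 : T) ∈ (⊥ : Ideal T) := ufd0_flat hψ (a := b) (b := 0) (by simp [h0]) fun u hu => by
      rw [zero_dvd_iff, mul_eq_zero] at hu
      simp [hu.resolve_left hb]
    simp at this
  set J : Ideal T := Ideal.span {γ} * IsLocalRing.maximalIdeal T
  have hJ : ∀ w, γ * w ∈ J ↔ ¬IsUnit w := fun w => by
    rw [Ideal.mem_span_singleton_mul]
    constructor
    · rintro ⟨w', hw', e⟩
      rw [← mul_left_cancel₀ hγ0 e]
      exact hw'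
    · exact fun hw => ⟨w, hw, rfl⟩
  obtain ⟨j, hj, hj'⟩ : ∃ j, b ∣ a * j ∧ ψ j ∉ J := by
    by_contra hc
    push Not at hc
    have := ufd0_flat hψ ((hγ γ).2 dvd_rfl) hc
    exact (hJ 1).1 (by rwa [mul_one]) isUnit_one
  refine ⟨J.comap ψ, j, hj, hj', fun m hm u hu => ?_, fun i z hi hi' hz => ?_⟩
  · obtain ⟨w, hw⟩ := hd u hu
    rw [Ideal.mem_comap, map_mul, hw, mul_left_comm, hJ]
    exact fun h => h𝔪 m hm (isUnit_of_mul_isUnit_left h)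
  · obtain ⟨w, hw⟩ := hd i hi
    rw [Ideal.mem_comap, hw, hJ, not_not] at hi'
    by_contra hc
    push Not at hc
    have : (1 : T) ∈ IsLocalRing.maximalIdeal T :=
      ufd0_flat hψ (a := z) (b := i) (by
        rw [hw, mul_one, hi'.mul_right_dvd]
        exact hd z hz) fun u hu => h𝔪 u (by_contra fun h => hc u h hu)
    exact this isUnit_one

/-- Descent of factoriality: least common multiples exist. -/
theorem ufd_of_flat {B : Type} [CommRing B] [IsDomain B] [IsNoetherianRing B]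
    [Finite (MaximalSpectrum B)] (H : ∀ 𝔪 : Ideal B, 𝔪.IsMaximal → ∃ (T : Type) (_ : CommRing T)
      (_ : IsDomain T) (_ : IsLocalRing T) (_ : UniqueFactorizationMonoid T) (ψ : B →+* T),
      ψ.Flat ∧ ∀ a ∈ 𝔪, ¬IsUnit (ψ a)) : UniqueFactorizationMonoid B := by
  have : IsGCDMonoid B := by
    refine isGCDMonoid_iff_exists_lcm.2 ⟨inferInstance, fun a b => ?_⟩
    by_cases hb : b = 0
    · exact ⟨0, fun d => by
        rw [hb]
        exact ⟨fun h => h.2, fun h => ⟨(dvd_zero a).trans h, h⟩⟩⟩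
    have H1 : ∀ 𝔪 : MaximalSpectrum B, ∃ (N : Ideal B) (j : B), b ∣ a * j ∧ j ∉ N ∧
        (∀ m ∈ 𝔪.asIdeal, ∀ u, b ∣ a * u → m * u ∈ N) ∧ ∀ i z, b ∣ a * i → i ∉ N → b ∣ a * z →
          ∃ s ∉ 𝔪.asIdeal, i ∣ z * s := fun 𝔪 => by
      obtain ⟨T, _, _, _, _, ψ, h1, h2⟩ := H 𝔪.asIdeal 𝔪.isMaximal
      exact ufd0_loc h1 h2 a hb
    choose N j hj hN hm hz using H1
    choose e he using fun 𝔫 : MaximalSpectrum B => Ideal.exists_forall_sub_mem_ideal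
      (I := fun 𝔪 : MaximalSpectrum B => 𝔪.asIdeal) (fun _ _ h => MaximalSpectrum.isCoprime_of_ne h)
      fun 𝔪 => if 𝔫 = 𝔪 then 1 else 0
    have := Fintype.ofFinite (MaximalSpectrum B)
    have hi : b ∣ a * ∑ 𝔫, e 𝔫 * j 𝔫 := by
      rw [Finset.mul_sum]
      exact Finset.dvd_sum fun 𝔫 _ => by rw [mul_left_comm]; exact (hj 𝔫).mul_left _
    have hi' : ∀ 𝔪, ∑ 𝔫, e 𝔫 * j 𝔫 ∉ N 𝔪 := fun 𝔪 h => hN 𝔪 (by
      have h1 := (N 𝔪).sum_mem (t := Finset.univ) fun 𝔫 _ => hm 𝔪 _ (he 𝔫 𝔪) _ (hj 𝔫)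
      simp only [sub_mul, Finset.sum_sub_distrib, ite_mul, one_mul, zero_mul, Finset.sum_ite_eq',
        Finset.mem_univ, if_true] at h1
      simpa using (N 𝔪).sub_mem h h1)
    generalize ∑ 𝔫, e 𝔫 * j 𝔫 = i at hi hi'
    refine ⟨a * i, fun d => ⟨?_, fun h => ⟨(dvd_mul_right a i).trans h, hi.trans h⟩⟩⟩
    rintro ⟨⟨z, rfl⟩, h⟩
    refine mul_dvd_mul_left a ?_
    by_contra hc
    obtain ⟨𝔪, h1, h2⟩ := Ideal.exists_le_maximal
      ((Ideal.span {i}).colon {z}) (by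
        rw [Ne, Ideal.eq_top_iff_one, Submodule.mem_colon_singleton, one_smul,
          Ideal.mem_span_singleton]
        exact hc)
    obtain ⟨s, hs, hs'⟩ := hz ⟨𝔪, h1⟩ i z hi (hi' _) h
    refine hs (h2 ?_)
    rw [Submodule.mem_colon_singleton, smul_eq_mul, mul_comm, Ideal.mem_span_singleton]
    exact hs'
  infer_instance

variable {F : Type} [Field F] {B R : Subring F} {y z : F} [UniqueFactorizationMonoid B]

theorem exists_dv_of_prime {y : B} (hy : Prime y) :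
    ∃ R, IsLoc B R ∧ Dv R y ∧ ∀ a : B, Un R a ↔ ¬y ∣ a := by
  have := (Ideal.span_singleton_prime hy.ne_zero).2 hy
  obtain ⟨R, hR, hu⟩ := exists_loc (Ideal.span {y})
  simp only [Ideal.mem_span_singleton] at hu
  have hy0 : (y : F) ≠ 0 := fun h => hy.ne_zero (Subtype.ext h)
  refine ⟨R, hR, ⟨hR.self, hR.le y.2, hy0, fun h => (hu y).1 h dvd_rfl, fun z hz h0 => ?_⟩, hu⟩
  obtain ⟨s, -, hs, hsz⟩ := hR.frac z hz
  obtain ⟨n, w, hw, e⟩ := WfDvdMonoid.max_power_factor' (a₀ := (⟨s * z, hsz⟩ : B)) (x := y)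
    (fun h => mul_ne_zero hs.2.1 h0 (congrArg Subtype.val h)) hy.not_isUnit
  have e' : s * z = (y : F) ^ n * w := congrArg Subtype.val e
  refine ⟨n, ?_⟩
  have : z / (y : F) ^ n = w / s := by
    rw [div_eq_div_iff (pow_ne_zero n hy0) hs.2.1]
    linear_combination e'
  rw [this]
  exact ((hu w).2 hw).div hs

theorem exists_prime_of_dv (hB : ∀ z : F, ∃ s ∈ B, s ≠ 0 ∧ s * z ∈ B) (hR : IsLoc B R) (h : Dv R y) :
    ∃ y' : B, Prime y' ∧ Dv R y' ∧ ∀ a : B, Un R a ↔ ¬y' ∣ a := by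
  obtain ⟨𝔭, h𝔭, hu⟩ := hR.prime
  obtain ⟨s, -, hs, hsy⟩ := hR.frac y h.mem
  obtain ⟨y', h1, h2⟩ := h𝔭.exists_mem_prime_of_ne_bot (by
    rintro rfl
    have := (hu ⟨s * y, hsy⟩).2 fun h' => mul_ne_zero hs.2.1 h.ne (congrArg Subtype.val h')
    exact h.nu (Un.left (b := s) (by rwa [mul_comm]) h.mem hs.1))
  obtain ⟨R', hR', hd, hu'⟩ := exists_dv_of_prime h2
  have : R = R' := h.eq_of_le (fun z => by
    obtain ⟨s, h1, h2⟩ := hB z
    exact ⟨s, hR.le h1, h2.1, hR.le h2.2⟩) hd (hR.of_un hR' fun a ha h3 =>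
      (hu' ⟨a, ha⟩).2 fun h4 => (hu ⟨a, ha⟩).1 h3 (𝔭.mem_of_dvd h4 h1)).le
  subst this
  exact ⟨y', h2, hd, hu'⟩

theorem hartogs (hB : ∀ z : F, ∃ s ∈ B, s ≠ 0 ∧ s * z ∈ B)
    (H : ∀ R y, IsLoc B R → Dv R y → z ∈ R) : z ∈ B := by
  obtain ⟨s, hs, h0, hsz⟩ := hB z
  obtain ⟨t, a, c, hc, e1, e2⟩ := UniqueFactorizationMonoid.exists_reduced_factors (⟨s, hs⟩ : B)
    (fun h => h0 (congrArg Subtype.val h)) ⟨s * z, hsz⟩
  have e1' : (c : F) * t = s := congrArg Subtype.val e1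
  have e2' : (c : F) * a = s * z := congrArg Subtype.val e2
  have e : (a : F) = t * z := mul_left_cancel₀ (left_ne_zero_of_mul (e1' ▸ h0)) (by
    rw [e2', ← e1', mul_assoc])
  by_cases ht : IsUnit t
  · exact ((un_iff t).2 ht).mul_mem_iff.1 (e ▸ a.2)
  obtain ⟨q, hq, hqt⟩ := WfDvdMonoid.exists_irreducible_factor ht
    fun h => right_ne_zero_of_mul (e1' ▸ h0) (congrArg Subtype.val h)
  obtain ⟨R, hR, hd, hu⟩ := exists_dv_of_prime hq.prime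
  have h1 := (hu a).2 fun h => hq.not_isUnit (hc hqt h)
  rw [e] at h1
  exact ((hu t).1 (h1.left (hR.le t.2) (H R q hR hd)) hqt).elim

omit [UniqueFactorizationMonoid B] in
theorem ufd0_dvd {a w : B} (hw : (w : F) ≠ 0) : (a : F) / w ∈ B ↔ w ∣ a :=
  ⟨fun h => ⟨⟨_, h⟩, Subtype.ext (by simp [mul_div_cancel₀ _ hw])⟩, by
    rintro ⟨c, rfl⟩
    simp [mul_div_cancel_left₀ _ hw]⟩

theorem exists_gcd {κ : Type} [Finite κ] [Nonempty κ] (hB : ∀ z : F, ∃ s ∈ B, s ≠ 0 ∧ s * z ∈ B)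
    {e : κ → F} (he : ∀ i, e i ≠ 0) : ∃ f, f ≠ 0 ∧ ∀ z, z ≠ 0 → ((∀ i, e i / z ∈ B) ↔ f / z ∈ B) := by
  obtain ⟨s, -, hs, hse⟩ := (isLoc_top hB).common (z := e) fun _ => trivial
  have h0 := hs.2.1
  obtain ⟨_⟩ : Nonempty (NormalizedGCDMonoid B) := inferInstance
  have := Fintype.ofFinite κ
  set a : κ → B := fun i => ⟨s * e i, hse i⟩
  refine ⟨(Finset.univ.gcd a : B) / s, div_ne_zero (fun h => ?_) h0, fun z hz => ?_⟩
  · have := Finset.gcd_eq_zero_iff.1 (Subtype.ext h : Finset.univ.gcd a = 0)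
      (Classical.arbitrary κ) (Finset.mem_univ _)
    exact mul_ne_zero h0 (he _) (congrArg Subtype.val this)
  obtain ⟨t, ht, ht0, hw⟩ := hB (s * z)
  have hw0 : t * (s * z) ≠ 0 := mul_ne_zero ht0 (mul_ne_zero h0 hz)
  have key : ∀ x : B, (x : F) / s / z ∈ B ↔ (⟨_, hw⟩ : B) ∣ ⟨t, ht⟩ * x := fun x => by
    rw [← ufd0_dvd hw0, div_div]
    change _ ↔ t * x / (t * (s * z)) ∈ B
    rw [mul_div_mul_left _ _ ht0]
  rw [key, ← (Finset.gcd_mul_left' Finset.univ a ⟨t, ht⟩).dvd_iff_dvd_right, Finset.dvd_gcd_iff]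
  refine forall_congr' fun i => ?_
  rw [← key]
  simp [a, mul_div_cancel_left₀ _ h0]

end Pool.Agent.ZFd
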