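import Pool.Agent.Lib.MP_751085_ag.ZF.D.Tay
import Pool.Agent.Lib.MP_751085_ag.ZF.D.Dvr
import Pool.Agent.Lib.MP_751085_ag.ZF.D.Ufd0

/-! Smooth semilocal rings are factorial. -/

namespace Pool.Agent.ZFd

open scoped Classical

variable {F : Type} [Field F] {p : ℕ} [Fact p.Prime] [CharP F p] {ι : Type} [Fintype ι] {m : ℕ}
  {A B O R : Subring F} {u : ι → F} {y z : F}

theorem PB.ufd (h : PB p B u) (hB : Algebra.EssFiniteType ℤ B) [Finite (MaximalSpectrum B)] :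
    UniqueFactorizationMonoid B := by
  have := Algebra.EssFiniteType.isNoetherianRing ℤ B
  refine ufd_of_flat fun 𝔪 h𝔪 => ?_
  let := Ideal.Quotient.field 𝔪
  obtain ⟨ψ, h1, h2, -⟩ := h.taylor hB (Ideal.Quotient.mk 𝔪)
  refine ⟨MvPowerSeries ι (B ⧸ 𝔪), inferInstance, NoZeroDivisors.to_isDomain _, inferInstance,
    ZCy.ufd_mv _ _, ψ, h1, fun a ha hu => ?_⟩
  have h3 := hu.map MvPowerSeries.constantCoeff
  rw [h2, Ideal.Quotient.eq_zero_iff_mem.2 ha] at h3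
  exact not_isUnit_zero h3

theorem Reg.ufd (h : Reg p m O) : UniqueFactorizationMonoid O := by
  obtain ⟨u, hu⟩ := h.pb
  have := h.2.isLocalRing
  exact hu.ufd h.1.eft

section

variable [UniqueFactorizationMonoid B]

theorem PB.hartogs_om (h : PB p B u) {θ : Om F} (H : ∀ R y, IsLoc B R → Dv R y → θ ∈ OmS R) :
    θ ∈ OmS B :=
  h.mem_OmS.2 fun i => hartogs h.frac fun R y hR hy => (h.loc hR).mem_OmS.1 (H R y hR hy) i

theorem ufd_aux (h : PB p B u) (b : B) : b ≠ 0 → dlog (b : F) ∈ OmS B →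
    ∃ v w, Un B v ∧ w ≠ 0 ∧ (b : F) = v * w ^ p := by
  refine (wellFounded_dvdNotUnit (α := B)).induction (C := fun b : B => b ≠ 0 → dlog (b : F) ∈ OmS B →
    ∃ v w, Un B v ∧ w ≠ 0 ∧ (b : F) = v * w ^ p) b fun b ih hb H => ?_
  by_cases hu : IsUnit b
  · exact ⟨b, 1, (un_iff b).2 hu, one_ne_zero, by rw [one_pow, mul_one]⟩
  obtain ⟨y, hy, hyb⟩ := WfDvdMonoid.exists_irreducible_factor hu hb
  obtain ⟨n, a, ha, rfl⟩ := WfDvdMonoid.max_power_factor hb hy
  obtain ⟨R, hR, hD, hU⟩ := exists_dv_of_prime hy.prime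
  have ha0 : a ≠ 0 := right_ne_zero_of_mul hb
  have ha1 : (a : F) ≠ 0 := fun e => ha0 (Subtype.ext e)
  have h1 := hD.rsd_dlog (h.loc hR) (f := ((y ^ n * a : B) : F)) (n := n) (by
    rw [zpow_natCast, Subring.coe_mul, Subring.coe_pow,
      mul_div_cancel_left₀ _ (pow_ne_zero n hD.ne)]
    exact (hU a).2 ha)
  rw [(hD.rsd_eq_zero (h.loc hR) (dlog_mem_ZS R _)).2 (OmS_mono hR.le H), Int.cast_natCast, eq_comm,
    ZMod.natCast_eq_zero_iff] at h1
  obtain ⟨k, rfl⟩ := h1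
  have e : ((y ^ (p * k) * a : B) : F) = a * ((y : F) ^ k) ^ p := by
    rw [Subring.coe_mul, Subring.coe_pow, pow_mul', mul_comm]
  have hk := pow_ne_zero k hD.ne
  rw [e, dlog_mul ha1 (pow_ne_zero p hk), dlog_pow_p, add_zero] at H
  obtain ⟨v, w, hv, hw, e'⟩ := ih a ⟨ha0, y ^ (p * k), fun h2 =>
    ha ((h2.dvd_mul_left).1 hyb), mul_comm _ _⟩ ha0 H
  exact ⟨v, w * y ^ k, hv, mul_ne_zero hw hk, by rw [e, e', mul_pow, mul_assoc]⟩

/-- all valuations of `e` are divisible by `p` (`Dv.rsd_dlog`); induct on a factorisation -/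
theorem PB.unit_mul_pow (h : PB p B u) {e : F} (he : e ≠ 0) (H : dlog e ∈ OmS B) :
    ∃ v w, Un B v ∧ w ≠ 0 ∧ e = v * w ^ p := by
  obtain ⟨s, hs, hs0, hse⟩ := h.frac e
  have hp := (Fact.out : p.Prime).pos
  have h1 : e * s ^ p ∈ B := by
    rw [← Nat.sub_add_cancel hp, pow_succ, mul_comm, mul_assoc]
    exact B.mul_mem (B.pow_mem hs _) hse
  have h2 := pow_ne_zero p hs0
  obtain ⟨v, w, hv, hw, e'⟩ := ufd_aux h ⟨_, h1⟩
    (fun e' => mul_ne_zero he h2 (congrArg Subtype.val e'))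
    (by rwa [dlog_mul he h2, dlog_pow_p, add_zero])
  exact ⟨v, w / s, hv, div_ne_zero hw hs0, by rw [div_pow, ← mul_div_assoc, eq_div_iff h2]; exact e'⟩

end

theorem Sm.hartogs_om (h : Sm p m A) {θ : Om F} (H : ∀ R y, IsLoc A R → Dv R y → θ ∈ OmS R) :
    θ ∈ OmS A :=
  (qc_om A).glob.2 fun O hO => by
    have := (h.reg hO).ufd
    obtain ⟨u, hu⟩ := (h.reg hO).pb
    exact hu.hartogs_om fun R y hR hy => H R y (hO.trans hR) hy

/-- an element of the maximal ideal with a unit derivative is irreducible, so prime -/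
theorem Reg.dvd_of_pow (h : Reg p m O) (hu : PB p O u) (hy : y ∈ O) {i : ι}
    (hi : Un O (der u i y)) (hz : z ∈ O) {n : ℕ} (H : z ^ n / y ∈ O) (hy0 : y ≠ 0) (hn : n ≠ 0) :
    z / y ∈ O := by
  by_cases hU : Un O y
  · exact hU.div_mem hz
  have := h.ufd
  have h1 : Irreducible (⟨y, hy⟩ : O) := by
    refine ⟨fun e => hU ((un_iff _).2 e), fun a b e => by_contra fun e' => ?_⟩
    rw [not_or, ← un_iff, ← un_iff] at e'
    rw [show y = a * b from congrArg Subtype.val e, Derivation.leibniz, smul_eq_mul,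
      smul_eq_mul] at hi
    have da := hu.der_mem i a.2
    have db := hu.der_mem i b.2
    exact h.2.nu_add (O.mul_mem a.2 db) (O.mul_mem b.2 da) (fun e => e'.1 (e.left a.2 db))
      (fun e => e'.2 (e.left b.2 da)) hi
  obtain ⟨c, hc⟩ := h1.prime.dvd_of_dvd_pow (a := ⟨z, hz⟩) (n := n)
    ⟨⟨_, H⟩, Subtype.ext (mul_div_cancel₀ _ hy0).symm⟩
  rw [show z = y * c from congrArg Subtype.val hc, mul_div_cancel_left₀ _ hy0]
  exact c.2

end Pool.Agent.ZFd
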