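import Pool.Agent.Lib.MP_751085_ag.ZF.D.PB1

/-! Separable extensions; differentials and transcendence degree. -/

namespace Pool.Agent.ZFd

open scoped Classical

variable {F : Type} [Field F] {p : ℕ} [Fact p.Prime] [CharP F p] {ι : Type} [Fintype ι]
  {O : Subring F} {u : ι → F}

section ext

variable {E : Type} [Field E] [Algebra F E] [Algebra.IsSeparable F E]

omit [Algebra.IsSeparable F E] in
theorem pb4_pb_eq (ω : Om F) :
    pb (algebraMap F E) ω = KaehlerDifferential.map ℤ ℤ F E ω := by
  induction ω using om_ind with
  | h0 => rw [map_zero, map_zero]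
  | h1 a b =>
    rw [pb_smul, pb_d, map_smul, KaehlerDifferential.map_D, algebraMap_smul]
  | h2 x y hx hy => rw [map_add, map_add, hx, hy]

theorem pb4_ind {κ : Type} {w : κ → Om F} (h : LinearIndependent F w) :
    LinearIndependent E fun i => pb (algebraMap F E) (w i) := by
  have : Algebra.FormallyEtale F E := Algebra.FormallyEtale.of_isSeparable F E
  have h1 := Module.Flat.linearIndependent_one_tmul (S := E) h
  have h2 := h1.map' (KaehlerDifferential.tensorKaehlerEquivOfFormallyEtale ℤ F E).toLinearMap
    (LinearEquiv.ker _)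
  have e : (fun i => pb (algebraMap F E) (w i)) =
      (KaehlerDifferential.tensorKaehlerEquivOfFormallyEtale ℤ F E).toLinearMap ∘
        fun i => (1 : E) ⊗ₜ[F] w i := by
    funext i
    rw [pb4_pb_eq, Function.comp_apply, LinearEquiv.coe_coe,
      KaehlerDifferential.tensorKaehlerEquivOfFormallyEtale_apply,
      KaehlerDifferential.mapBaseChange_tmul, one_smul]
  rw [e]
  exact h2

/-- `KaehlerDifferential.tensorKaehlerEquivOfFormallyEtale` -/
theorem ind_ext {w : ι → Om F} (h : LinearIndependent F w) :
    LinearIndependent E fun i => pb (algebraMap F E) (w i) := pb4_ind h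

theorem pb_ext_inj : Function.Injective (pb (algebraMap F E)) := by
  rw [injective_iff_map_eq_zero]
  intro ω hω
  by_contra h0
  have h1 : LinearIndependent F fun _ : Unit => ω := by
    rw [linearIndependent_unique_iff]
    exact h0
  exact (pb4_ind (E := E) h1).ne_zero () hω

variable [CharP E p]

/-- `E = F[E ^ p]` for separable `E / F` -/
theorem PB.ext_top (h : PB p O u) : PB p (⊤ : Subring E) fun i => algebraMap F E (u i) := by
  refine ⟨fun _ => Subring.mem_top _, fun a _ => ?_, ?_,
    fun z => ⟨1, Subring.mem_top _, one_ne_zero, Subring.mem_top _⟩⟩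
  · have hs := Field.span_map_pow_expChar_pow_eq_top_of_isSeparable (F := F) (E := E)
      (v := fun x : E => x) p 1 (by simp)
    have ha : a ∈ Submodule.span F (Set.range fun x : E => x ^ p ^ 1) := by
      rw [hs]
      trivial
    have key : ∃ c : (ι → Fin p) → E,
        a = ∑ I, c I ^ p * mon (fun i => algebraMap F E (u i)) I := by
      obtain ⟨f, rfl⟩ := Finsupp.mem_span_range_iff_exists_finsupp.1 ha
      clear ha
      induction f using Finsupp.induction_linear with
      | zero =>
        refine ⟨0, ?_⟩
        simp [(Fact.out : p.Prime).ne_zero]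
      | add f g hf hg =>
        rw [Finsupp.sum_add_index' (by simp) (by simp [add_smul])]
        obtain ⟨c, hc⟩ := hf (Subring.mem_top _)
        obtain ⟨d, hd⟩ := hg (Subring.mem_top _)
        refine ⟨c + d, ?_⟩
        rw [hc, hd, ← Finset.sum_add_distrib]
        refine Finset.sum_congr rfl fun I _ => ?_
        rw [Pi.add_apply, add_pow_char, add_mul]
      | single x r =>
        rw [Finsupp.sum_single_index (by simp)]
        obtain ⟨c, -, hc⟩ := h.top.span r (Subring.mem_top _)
        refine ⟨fun I => algebraMap F E (c I) * x, ?_⟩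
        rw [Algebra.smul_def, pow_one, hc, map_sum, Finset.sum_mul]
        refine Finset.sum_congr rfl fun I _ => ?_
        simp only [mon, map_mul, map_pow, map_prod, mul_pow]
        ring
    obtain ⟨c, hc⟩ := key
    exact ⟨c, fun _ => Subring.mem_top _, hc⟩
  · have := ind_ext (E := E) h.ind
    simpa only [pb_d] using this

theorem PB.co_pb (h : PB p O u) (i : ι) (ω : Om F) :
    co (fun i => algebraMap F E (u i)) i (pb (algebraMap F E) ω) = algebraMap F E (co u i ω) := by
  have e : pb (algebraMap F E) ω =
      ∑ j, algebraMap F E (co u j ω) • dK (algebraMap F E (u j)) := by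
    conv_lhs => rw [← h.sum_co ω]
    rw [map_sum]
    exact Finset.sum_congr rfl fun j _ => by rw [pb_smul, pb_d]
  rw [e]
  exact (h.ext_top (E := E)).co_sum (fun j => algebraMap F E (co u j ω)) i

theorem PB.co_aut (h : PB p O u) (g : E ≃ₐ[F] E) (i : ι) (ω : Om E) :
    co (fun i => algebraMap F E (u i)) i (pb (g : E →+* E) ω) =
      g (co (fun i => algebraMap F E (u i)) i ω) := by
  have h' := h.ext_top (E := E)
  have e : pb (g : E →+* E) ω =
      ∑ j, g (co (fun i => algebraMap F E (u i)) j ω) • dK (algebraMap F E (u j)) := by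
    conv_lhs => rw [← h'.sum_co ω]
    rw [map_sum]
    refine Finset.sum_congr rfl fun j _ => ?_
    rw [pb_smul, pb_d]
    have e1 : (g : E →+* E) (algebraMap F E (u j)) = algebraMap F E (u j) := g.commutes _
    rw [e1]
    rfl
  rw [e]
  exact h'.co_sum (fun j => g (co (fun i => algebraMap F E (u i)) j ω)) i

end ext

omit [CharP F p] in
theorem pb4_trdeg {κ : Type} {v : κ → F} (hF : Algebra.EssFiniteType ℤ F) [Algebra (ZMod p) F]
    (hs : Submodule.span F (Set.range fun i => (dK (v i) : Om F)) = ⊤) :
    Algebra.trdeg (ZMod p) F ≤ Cardinal.mk κ := by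
  obtain ⟨K, hK⟩ : ∃ K, K = IntermediateField.adjoin (ZMod p) (Set.range v) := ⟨_, rfl⟩
  have h1 : Algebra.EssFiniteType K F := Algebra.EssFiniteType.of_comp ℤ K F
  have h2 : Algebra.FormallyUnramified K F := by
    refine ⟨subsingleton_of_forall_eq 0 fun x => ?_⟩
    obtain ⟨y, rfl⟩ := KaehlerDifferential.map_surjective ℤ K F x
    have hy : y ∈ Submodule.span F (Set.range fun i => (dK (v i) : Om F)) := by
      rw [hs]
      trivial
    have hle : Submodule.span F (Set.range fun i => (dK (v i) : Om F)) ≤
        LinearMap.ker (KaehlerDifferential.map ℤ K F F) := by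
      rw [Submodule.span_le]
      rintro _ ⟨i, rfl⟩
      have hv : v i ∈ K := by
        rw [hK]
        exact IntermediateField.subset_adjoin _ _ ⟨i, rfl⟩
      have := (KaehlerDifferential.D K F).map_algebraMap ⟨v i, hv⟩
      exact (KaehlerDifferential.map_D ℤ K F F (v i)).trans this
    exact hle hy
  have h3 : Module.Finite K F := Algebra.FormallyUnramified.finite_of_free K F
  have h4 : Algebra.IsAlgebraic K F := inferInstance
  subst hK
  have h5 := IntermediateField.isAlgebraic_adjoin_iff_top.1 h4
  exact (Algebra.IsAlgebraic.trdeg_le_cardinalMk (ZMod p) (Set.range v)).trans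
    Cardinal.mk_range_le

/-- a field that is finitely generated over the prime field: if `m` differentials span then the
transcendence degree is at most `m` (`Algebra.FormallyUnramified.finite_of_free` over the subfield
generated by the `u i`) -/
theorem trdeg_le_of_span (hF : Algebra.EssFiniteType ℤ F) [Algebra (ZMod p) F]
    (hs : Submodule.span F (Set.range fun i => (dK (u i) : Om F)) = ⊤) :
    Algebra.trdeg (ZMod p) F ≤ Fintype.card ι := by
  rw [← Cardinal.mk_fintype]
  exact pb4_trdeg hF hs

/-- otherwise a proper subfamily spans -/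
theorem ind_of_span (hF : Algebra.EssFiniteType ℤ F) [Algebra (ZMod p) F]
    (hs : Submodule.span F (Set.range fun i => (dK (u i) : Om F)) = ⊤)
    (ht : (Fintype.card ι : Cardinal) ≤ Algebra.trdeg (ZMod p) F) :
    LinearIndependent F fun i => (dK (u i) : Om F) := by
  obtain ⟨κ, a, ha, hsp, hli⟩ := exists_linearIndependent' F fun i => (dK (u i) : Om F)
  have : Finite κ := Finite.of_injective a ha
  have := Fintype.ofFinite κ
  have h1 := pb4_trdeg (p := p) (v := fun k => u (a k)) hF (hsp.trans hs)
  have h2 : Fintype.card ι ≤ Fintype.card κ := by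
    have := ht.trans h1
    rw [Cardinal.mk_fintype] at this
    exact_mod_cast this
  have hb : Function.Bijective a :=
    (Fintype.bijective_iff_injective_and_card a).2
      ⟨ha, le_antisymm (Fintype.card_le_of_injective a ha) h2⟩
  exact (linearIndependent_equiv (Equiv.ofBijective a hb)).1 hli

end Pool.Agent.ZFd
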