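import Pool.Agent.Lib.MP_751085_ag.ZF.D.PB2

/-! Reduction of forms along a homomorphism to a field. -/

namespace Pool.Agent.ZFd

open scoped Classical

variable {F F' : Type} [Field F] [Field F'] {p m : ℕ} [Fact p.Prime] [CharP F p] [CharP F' p]
  {R A O : Subring F} {a b e h : F} {ω : Om F}

/-- groups killed by `p` are vector spaces over `ZMod p` -/
theorem exists_extend {W W' : Type} [AddCommGroup W] [AddCommGroup W'] (hW : ∀ w : W, p • w = 0)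
    (hW' : ∀ w : W', p • w = 0) {T : Type} [AddCommGroup T] (i : T →+ W) (f : T →+ W')
    (h : ∀ t, i t = 0 → f t = 0) : ∃ g : W →+ W', ∀ t, g (i t) = f t := by
  have _ := hW'
  let := AddCommGroup.zmodModule hW
  let := AddCommGroup.zmodModule (G := i.range) (n := p) fun w => Subtype.ext (hW w)
  obtain ⟨g, hg⟩ := LinearMap.exists_leftInverse_of_injective
    (i.range.subtype.toZModLinearMap p) (LinearMap.ker_eq_bot.2 Subtype.val_injective)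
  let k : i.range →+ W' := i.rangeRestrict.liftOfSurjective i.rangeRestrict_surjective
    ⟨f, fun t ht => h t (congrArg Subtype.val ht)⟩
  refine ⟨k.comp g.toAddMonoidHom, fun t => ?_⟩
  have e : g.toAddMonoidHom (i t) = i.rangeRestrict t := LinearMap.congr_fun hg (i.rangeRestrict t)
  rw [AddMonoidHom.comp_apply, e]
  exact AddMonoidHom.liftOfRightInverse_comp_apply _ _ _ _ _

theorem exists_rd {ι : Type} [Fintype ι] {u : ι → F} (h : PB p R u) (φ : R →+* F') :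
    ∃ ρ : Rd p R F', ∀ a : R, ρ.r a = φ a := by
  obtain ⟨r, hr⟩ := exists_extend (p := p) (W := F) (W' := F') (fun w => by simp) (fun w => by simp)
    R.subtype.toAddMonoidHom φ.toAddMonoidHom fun t ht => by
      rw [show t = 0 from Subtype.ext ht, map_zero]
  obtain ⟨o, ho⟩ := exists_extend (p := p) p_smul_om p_smul_om (pb R.subtype) (pb φ) fun t ht => by
    rw [h.pb_inj (ht.trans (map_zero _).symm), map_zero]
  obtain ⟨q, hq⟩ := exists_extend (p := p) p_smul_qm p_smul_qm ((mq p).comp (pb R.subtype))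
    ((mq p).comp (pb φ)) fun t ht => by
      obtain ⟨g, hg⟩ := mem_Ex.1 (mq_eq_zero.1 ht)
      obtain ⟨a, ha, e⟩ := h.exists_d (g := g) (mem_OmS_range.2 ⟨t, hg.symm⟩)
      have : t = dK (⟨a, ha⟩ : R) := h.pb_inj (by rw [pb_d, ← hg, ← e]; rfl)
      rw [this, AddMonoidHom.comp_apply, pb_d, mq_d]
  have hr' : ∀ a : R, r a = φ a := hr
  refine ⟨⟨r, o, q, (hr' 1).trans φ.map_one, fun a ha b hb => ?_, fun a ha b hb => ?_,
    fun ω hω => ?_⟩, hr'⟩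
  · rw [hr' ⟨a, ha⟩, hr' ⟨b, hb⟩, ← map_mul]
    exact hr' (⟨a, ha⟩ * ⟨b, hb⟩)
  · rw [hr' ⟨a, ha⟩, hr' ⟨b, hb⟩, ← pb_smul_d, ← ho, pb_smul_d]
    rfl
  · obtain ⟨t, rfl⟩ := mem_OmS_range.1 hω
    rw [ho]
    exact hq t

variable (ρ : Rd p R F')

theorem Rd.pow (ha : a ∈ R) (n : ℕ) : ρ.r (a ^ n) = ρ.r a ^ n := ρ.hom.map_pow ⟨a, ha⟩ n

theorem Rd.inv (ha : Un R a) : ρ.r a ≠ 0 ∧ ρ.r a⁻¹ = (ρ.r a)⁻¹ := by
  have e : ρ.r a * ρ.r a⁻¹ = 1 := by rw [← ρ.mul a ha.1 _ ha.2.2, mul_inv_cancel₀ ha.2.1, ρ.one]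
  exact ⟨left_ne_zero_of_mul_eq_one e, eq_inv_of_mul_eq_one_right e⟩

theorem Rd.div (ha : a ∈ R) (hb : Un R b) : ρ.r (a / b) = ρ.r a / ρ.r b := by
  rw [div_eq_mul_inv, ρ.mul a ha _ hb.2.2, (ρ.inv hb).2, div_eq_mul_inv]

theorem Rd.prod {ι : Type} (s : Finset ι) {f : ι → F} (h : ∀ i ∈ s, f i ∈ R) :
    ρ.r (∏ i ∈ s, f i) = ∏ i ∈ s, ρ.r (f i) := by
  induction s using Finset.induction_on with
  | empty => simpa using ρ.one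
  | insert i s hi ih =>
    have h' : ∀ j ∈ s, f j ∈ R := fun j hj => h j (Finset.mem_insert_of_mem hj)
    rw [Finset.prod_insert hi, Finset.prod_insert hi,
      ρ.mul _ (h i (Finset.mem_insert_self i s)) _ (R.prod_mem h'), ih h']

theorem Rd.o_d (hb : b ∈ R) : ρ.o (dK b) = dK (ρ.r b) := by
  have := ρ.om 1 R.one_mem b hb
  rwa [one_smul, ρ.one, one_smul] at this

theorem Rd.o_smul (ha : a ∈ R) (h : ω ∈ OmS R) : ρ.o (a • ω) = ρ.r a • ρ.o ω := by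
  refine OmS_ind (P := fun ω => ρ.o (a • ω) = ρ.r a • ρ.o ω) (by simp) (fun c hc b hb => ?_)
    (fun x y _ _ hx hy => ?_) h
  · rw [smul_smul, ρ.om _ (R.mul_mem ha hc) b hb, ρ.om c hc b hb, ρ.mul a ha c hc, mul_smul]
  · rw [smul_add, map_add, map_add, smul_add, hx, hy]

theorem Rd.q_smul (ha : a ∈ R) {x : Qm p F} (h : x ∈ QS p R) : ρ.q (a • x) = ρ.r a • ρ.q x := by
  obtain ⟨ω, hω, rfl⟩ := mem_QS.1 h
  rw [smul_mq, ρ.qm _ (OmS_smul (R.pow_mem ha p) hω), ρ.qm _ hω, smul_mq,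
    ρ.o_smul (R.pow_mem ha p) hω, ρ.pow ha]

theorem Rd.q_gam (h : ω ∈ OmS R) : ρ.q (gam p ω) = gam p (ρ.o ω) := by
  refine OmS_ind (P := fun ω => ρ.q (gam p ω) = gam p (ρ.o ω)) (by simp) (fun c hc b hb => ?_)
    (fun x y _ _ hx hy => ?_) h
  · have h1 := R.pow_mem hc p
    have h2 := R.pow_mem hb (p - 1)
    rw [gam_smul_d, ρ.qm _ (smul_d_mem (R.mul_mem h1 h2) hb), ρ.om _ (R.mul_mem h1 h2) b hb,
      ρ.om c hc b hb, gam_smul_d, ρ.mul _ h1 _ h2, ρ.pow hc, ρ.pow hb]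
  · rw [map_add, map_add, map_add, map_add, hx, hy]

theorem Rd.q_wp (h : ω ∈ OmS R) : ρ.q (wp p ω) = wp p (ρ.o ω) := by
  rw [wp_apply, wp_apply, map_sub, ρ.q_gam h, ρ.qm _ h]

theorem Rd.mem_im (h : A ≤ R) {z : F'} : z ∈ ρ.im A ↔ ∃ a ∈ A, ρ.r a = z :=
  ⟨fun ⟨a, ha, e⟩ => ⟨a, ha, e⟩, fun ⟨a, ha, e⟩ => ⟨⟨a, h ha⟩, ha, e⟩⟩

theorem Rd.o_onto (h : A ≤ R) {ω' : Om F'} :
    ω' ∈ OmS (ρ.im A) ↔ ∃ ω ∈ OmS A, ρ.o ω = ω' := by
  refine ⟨fun H => OmS_ind (P := fun ω' => ∃ ω ∈ OmS A, ρ.o ω = ω') ⟨0, zero_mem _, map_zero _⟩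
    (fun c hc b hb => ?_) (fun x y _ _ hx hy => ?_) H, ?_⟩
  · obtain ⟨c, hc', rfl⟩ := (ρ.mem_im h).1 hc
    obtain ⟨b, hb', rfl⟩ := (ρ.mem_im h).1 hb
    exact ⟨_, smul_d_mem hc' hb', ρ.om c (h hc') b (h hb')⟩
  · obtain ⟨x, hx, rfl⟩ := hx
    obtain ⟨y, hy, rfl⟩ := hy
    exact ⟨_, add_mem hx hy, map_add _ _ _⟩
  · rintro ⟨ω, hω, rfl⟩
    refine OmS_ind (P := fun ω => ρ.o ω ∈ OmS (ρ.im A)) (by simp) (fun c hc b hb => ?_)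
      (fun x y _ _ hx hy => ?_) hω
    · rw [ρ.om c (h hc) b (h hb)]
      exact smul_d_mem ((ρ.mem_im h).2 ⟨c, hc, rfl⟩) ((ρ.mem_im h).2 ⟨b, hb, rfl⟩)
    · rw [map_add]
      exact add_mem hx hy

theorem Rd.q_onto (h : A ≤ R) {x' : Qm p F'} :
    x' ∈ QS p (ρ.im A) ↔ ∃ x ∈ QS p A, ρ.q x = x' := by
  constructor
  · rintro ⟨ω', H, rfl⟩
    obtain ⟨ω, hω, rfl⟩ := (ρ.o_onto h).1 H
    exact ⟨_, mq_mem hω, ρ.qm _ (OmS_mono h hω)⟩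
  · rintro ⟨_, ⟨ω, hω, rfl⟩, rfl⟩
    rw [ρ.qm _ (OmS_mono h hω)]
    exact mq_mem ((ρ.o_onto h).2 ⟨ω, hω, rfl⟩)

theorem Rd.im_away (hA : A ≤ R) (hh : h ∈ A) (hu : Un R h) :
    ρ.im (away A h) = away (ρ.im A) (ρ.r h) := by
  have h1 : away A h ≤ R := Subring.closure_le.2 (Set.insert_subset hu.2.2 hA)
  have h2 : ρ.r h ∈ ρ.im A := (ρ.mem_im hA).2 ⟨h, hh, rfl⟩
  refine le_antisymm (fun z hz => ?_) (Subring.closure_le.2 (Set.insert_subset ?_ fun z hz => ?_))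
  · obtain ⟨a, ha, rfl⟩ := (ρ.mem_im h1).1 hz
    obtain ⟨N, hN⟩ := (mem_away hh hu.2.1).1 ha
    refine (mem_away h2 (ρ.inv hu).1).2 ⟨N, (ρ.mem_im hA).2 ⟨_, hN, ?_⟩⟩
    rw [ρ.mul _ (R.pow_mem hu.1 N) _ (h1 ha), ρ.pow hu.1]
  · exact (ρ.mem_im h1).2 ⟨h⁻¹, (un_away hh hu.2.1).2.2, (ρ.inv hu).2⟩
  · obtain ⟨a, ha, rfl⟩ := (ρ.mem_im hA).1 hz
    exact (ρ.mem_im h1).2 ⟨a, le_away A h ha, rfl⟩

end Pool.Agent.ZFd
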