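import Pool.Agent.Lib.MP_751085_ag.ZF.D.PB2

/-! Closed forms and the Cartier operator. -/

namespace Pool.Agent.ZFd

open scoped Classical

variable {F : Type} [Field F] {p : ℕ} [Fact p.Prime] [CharP F p] {ι : Type} [Fintype ι]
  {O : Subring F} {u : ι → F} {a g : F} {ω : Om F}

theorem pb5_eq (h : PB p O u) {θ : Om F} (H : gam p θ = mq p ω) :
    ∃ g, ∀ i, co u i ω = co u i θ ^ p * u i ^ (p - 1) + der u i g := by
  rw [h.gam_eq] at H
  obtain ⟨g, hg⟩ := mq_eq_iff.1 H.symm
  exact ⟨g, fun i => by rw [hg, map_add, h.co_sum, der_apply]⟩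

omit [CharP F p] in
theorem pb5_pow (x : F) : x ^ p = x ^ (p - 1) * x :=
  (pow_sub_one_mul (Fact.out : p.Prime).ne_zero x).symm

theorem pb5_mul (D : Derivation ℤ F F) (c : F) (n : ℕ) (x : F) :
    (fun x => D x)^[n] (c ^ p * x) = c ^ p * (fun x => D x)^[n] x := by
  induction n with
  | zero => rfl
  | succ n ih => rw [Function.iterate_succ_apply', Function.iterate_succ_apply', ih, der_pow_p_mul]

omit [CharP F p] in
theorem pb5_succ (D : Derivation ℤ F F) (x : F) :
    (fun x => D x)^[p - 1] (D x) = (fun x => D x)^[p] x := by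
  conv_rhs => rw [← Nat.sub_add_cancel (Fact.out : p.Prime).one_le]
  rfl

theorem pb5_fac (h : PB p O u) (i : ι) (n : ℕ) :
    (fun x => der u i x)^[n] (u i ^ n) = n.factorial := by
  induction n with
  | zero => simp
  | succ n ih =>
    rw [Function.iterate_succ_apply, Derivation.leibniz_pow, h.der_u, if_pos rfl, smul_eq_mul,
      mul_one, Nat.add_sub_cancel]
    refine (iterate_map_nsmul (der u i) n _ _).trans ?_
    rw [Nat.factorial_succ, Nat.cast_mul, ← ih, nsmul_eq_mul]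



theorem PB.closed_of (h : PB p O u) {θ : Om F} (H : gam p θ = mq p ω) (i j : ι) :
    der u i (co u j ω) = der u j (co u i ω) := by
  rcases eq_or_ne i j with rfl | hij
  · rfl
  obtain ⟨g, hg⟩ := pb5_eq h H
  rw [hg, hg, map_add, map_add, der_pow_p_mul, der_pow_p_mul, Derivation.leibniz_pow,
    Derivation.leibniz_pow, h.der_u, h.der_u, if_neg hij, if_neg hij.symm, h.der_comm]
  simp

/-- the formula for the Cartier operator -/
theorem PB.cartier_co (h : PB p O u) {θ : Om F} (H : gam p θ = mq p ω) (i : ι) :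
    co u i θ ^ p = -(fun x => der u i x)^[p - 1] (co u i ω) := by
  obtain ⟨g, hg⟩ := pb5_eq h H
  have w : (((p - 1).factorial : ℕ) : F) = -1 := by
    have := congrArg (ZMod.castHom (dvd_refl p) F) (ZMod.wilsons_lemma p)
    rwa [map_natCast, map_neg, map_one] at this
  rw [hg]
  refine Eq.trans ?_ (congrArg Neg.neg (iterate_map_add (der u i) _ _ _)).symm
  rw [pb5_mul, pb5_fac h, pb5_succ, h.der_iter, w]
  ring

/-- the same in logarithmic coordinates -/
theorem PB.cartier_log (h : PB p O u) {θ : Om F} (H : gam p θ = mq p ω) (i : ι) :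
    (u i * co u i θ) ^ p = u i * co u i ω - (fun x => eul u i x)^[p - 1] (u i * co u i ω) := by
  obtain ⟨g, hg⟩ := pb5_eq h H
  have e : u i * co u i ω = (u i * co u i θ) ^ p * 1 + eul u i g := by
    rw [hg, eul_apply, mul_pow, pb5_pow (p := p) (u i)]
    ring
  have z : (fun x => eul u i x)^[p - 1] 1 = 0 := by
    obtain ⟨n, hn⟩ : ∃ n, p - 1 = n + 1 := ⟨p - 2, by have := (Fact.out : p.Prime).two_le; omega⟩
    rw [hn, Function.iterate_succ_apply, Derivation.map_one_eq_zero]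
    exact iterate_map_zero (eul u i) n
  rw [e]
  refine Eq.trans ?_ (congrArg (HSub.hSub _) (iterate_map_add (eul u i) _ _ _)).symm
  rw [pb5_mul, pb5_succ, h.eul_iter, z]
  ring

theorem PB.gam_inj (h : PB p O u) : Function.Injective (gam p : Om F → Qm p F) := by
  refine (injective_iff_map_eq_zero _).2 fun θ hθ => h.ext fun i => ?_
  have := h.cartier_co (ω := 0) (hθ.trans (map_zero _).symm) i
  rw [map_zero] at this ⊢
  exact eq_zero_of_pow_eq_zero (this.trans (neg_eq_zero.2 (iterate_map_zero (der u i) _)))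

theorem PB.mem_of_gam (h : PB p O u) {θ : Om F} (H : gam p θ ∈ QS p O) : θ ∈ OmS O := by
  obtain ⟨ω, hω, e⟩ := mem_QS.1 H
  refine h.mem_OmS.2 fun i => h.mem_of_pow ?_
  rw [h.cartier_co e.symm]
  exact neg_mem (Function.Iterate.rec (· ∈ O) (h.mem_OmS.1 hω i) (fun _ => h.der_mem i) _)

/-- closed forms are exact plus `γ`: decompose `u i * co u i ω` into weights `I`; the part of
weight `I ≠ 0` is `d (c ^ p mon I / I i)` -/
theorem PB.closed (h : PB p O u) (hω : ω ∈ OmS O)
    (H : ∀ i j, der u i (co u j ω) = der u j (co u i ω)) : ∃ θ ∈ OmS O, gam p θ = mq p ω := by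
  have e : ∀ i j, eul u i (u j * co u j ω) = eul u j (u i * co u i ω) := fun i j => by
    rcases eq_or_ne i j with rfl | hij
    · rfl
    rw [eul_apply, eul_apply, Derivation.leibniz, Derivation.leibniz, h.der_u, h.der_u, if_neg hij,
      if_neg hij.symm, H]
    simp only [smul_eq_mul]
    ring
  have ex : ∀ I : ι → Fin p, ∃ c : F, ∀ j, I ≠ 0 → cf p u I (u j * co u j ω) = (I j : ℕ) * c := by
    intro I
    by_cases hI : I = 0
    · exact ⟨0, fun _ h' => absurd hI h'⟩
    obtain ⟨i, hi⟩ := Function.ne_iff.1 hI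
    have h0 : ((I i : ℕ) : F) ≠ 0 := fun h0 => hi (Fin.ext
      (Nat.eq_zero_of_dvd_of_lt ((CharP.cast_eq_zero_iff F p _).1 h0) (I i).2))
    refine ⟨cf p u I (u i * co u i ω) / (I i : ℕ), fun j _ => ?_⟩
    rw [← mul_div_assoc, eq_div_iff h0, mul_comm, ← h.cf_eul, ← h.cf_eul, e]
  choose c hc using ex
  have key : ∀ j, u j * co u j ω =
      cf p u 0 (u j * co u j ω) ^ p + u j * co u j (dK (∑ I, c I ^ p * mon u I)) := fun j => by
    rw [← der_apply, ← eul_apply, map_sum, ← Finset.add_sum_erase _ _ (Finset.mem_univ 0),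
      h.eul_mon]
    conv_lhs => rw [← h.sum_cf (u j * co u j ω), ← Finset.add_sum_erase _ _ (Finset.mem_univ 0)]
    rw [Finset.sum_congr rfl fun I hI => show cf p u I (u j * co u j ω) ^ p * mon u I =
      eul u j (c I ^ p * mon u I) by
        rw [h.eul_mon, hc I j (Finset.ne_of_mem_erase hI), mul_pow, ← frobenius_def, map_natCast,
          mul_assoc]]
    simp [mon]
  have G : gam p (∑ j, cf p u 0 (u j * co u j ω) • dlog (u j)) = mq p ω := by
    rw [map_sum, Finset.sum_congr rfl fun j _ => gam_dlog _ _, ← map_sum]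
    refine (mq_eq_iff.2 ⟨∑ I, c I ^ p * mon u I, ?_⟩).symm
    rw [← h.sum_dlog (dK _), ← Finset.sum_add_distrib]
    exact (h.sum_dlog ω).symm.trans (Finset.sum_congr rfl fun j _ => by rw [← add_smul, ← key])
  exact ⟨_, h.mem_of_gam (G ▸ mq_mem hω), G⟩

theorem PB.qc_ex {A : Subring F} : QC (frobenius F p) A (OmS A ⊓ Ex F) fun O => OmS O ⊓ Ex F := by
  refine ⟨fun a ha w hw => ⟨OmS_smul (pow_mem ha p) hw.1, Ex_smul a hw.2⟩,
    fun O hO w => ⟨fun hw => ?_, fun ⟨s, hs, hu, hw⟩ => ?_⟩⟩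
  · obtain ⟨s, hs, hu, e⟩ := ((qc_om A).loc O hO w).1 hw.1
    refine ⟨s, hs, hu, ?_, Ex_smul s hw.2⟩
    rw [frobenius_def, pb5_pow, mul_smul]
    exact OmS_smul (pow_mem hs _) e
  · have e : w = s⁻¹ ^ p • frobenius F p s • w := by
      rw [frobenius_def, smul_smul, ← mul_pow, inv_mul_cancel₀ hu.2.1, one_pow, one_smul]
    rw [e]
    exact ⟨OmS_smul (pow_mem hu.2.2 p) (OmS_mono hO.le hw.1), Ex_smul _ hw.2⟩

/-- on a smooth affine ring: locally `g = a + b ^ p`; use `mem_of_loc` with `μ = frobenius` and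
`M` = the image of `A` under `dK` -/
theorem Sm.exists_d {m : ℕ} {A : Subring F} (h : Sm p m A) (hg : dK g ∈ OmS A) :
    ∃ a ∈ A, dK a = dK g := by
  refine mem_of_loc (A := A) (μ := frobenius F p)
    (M := A.toAddSubgroup.map (dK (A := F)).toLinearMap.toAddMonoidHom) ?_ fun O hO => ?_
  · rintro a ha _ ⟨b, hb, rfl⟩
    exact ⟨a ^ p * b, A.mul_mem (pow_mem ha p) hb, d_pow_p_mul a b⟩
  · obtain ⟨u, hu⟩ := h.pb O hO
    obtain ⟨a, ha, e⟩ := hu.exists_d (OmS_mono hO.le hg)
    obtain ⟨s, hs, h1, h2⟩ := hO.frac a ha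
    refine ⟨s, hs, h1, s ^ p * a, ?_, e ▸ d_pow_p_mul s a⟩
    rw [pb5_pow, mul_assoc]
    exact A.mul_mem (pow_mem hs _) h2

theorem Sm.mem_of_pow {m : ℕ} {A : Subring F} (h : Sm p m A) (ha : a ^ p ∈ A) : a ∈ A := 
  (qc_ring A).glob.2 fun O hO => (h.pb O hO).elim fun _ hu => hu.mem_of_pow (hO.le ha)

end Pool.Agent.ZFd
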