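import Pool.Agent.Lib.MP_751085_ag.ZF.D.Rd
import Pool.Agent.Lib.MP_751085_ag.ZF.D.PB3
import Pool.Agent.Lib.MP_751085_ag.ZF.D.PB5

/-! Smooth divisors. -/

namespace Pool.Agent.ZFd

open scoped Classical

variable {F F' : Type} [Field F] [Field F'] {p m : ℕ} [Fact p.Prime] [CharP F p] [CharP F' p]
  {R A O : Subring F} {a b e h : F} {ω : Om F} {ρ : Rd p R F'}

theorem Pr.im_top (H : Pr m ρ A e) : ρ.im R = ⊤ := by
  refine eq_top_iff.2 fun z _ => ?_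
  obtain ⟨s, hs, h0, hz⟩ := H.smY.frac z
  obtain ⟨a, ha, rfl⟩ := (ρ.mem_im H.loc.le).1 hs
  obtain ⟨b, hb, e1⟩ := (ρ.mem_im H.loc.le).1 hz
  have hu := H.un a (H.loc.le ha) h0
  refine (ρ.mem_im le_rfl).2 ⟨b / a, hu.div_mem (H.loc.le hb), ?_⟩
  rw [ρ.div (H.loc.le hb) hu, e1, mul_div_cancel_left₀ _ h0]

theorem Pr.nu_iff (H : Pr m ρ A e) (ha : a ∈ R) : ρ.r a = 0 ↔ ¬Un R a :=
  ⟨fun h hu => (ρ.inv hu).1 h, fun h => by_contra fun h0 => h (H.un a ha h0)⟩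

omit [Fact p.Prime] [CharP F p] [CharP F' p] in
theorem pr_e (H : Pr m ρ A e) : ρ.r e = 0 :=
  (H.ker e H.mem).2 (by rw [div_self H.ne]; exact A.one_mem)

omit [Fact p.Prime] [CharP F p] [CharP F' p] in
theorem pr_ker (H : Pr m ρ A e) (h1 : A ≤ O) (h2 : O ≤ R)
    (hf : ∀ z ∈ O, ∃ s ∈ A, Un O s ∧ s * z ∈ A) (ha : a ∈ O) : ρ.r a = 0 ↔ a / e ∈ O := by
  constructor
  · intro h0
    obtain ⟨s, hs, hu, hz⟩ := hf a ha
    have h3 := (H.ker _ hz).1 (by rw [ρ.mul s (h2 (h1 hs)) a (h2 ha), h0, mul_zero])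
    rw [mul_div_assoc] at h3
    exact hu.mul_mem_iff.1 (h1 h3)
  · intro h0
    rw [← mul_div_cancel₀ a H.ne, ρ.mul e (H.loc.le H.mem) _ (h2 h0), pr_e H, zero_mul]

theorem Pr.dv (H : Pr m ρ A e) : Dv R e := by
  have := (H.sm.reg H.loc).1.noeth
  exact dv_of_noeth H.loc.self (H.loc.le H.mem) H.ne fun a ha =>
    (H.nu_iff ha).symm.trans (pr_ker H H.loc.le le_rfl H.loc.frac ha)

theorem Pr.away (H : Pr m ρ A e) (hh : h ∈ A) (hu : Un R h) : Pr m ρ (away A h) e := by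
  have h0 := hu.2.1
  have hl := (isLoc_away hh h0).2 ⟨H.loc, hu⟩
  refine ⟨H.sm.away hh h0, ?_, hl, le_away A h H.mem, H.ne, fun a ha =>
    pr_ker H (le_away A h) hl.le (fun z hz => ?_) ha, H.un⟩
  · rw [ρ.im_away H.loc.le hh hu]
    exact H.smY.away ((ρ.mem_im H.loc.le).2 ⟨h, hh, rfl⟩) (ρ.inv hu).1
  · obtain ⟨N, hN⟩ := (mem_away hh h0).1 hz
    exact ⟨h ^ N, A.pow_mem hh N, (un_away hh h0).pow N, hN⟩

theorem Pr.of_un (H : Pr m ρ A e) {e' : F} (hu : Un A (e / e')) : Pr m ρ A e' := by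
  have h0 : e' ≠ 0 := fun h => hu.2.1 (by rw [h, div_zero])
  refine ⟨H.sm, H.smY, H.loc, ?_, h0, fun a ha => (H.ker a ha).trans ?_, H.un⟩
  · have := hu.div_mem H.mem
    rwa [div_div_cancel₀ H.ne] at this
  · rw [← hu.mul_mem_iff, mul_comm, div_mul_div_cancel₀ H.ne]

theorem pr_un (h2 : O ≤ R) (hu : Un O a) : Un (ρ.im O) (ρ.r a) :=
  ⟨(ρ.mem_im h2).2 ⟨a, hu.1, rfl⟩, (ρ.inv (hu.mono h2)).1,
    (ρ.mem_im h2).2 ⟨a⁻¹, hu.2.2, (ρ.inv (hu.mono h2)).2⟩⟩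

/-- the points of the divisor -/
theorem Pr.down (H : Pr m ρ A e) (hO : IsLoc A O) (he : ¬Un O e) :
    IsLoc O R ∧ IsLoc (ρ.im A) (ρ.im O) ∧ ∀ a ∈ O, ρ.r a = 0 ↔ a / e ∈ O := by
  have h1 : IsLoc O R := hO.of_un H.loc fun a ha hu => H.un a (H.loc.le ha) fun h0 => by
    rw [← mul_div_cancel₀ a H.ne] at hu
    exact he (hu.left (hO.le H.mem) (hO.le ((H.ker a ha).1 h0)))
  refine ⟨h1, ⟨fun z hz => ?_, fun z hz => ?_, fun z hz => ?_⟩,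
    fun a ha => pr_ker H hO.le h1.le hO.frac ha⟩
  · obtain ⟨a, ha, rfl⟩ := (ρ.mem_im H.loc.le).1 hz
    exact (ρ.mem_im h1.le).2 ⟨a, hO.le ha, rfl⟩
  · obtain ⟨a, ha, rfl⟩ := (ρ.mem_im h1.le).1 hz
    refine (hO.loc a ha).imp (pr_un h1.le) fun hu => ?_
    rw [← ρ.one, ← map_sub]
    exact pr_un h1.le hu
  · obtain ⟨a, ha, rfl⟩ := (ρ.mem_im h1.le).1 hz
    obtain ⟨s, hs, hu, hz⟩ := hO.frac a ha
    exact ⟨ρ.r s, (ρ.mem_im H.loc.le).2 ⟨s, hs, rfl⟩, pr_un h1.le hu,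
      (ρ.mem_im H.loc.le).2 ⟨_, hz, ρ.mul s (H.loc.le hs) a (h1.le ha)⟩⟩

theorem Pr.up (H : Pr m ρ A e) {O' : Subring F'} (hO : IsLoc (ρ.im A) O') :
    ∃ O, IsLoc A O ∧ ¬Un O e ∧ ρ.im O = O' := by
  obtain ⟨𝔭, hp, h𝔭⟩ := hO.prime
  let φ : A →+* ρ.im A := (ρ.hom.comp (Subring.inclusion H.loc.le)).codRestrict _
    fun a => (ρ.mem_im H.loc.le).2 ⟨a, a.2, rfl⟩
  obtain ⟨O, h1, h2⟩ := exists_loc (𝔭.comap φ)
  have h3 : ∀ a ∈ A, Un O a ↔ Un O' (ρ.r a) := fun a ha =>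
    (h2 ⟨a, ha⟩).trans (h𝔭 (φ ⟨a, ha⟩)).symm
  have he : ¬Un O e := fun hu => ((h3 e H.mem).1 hu).2.1 (pr_e H)
  obtain ⟨d1, d2, d3⟩ := H.down h1 he
  refine ⟨O, h1, he, d2.ext hO fun z hz => ?_⟩
  obtain ⟨a, ha, rfl⟩ := (ρ.mem_im H.loc.le).1 hz
  rw [← h3 a ha]
  refine ⟨fun hu => ?_, pr_un d1.le⟩
  obtain ⟨b, hb, e1⟩ := (ρ.mem_im d1.le).1 hu.2.2
  have hab := O.mul_mem (h1.le ha) hb
  refine ((h1.loc _ hab).resolve_right fun h4 => ?_).left (h1.le ha) hb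
  have h5 := (d3 _ h4.1).1 (by
    rw [map_sub, ρ.one, ρ.mul a (H.loc.le ha) b (d1.le hb), e1, mul_inv_cancel₀ hu.2.1, sub_self])
  rw [← mul_div_cancel₀ (1 - a * b) H.ne] at h4
  exact he (h4.left (h1.le H.mem) h5)

end Pool.Agent.ZFd
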