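import Pool.Agent.Lib.MP_751085_ag.ZF.D.Defs

/-! Jacobson's formula. -/

namespace Pool.Agent.ZFd

variable {A : Type} [CommRing A] {p : ℕ} [Fact p.Prime] [CharP A p]

theorem jac_ad {R : Type} [Ring R] (hp : ∀ z : R, p • z = 0) (T y : R) :
    (fun y => T * y - y * T)^[p] y = T ^ p * y - y * T ^ p := by
  have hc : Commute (LinearMap.mulLeft ℤ T - LinearMap.mulRight ℤ T) (LinearMap.mulRight ℤ T) :=
    (LinearMap.commute_mulLeft_right T T).sub_left (Commute.refl _)
  obtain ⟨r, hr⟩ := hc.exists_add_pow_prime_eq (Fact.out : p.Prime)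
  rw [sub_add_cancel, LinearMap.pow_mulLeft, LinearMap.pow_mulRight, mul_assoc, mul_assoc,
    ← nsmul_eq_mul] at hr
  have h := LinearMap.congr_fun hr y
  rw [LinearMap.add_apply, LinearMap.add_apply, LinearMap.smul_apply, hp, add_zero,
    Module.End.pow_apply] at h
  exact eq_sub_of_add_eq h.symm

section
variable {V : Type} [AddCommGroup V] [Module A V]

/-- multiplication by a scalar -/
def jac_L (V : Type) [AddCommGroup V] [Module A V] (b : A) : Module.End ℤ V :=
  (DistribSMul.toAddMonoidHom V b).toIntLinearMap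

omit [Fact p.Prime] in
theorem jac_p (A : Type) [CommRing A] [CharP A p] [Module A V] (z : Module.End ℤ V) :
    p • z = 0 := by
  ext v
  rw [LinearMap.smul_apply, ← Nat.cast_smul_eq_nsmul A, CharP.cast_eq_zero, zero_smul]
  rfl

omit [Fact p.Prime] [CharP A p] in
theorem jac_it (D : Derivation ℤ A A) {X : Module.End ℤ V}
    (hX : ∀ (b : A) v, X (b • v) = b • X v + D b • v) (n : ℕ) (b : A) :
    (fun y => X * y - y * X)^[n] (jac_L V b) = jac_L V ((fun x => D x)^[n] b) := by
  induction n generalizing b with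
  | zero => rfl
  | succ n ih =>
    rw [Function.iterate_succ_apply, Function.iterate_succ_apply, ← ih]
    congr 1
    ext v
    exact sub_eq_of_eq_add' (hX b v)

end

/-- `D + t a` on sequences of coefficients -/
def jac_X (D : Derivation ℤ A A) (a : A) : Module.End ℤ (ℕ → A) where
  toFun f j := D (f j) + a * Nat.rec 0 (fun i _ => f i) j
  map_add' f g := by
    ext j
    cases j <;> simp [mul_add, add_add_add_comm]
  map_smul' c f := by
    ext j
    cases j <;> simp [mul_left_comm]

/-- minus the derivative in `t` -/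
def jac_d (A : Type) [CommRing A] : Module.End ℤ (ℕ → A) where
  toFun f j := -(((j + 1 : ℕ) : A) * f (j + 1))
  map_add' f g := by
    ext j
    simp [mul_add, add_comm]
  map_smul' c f := by
    ext j
    simp [mul_left_comm]

theorem jac_one (D : Derivation ℤ A A) (a : A) :
    (fun x => D x + a * x)^[p] 1 = a ^ p + (fun x => D x)^[p - 1] a := by
  have hp : p.Prime := Fact.out
  have e0 : ∀ f, jac_X D a f 0 = D (f 0) := fun f => by simp [jac_X]
  have e1 : ∀ f j, jac_X D a f (j + 1) = D (f (j + 1)) + a * f j := fun _ _ => rfl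
  let φ : ℕ → ℕ → A := fun n => (jac_X D a ^ n) (Pi.single 0 1)
  have es : ∀ n, φ (n + 1) = jac_X D a (φ n) := fun n => by
    simp only [φ, pow_succ', Module.End.mul_apply]
  have h1 : ∀ n, (∀ j, n < j → φ n j = 0) ∧ φ n n = a ^ n := by
    intro n
    induction n with
    | zero => exact ⟨fun j hj => Pi.single_eq_of_ne hj.ne' _, by simp [φ]⟩
    | succ n ih =>
      refine ⟨fun j hj => ?_, by rw [es, e1, ih.1 _ n.lt_succ_self, ih.2, map_zero]; ring⟩
      obtain ⟨j, rfl⟩ := Nat.exists_eq_succ_of_ne_zero (Nat.ne_zero_of_lt hj)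
      rw [es, e1, ih.1 _ (by omega), ih.1 _ (by omega), map_zero, mul_zero, add_zero]
  have h2 : ∀ n, φ (n + 1) 0 = 0 := by
    intro n
    induction n with
    | zero => rw [es, e0]; simp [φ]
    | succ n ih => rw [es, e0, ih, map_zero]
  have h3 : ∀ n ≤ p, ∑ j ∈ Finset.range (p + 1), φ n j = (fun x => D x + a * x)^[n] 1 := by
    intro n hn
    induction n with
    | zero => simp [φ, Pi.single_apply]
    | succ n ih =>
      rw [Function.iterate_succ_apply', ← ih (by omega), es, Finset.sum_range_succ', map_sum,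
        Finset.sum_range_succ' fun j => D (φ n j), Finset.sum_range_succ (φ n), (h1 n).1 p hn, e0,
        add_zero, Finset.mul_sum]
      simp only [e1, Finset.sum_add_distrib]
      ring
  have h4 : jac_X D a * jac_d A - jac_d A * jac_X D a = jac_L (ℕ → A) a := by
    ext f j
    cases j <;> simp [jac_X, jac_d, jac_L] <;> ring
  have h5 := jac_ad (jac_p (p := p) A) (jac_X D a) (jac_d A)
  obtain ⟨q, rfl⟩ := Nat.exists_eq_succ_of_ne_zero hp.ne_zero
  rw [Function.iterate_succ_apply, h4, jac_it D fun b v => by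
    ext j
    cases j <;> simp [jac_X] <;> ring] at h5
  have h6 : ∀ j, ((j + 1 : ℕ) : A) * φ (q + 1) (j + 1) =
      (fun x => D x)^[q] a * (Pi.single 0 1 : ℕ → A) j := fun j => by
    have h6 := congrFun (LinearMap.congr_fun h5 (Pi.single 0 1)) j
    have h7 : jac_d A (Pi.single 0 1) = 0 := by
      ext j
      simp [jac_d]
    rw [LinearMap.sub_apply, Module.End.mul_apply, h7, map_zero, zero_sub] at h6
    exact ((neg_neg _).symm.trans h6.symm)
  have h7 : ∀ j ∈ Finset.range (q + 1 + 1), φ (q + 1) j =
      (if j = q + 1 then a ^ (q + 1) else 0) + if j = 1 then (fun x => D x)^[q] a else 0 := by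
    intro j hj
    have h8 := hp.two_le
    rcases j with _ | _ | j
    · simp [h2]
    · rw [if_neg (by omega), if_pos rfl, zero_add]
      simpa using h6 0
    · rw [if_neg (show j + 1 + 1 ≠ 1 by omega), add_zero]
      split_ifs with h9
      · rw [h9, (h1 _).2]
      · have h10 := h6 (j + 1)
        rw [Pi.single_eq_of_ne (by omega), mul_zero] at h10
        refine ((CharP.isUnit_natCast_iff hp).2 fun h11 => ?_).mul_right_eq_zero.1 h10
        have := Nat.le_of_dvd (by omega) h11
        have := Finset.mem_range.1 hj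
        omega
  have h8 := hp.two_le
  rw [← h3 _ le_rfl, Finset.sum_congr rfl h7, Finset.sum_add_distrib, Finset.sum_ite_eq',
    Finset.sum_ite_eq', if_pos (by simp), if_pos (Finset.mem_range.2 (by omega))]
  rfl

/-- `(D + a) ^ p = D ^ p + a ^ p + D ^ (p - 1) a`. -/
theorem jacobson (D : Derivation ℤ A A) (a x : A) :
    (fun x => D x + a * x)^[p] x = (fun x => D x)^[p] x + (a ^ p + (fun x => D x)^[p - 1] a) * x := by
  let T : Module.End ℤ A := D.toLinearMap + jac_L A a
  have h1 := jac_ad (jac_p (p := p) A) T (jac_L A x)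
  rw [jac_it D fun b v => by
    show D (b * v) + a * (b * v) = b * (D v + a * v) + D b * v
    rw [D.leibniz, smul_eq_mul, smul_eq_mul]; ring] at h1
  have h2 : ∀ y, (T ^ p) y = (fun x => D x + a * x)^[p] y := fun y => Module.End.pow_apply T p y
  have h3 : (fun x => D x)^[p] x * 1 = (T ^ p) (x * 1) - x * (T ^ p) 1 := LinearMap.congr_fun h1 1
  rw [mul_one, mul_one, h2, h2, jac_one] at h3
  rw [h3]; ring

end Pool.Agent.ZFd
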