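import Pool.Agent.Lib.MP_751085_ag.ZF.D.PB5
import Pool.Agent.Lib.MP_751085_ag.ZF.D.Jac

/-! Cartier's theorem. -/

namespace Pool.Agent.ZFd

open scoped Classical

variable {F : Type} [Field F] {p : ℕ} [Fact p.Prime] [CharP F p] {ι : Type} [Fintype ι]
  {O : Subring F} {u : ι → F} {θ : Om F}

open Polynomial in
theorem car_eig {K V : Type} [Field K] [AddCommGroup V] [Module K V] (T : Module.End K V)
    (S : Submodule K V) (hS : ∀ x ∈ S, T x ∈ S) (m : Multiset K) :
    ∀ x ∈ S, x ≠ 0 → aeval T (m.map fun c => X - C c).prod x = 0 →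
      ∃ y ∈ S, y ≠ 0 ∧ ∃ c : K, T y = c • y := by
  induction m using Multiset.induction_on with
  | empty => exact fun x _ h0 h => absurd (by simpa using h) h0
  | cons c m ih =>
    intro x hx h0 h
    by_cases e : T x - c • x = 0
    · exact ⟨x, hx, h0, c, sub_eq_zero.1 e⟩
    refine ih _ (S.sub_mem (hS x hx) (S.smul_mem c hx)) e ?_
    rw [Multiset.map_cons, Multiset.prod_cons, mul_comm, map_mul, Module.End.mul_apply] at h
    simpa [Module.algebraMap_end_apply] using h

open Polynomial in
theorem car_common {V : Type} [AddCommGroup V] [Module (ZMod p) V] [Nontrivial V]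
    (T : ι → Module.End (ZMod p) V) (hc : ∀ i j x, T i (T j x) = T j (T i x))
    (hp : ∀ i, T i ^ p = T i) : ∃ f, f ≠ 0 ∧ ∃ c : ι → ZMod p, ∀ i, T i f = c i • f := by
  have h1 : 1 < p := (Fact.out : p.Prime).one_lt
  have hP : ((Finset.univ : Finset (ZMod p)).val.map fun c => X - C c).prod = X ^ p - X := by
    have hr := FiniteField.roots_X_pow_card_sub_X (ZMod p)
    rw [ZMod.card] at hr
    rw [← hr]
    refine prod_multiset_X_sub_C_of_monic_of_roots_card_eq
      (monic_X_pow_sub (by rw [degree_X]; exact_mod_cast h1)) ?_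
    rw [hr, FiniteField.X_pow_card_sub_X_natDegree_eq _ h1, Finset.card_val, Finset.card_univ,
      ZMod.card]
  suffices ∀ s : Finset ι, ∃ f, f ≠ 0 ∧ ∃ c : ι → ZMod p, ∀ i ∈ s, T i f = c i • f by
    obtain ⟨f, h0, c, h⟩ := this Finset.univ
    exact ⟨f, h0, c, fun i => h i (Finset.mem_univ i)⟩
  intro s
  induction s using Finset.induction_on with
  | empty =>
    obtain ⟨f, hf⟩ := exists_ne (0 : V)
    exact ⟨f, hf, 0, by simp⟩
  | insert j s hj ih =>
    obtain ⟨f, h0, c, h⟩ := ih
    let S : Submodule (ZMod p) V :=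
      { carrier := {y | ∀ i ∈ s, T i y = c i • y}
        add_mem' := fun ha hb i hi => by rw [map_add, ha i hi, hb i hi, smul_add]
        zero_mem' := fun i _ => by simp
        smul_mem' := fun a _ hb i hi => by rw [map_smul, hb i hi, smul_comm] }
    obtain ⟨y, hy, y0, d, hd⟩ := car_eig (T j) S
      (fun x hx i hi => by rw [hc, hx i hi, map_smul]) Finset.univ.val f h h0
      (by rw [hP]; simp [hp])
    refine ⟨y, y0, Function.update c j d, fun i hi => ?_⟩
    rcases Finset.mem_insert.1 hi with rfl | hi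
    · rwa [Function.update_self]
    · rw [Function.update_of_ne (ne_of_mem_of_not_mem hi hj)]
      exact hy i hi

omit [Fact p.Prime] [CharP F p] in
theorem car_co (i : ι) (f : F) : u i * co u i (dlog f) = f⁻¹ * eul u i f := by
  rw [dlog, map_smul, eul_apply, der_apply, smul_eq_mul, mul_left_comm]

/-- Cartier: the kernel of `γ - 1` consists of the logarithmic forms. -/
theorem PB.cartier (h : PB p O u) (H : wp p θ = 0) : ∃ f, f ≠ 0 ∧ θ = dlog f := by
  have H' : gam p θ = mq p θ := sub_eq_zero.1 H
  let : Algebra (ZMod p) F := ZMod.algebra F p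
  let w : ι → F := fun i => u i * co u i θ
  let T : ι → Module.End (ZMod p) F := fun i => AddMonoidHom.toZModLinearMap p
    { toFun := fun x => eul u i x + -w i * x
      map_zero' := by simp
      map_add' := fun x y => by rw [map_add]; ring }
  have hT : ∀ i x, T i x = eul u i x + -w i * x := fun _ _ => rfl
  have hw : ∀ i j, eul u i (w j) = eul u j (w i) := fun i j => by
    by_cases e : i = j
    · rw [e]
    simp only [w, eul_apply, Derivation.leibniz, h.der_u, if_neg e, if_neg (Ne.symm e), smul_eq_mul,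
      h.closed_of H' i j]
    ring
  obtain ⟨f, f0, c, hf⟩ := car_common T
    (fun i j x => by
      simp only [hT, map_add, neg_mul, map_neg, Derivation.leibniz, smul_eq_mul, hw i j,
        h.eul_comm i j]
      ring)
    (fun i => LinearMap.ext fun x => by
      have hn : ∀ (n : ℕ) (y : F),
          (fun x => eul u i x)^[n] (-y) = -(fun x => eul u i x)^[n] y := fun n => by
        induction n with
        | zero => exact fun _ => rfl
        | succ n ih => exact fun y => by rw [Function.iterate_succ_apply, map_neg, ih]; rfl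
      rw [Module.End.pow_apply, show (T i : F → F) = fun x => eul u i x + -w i * x from rfl,
        jacobson, h.eul_iter, hn, neg_pow, neg_one_pow_char, h.cartier_log H' i]
      ring)
  have g0 : ∏ j, u j ^ (c j).val ≠ 0 :=
    Finset.prod_ne_zero_iff.2 fun j _ => pow_ne_zero _ (h.ne j)
  refine ⟨_, div_ne_zero f0 g0, h.ext fun i => mul_left_cancel₀ (h.ne i) ?_⟩
  have e := hf i
  rw [hT, ← ZMod.natCast_zmod_val (c i), Nat.cast_smul_eq_nsmul, nsmul_eq_mul] at e
  rw [dlog_div f0 g0, map_sub, mul_sub, car_co, car_co, h.eul_prod, eq_sub_of_add_eq e]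
  field_simp
  ring

theorem PB.dlog_eq_zero (h : PB p O u) {f : F} (H : dlog f = 0) : ∃ g, f = g ^ p := by
  by_cases f0 : f = 0
  · exact ⟨0, by rw [f0, zero_pow (Fact.out : p.Prime).ne_zero]⟩
  · exact h.eq_pow (by rw [← smul_dlog f0, H, smul_zero])

end Pool.Agent.ZFd
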