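import Pool.Agent.Lib.MP_751085_ag.ZF.D.Defs

/-! Pull-back of forms, the inverse Cartier operator, logarithmic forms. -/

namespace Pool.Agent.ZFd

open scoped Classical

section ring

variable {A B C : Type} [CommRing A] [CommRing B] [CommRing C] {p : ℕ}

theorem pb_smul_d (φ : A →+* B) (a b : A) : pb φ (a • dK b) = φ a • dK (φ b) := by
  rw [pb_smul, pb_d]

theorem pb_comp (φ : A →+* B) (ψ : B →+* C) (ω : Om A) : pb ψ (pb φ ω) = pb (ψ.comp φ) ω := by
  induction ω using om_ind with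
  | h0 => simp only [map_zero]
  | h1 a b => simp only [pb_smul_d, RingHom.comp_apply]
  | h2 x y hx hy => simp only [map_add, hx, hy]

theorem pb_id (ω : Om A) : pb (RingHom.id A) ω = ω := by
  induction ω using om_ind with
  | h0 => exact map_zero _
  | h1 a b => exact pb_smul_d _ a b
  | h2 x y hx hy => rw [map_add, hx, hy]

theorem pbQ_comp (φ : A →+* B) (ψ : B →+* C) (x : Qm p A) :
    pbQ p ψ (pbQ p φ x) = pbQ p (ψ.comp φ) x := by
  obtain ⟨ω, rfl⟩ := mq_surj p x
  exact congrArg (mq p) (pb_comp φ ψ ω)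

theorem pbQ_id (x : Qm p A) : pbQ p (RingHom.id A) x = x := by
  obtain ⟨ω, rfl⟩ := mq_surj p x
  exact congrArg (mq p) (pb_id ω)

theorem mq_d (a : A) : mq p (dK a) = 0 := mq_eq_zero.2 ⟨a, rfl⟩

theorem mq_eq_iff {ω ω' : Om A} : mq p ω = mq p ω' ↔ ∃ a : A, ω = ω' + dK a := by
  rw [← sub_eq_zero, ← map_sub, mq_eq_zero, mem_Ex]
  exact exists_congr fun a => eq_comm.trans sub_eq_iff_eq_add'

theorem kae_chain (v : Fin 2 → A) (r : MvPolynomial (Fin 2) ℤ) :
    dK (MvPolynomial.eval₂Hom (Int.castRingHom A) v r) =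
      ∑ i, MvPolynomial.eval₂Hom (Int.castRingHom A) v (MvPolynomial.pderiv i r) • dK (v i) := by
  induction r using MvPolynomial.induction_on with
  | C a => simp
  | add f g hf hg => simp only [map_add, hf, hg, add_smul, Finset.sum_add_distrib]
  | mul_X f i hf =>
    rw [map_mul, Derivation.leibniz, hf]
    fin_cases i <;> simp [add_smul, smul_smul, mul_comm, add_assoc, add_left_comm]

theorem kae_add (hp : p.Prime) (a b : A) : ∃ c : A, (a + b) ^ (p - 1) • dK (a + b) =
    a ^ (p - 1) • dK a + b ^ (p - 1) • dK b + dK c := by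
  obtain ⟨r, hr⟩ := exists_add_pow_prime_eq hp (MvPolynomial.X 0 : MvPolynomial (Fin 2) ℤ)
    (MvPolynomial.X 1)
  rw [mul_assoc, mul_assoc] at hr
  generalize MvPolynomial.X 0 * (MvPolynomial.X 1 * r) = s at hr
  have h : ∀ i : Fin 2, (MvPolynomial.X 0 + MvPolynomial.X 1) ^ (p - 1) =
      MvPolynomial.X i ^ (p - 1) + MvPolynomial.pderiv i s := fun i => by
    have h1 := congrArg (MvPolynomial.pderiv i) hr
    refine mul_left_cancel₀ (Nat.cast_ne_zero.2 hp.ne_zero) ?_
    fin_cases i <;> simpa [Derivation.leibniz_pow, mul_add] using h1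
  have h0 := congrArg (MvPolynomial.eval₂Hom (Int.castRingHom A) ![a, b]) (h 0)
  have h1 := congrArg (MvPolynomial.eval₂Hom (Int.castRingHom A) ![a, b]) (h 1)
  simp only [map_add, map_pow, MvPolynomial.eval₂Hom_X', Matrix.cons_val_zero,
    Matrix.cons_val_one] at h0 h1
  refine ⟨MvPolynomial.eval₂Hom (Int.castRingHom A) ![a, b] s, ?_⟩
  rw [kae_chain, Fin.sum_univ_two, map_add, smul_add, add_add_add_comm]
  exact congrArg₂ (· + ·) (by rw [h0, add_smul]; rfl) (by rw [h1, add_smul]; rfl)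

theorem kae_pow (hp : p.Prime) (a : A) : a ^ (p - 1) * a = a ^ p := pow_sub_one_mul hp.ne_zero a

variable [Fact p.Prime] [CharP A p] [CharP B p]

theorem d_pow_p (a : A) : dK (a ^ p) = 0 := by
  rw [Derivation.leibniz_pow, ← Nat.cast_smul_eq_nsmul A, CharP.cast_eq_zero A p, zero_smul]

theorem d_pow_p_mul (a b : A) : dK (a ^ p * b) = a ^ p • dK b := by
  rw [Derivation.leibniz, d_pow_p, smul_zero, add_zero]

theorem p_smul_om (ω : Om A) : p • ω = 0 := by
  rw [← Nat.cast_smul_eq_nsmul A, CharP.cast_eq_zero A p, zero_smul]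

theorem p_smul_qm (x : Qm p A) : p • x = 0 := by
  obtain ⟨ω, rfl⟩ := mq_surj p x
  rw [← map_nsmul, p_smul_om, map_zero]

theorem gam_smul_d (a b : A) : gam p (a • dK b) = mq p ((a ^ p * b ^ (p - 1)) • dK b) := by
  have hp : p.Prime := Fact.out
  let δ : Derivation ℤ A (Qm p A) := Derivation.mk'
    (AddMonoidHom.mk' (fun b : A => mq p (b ^ (p - 1) • dK b)) fun a b => by
      obtain ⟨c, hc⟩ := kae_add hp a b
      rw [hc, map_add, mq_d, add_zero, map_add]).toIntLinearMap fun a b => by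
      change mq p _ = mq p (a ^ p • b ^ (p - 1) • dK b) + mq p (b ^ p • a ^ (p - 1) • dK a)
      rw [← map_add, Derivation.leibniz, smul_add, ← kae_pow hp a, ← kae_pow hp b]
      simp only [smul_smul, mul_pow]
      congr 3 <;> ring
  have h : ∃ γ : Om A →+ Qm p A, ∀ a b : A, γ (a • dK b) = mq p ((a ^ p * b ^ (p - 1)) • dK b) :=
    ⟨δ.liftKaehlerDifferential.toAddMonoidHom, fun a b => by
      rw [LinearMap.toAddMonoidHom_coe, map_smul, δ.liftKaehlerDifferential_comp_D, mul_smul]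
      rfl⟩
  rw [gam, dif_pos h]
  exact h.choose_spec a b

theorem gam_smul (a : A) (ω : Om A) : gam p (a • ω) = a • gam p ω := by
  induction ω using om_ind with
  | h0 => simp only [smul_zero, map_zero]
  | h1 b c => rw [smul_smul, gam_smul_d, gam_smul_d, smul_mq, smul_smul, mul_pow, mul_assoc]
  | h2 x y hx hy => simp only [smul_add, map_add, hx, hy]

theorem wp_apply (ω : Om A) : wp p ω = gam p ω - mq p ω := rfl

theorem pbQ_smul (φ : A →+* B) (a : A) (x : Qm p A) : pbQ p φ (a • x) = φ a • pbQ p φ x := by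
  obtain ⟨ω, rfl⟩ := mq_surj p x
  rw [smul_mq, pbQ_mq, pbQ_mq, smul_mq, pb_smul, map_pow]

theorem pbQ_gam (φ : A →+* B) (ω : Om A) : pbQ p φ (gam p ω) = gam p (pb φ ω) := by
  induction ω using om_ind with
  | h0 => simp only [map_zero]
  | h1 a b => rw [gam_smul_d, pbQ_mq, pb_smul_d, pb_smul_d, gam_smul_d, map_mul, map_pow, map_pow]
  | h2 x y hx hy => simp only [map_add, hx, hy]

theorem pbQ_wp (φ : A →+* B) (ω : Om A) : pbQ p φ (wp p ω) = wp p (pb φ ω) := by
  rw [wp_apply, wp_apply, map_sub, pbQ_gam, pbQ_mq]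

end ring

section field

variable {F F' : Type} [Field F] [Field F'] {f g : F}

theorem dlog_one : dlog (1 : F) = 0 := by
  rw [dlog, Derivation.map_one_eq_zero, smul_zero]

theorem dlog_mul (hf : f ≠ 0) (hg : g ≠ 0) : dlog (f * g) = dlog f + dlog g := by
  rw [dlog, dlog, dlog, Derivation.leibniz, smul_add, smul_smul, smul_smul, add_comm, mul_inv,
    inv_mul_cancel_right₀ hg, mul_right_comm, inv_mul_cancel₀ hf, one_mul]

theorem dlog_inv (f : F) : dlog f⁻¹ = -dlog f := by
  rcases eq_or_ne f 0 with rfl | hf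
  · simp [dlog]
  · rw [eq_neg_iff_add_eq_zero, ← dlog_mul (inv_ne_zero hf) hf, inv_mul_cancel₀ hf, dlog_one]

theorem dlog_div (hf : f ≠ 0) (hg : g ≠ 0) : dlog (f / g) = dlog f - dlog g := by
  rw [div_eq_mul_inv, dlog_mul hf (inv_ne_zero hg), dlog_inv, sub_eq_add_neg]

theorem dlog_pow (f : F) (n : ℕ) : dlog (f ^ n) = n • dlog f := by
  induction n with
  | zero => rw [pow_zero, dlog_one, zero_smul]
  | succ n h =>
    rcases eq_or_ne f 0 with rfl | hf
    · simp [dlog]
    · rw [pow_succ, dlog_mul (pow_ne_zero n hf) hf, h, succ_nsmul]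

theorem dlog_prod {ι : Type} (s : Finset ι) {f : ι → F} (h : ∀ i ∈ s, f i ≠ 0) :
    dlog (∏ i ∈ s, f i) = ∑ i ∈ s, dlog (f i) := by
  induction s using Finset.induction_on with
  | empty => exact dlog_one
  | insert i s hi ih =>
    have h1 := fun j hj => h j (Finset.mem_insert_of_mem hj)
    rw [Finset.prod_insert hi, Finset.sum_insert hi,
      dlog_mul (h i (Finset.mem_insert_self i s)) (Finset.prod_ne_zero_iff.2 h1), ih h1]

theorem smul_dlog (hf : f ≠ 0) : f • dlog f = dK f := by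
  rw [dlog, smul_inv_smul₀ hf]

theorem pb_dlog (φ : F →+* F') (f : F) : pb φ (dlog f) = dlog (φ f) := by
  rw [dlog, pb_smul_d, map_inv₀, dlog]

variable {p : ℕ} [Fact p.Prime] [CharP F p]

theorem dlog_pow_p (f : F) : dlog (f ^ p) = 0 := by
  rw [dlog, d_pow_p, smul_zero]

theorem gam_dlog (w f : F) : gam p (w • dlog f) = mq p (w ^ p • dlog f) := by
  rw [dlog, smul_smul, smul_smul, gam_smul_d, mul_pow, mul_assoc]
  rcases eq_or_ne f 0 with rfl | hf
  · simp
  · rw [← kae_pow Fact.out f⁻¹, mul_right_comm, ← mul_pow, inv_mul_cancel₀ hf, one_pow, one_mul]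

theorem wp_smul_dlog (w f : F) : wp p (w • dlog f) = mq p ((w ^ p - w) • dlog f) := by
  rw [wp_apply, gam_dlog, sub_smul, map_sub]

theorem wp_dlog (f : F) : wp p (dlog f) = 0 := by
  rw [← one_smul F (dlog f), wp_smul_dlog, one_pow, sub_self, zero_smul, map_zero]

end field

end Pool.Agent.ZFd
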