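import Pool.Agent.Lib.MP_751085_ag.ZF.D.Defs

/-! Units, local rings and localisations inside a field. -/

namespace Pool.Agent.ZFd

open scoped Classical

variable {F : Type} [Field F] {A O O' : Subring F} {a b h : F}

theorem un_one (O : Subring F) : Un O 1 :=
  ⟨one_mem _, one_ne_zero, by rw [inv_one]; exact one_mem _⟩

theorem Un.mul (ha : Un O a) (hb : Un O b) : Un O (a * b) :=
  ⟨mul_mem ha.1 hb.1, mul_ne_zero ha.2.1 hb.2.1, mul_inv a b ▸ mul_mem ha.2.2 hb.2.2⟩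

theorem Un.inv (ha : Un O a) : Un O a⁻¹ := ⟨ha.2.2, inv_ne_zero ha.2.1, (inv_inv a).symm ▸ ha.1⟩

theorem Un.neg (ha : Un O a) : Un O (-a) :=
  ⟨neg_mem ha.1, neg_ne_zero.2 ha.2.1, (inv_neg (a := a)).symm ▸ neg_mem ha.2.2⟩

theorem Un.div (ha : Un O a) (hb : Un O b) : Un O (a / b) :=
  (div_eq_mul_inv a b).symm ▸ ha.mul hb.inv

theorem Un.pow (ha : Un O a) (n : ℕ) : Un O (a ^ n) :=
  ⟨pow_mem ha.1 n, pow_ne_zero n ha.2.1, inv_pow a n ▸ pow_mem ha.2.2 n⟩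

theorem Un.zpow (ha : Un O a) (n : ℤ) : Un O (a ^ n) := by
  obtain ⟨m, rfl | rfl⟩ := n.eq_nat_or_neg
  · exact (zpow_natCast a m).symm ▸ ha.pow m
  · rw [zpow_neg, zpow_natCast]
    exact (ha.pow m).inv

theorem Un.mono (ha : Un O a) (h : O ≤ O') : Un O' a := ⟨h ha.1, ha.2.1, h ha.2.2⟩

theorem Un.left (h : Un O (a * b)) (ha : a ∈ O) (hb : b ∈ O) : Un O a := by
  refine ⟨ha, left_ne_zero_of_mul h.2.1, ?_⟩
  have e := mul_mem hb h.2.2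
  rwa [mul_inv, mul_left_comm, mul_inv_cancel₀ (right_ne_zero_of_mul h.2.1), mul_one] at e

theorem Un.of_pow {n : ℕ} (h : Un O (a ^ n)) (hn : n ≠ 0) (ha : a ∈ O) : Un O a := by
  obtain ⟨m, rfl⟩ := Nat.exists_eq_succ_of_ne_zero hn
  exact Un.left (pow_succ' a m ▸ h) ha (pow_mem ha m)

theorem un_prod {ι : Type} (s : Finset ι) {f : ι → F} (h : ∀ i ∈ s, Un O (f i)) :
    Un O (∏ i ∈ s, f i) :=
  Finset.prod_induction f (Un O) (fun _ _ => Un.mul) (un_one O) h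

theorem Un.of_prod {ι : Type} {s : Finset ι} {f : ι → F} (h : Un O (∏ i ∈ s, f i))
    (hf : ∀ i ∈ s, f i ∈ O) {i : ι} (hi : i ∈ s) : Un O (f i) := by
  rw [← Finset.mul_prod_erase s f hi] at h
  exact h.left (hf i hi) (prod_mem fun j hj => hf j (Finset.mem_of_mem_erase hj))

theorem Un.div_mem (hb : Un O b) (ha : a ∈ O) : a / b ∈ O :=
  (div_eq_mul_inv a b).symm ▸ mul_mem ha hb.2.2

theorem Un.mul_mem_iff (hb : Un O b) : b * a ∈ O ↔ a ∈ O :=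
  ⟨fun h => inv_mul_cancel_left₀ hb.2.1 a ▸ mul_mem hb.2.2 h, mul_mem hb.1⟩

theorem un_iff (z : O) : Un O z ↔ IsUnit z := by
  refine ⟨fun h => isUnit_iff_exists_inv.2
    ⟨⟨_, h.2.2⟩, Subtype.ext (mul_inv_cancel₀ h.2.1)⟩, fun h => ?_⟩
  obtain ⟨w, hw⟩ := h.exists_right_inv
  have e : (z : F) * w = 1 := congrArg Subtype.val hw
  exact Un.left (e.symm ▸ un_one O) z.2 w.2

theorem un_top : Un (⊤ : Subring F) a ↔ a ≠ 0 := ⟨fun h => h.2.1, fun h => ⟨trivial, h, trivial⟩⟩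

theorem IsLoc.self (h : IsLoc A O) : IsLoc O O :=
  ⟨le_rfl, h.loc, fun z hz => ⟨1, one_mem _, un_one O, (one_mul z).symm ▸ hz⟩⟩

theorem IsLoc.trans (h : IsLoc A O) (h' : IsLoc O O') : IsLoc A O' := by
  refine ⟨h.le.trans h'.le, h'.loc, fun z hz => ?_⟩
  obtain ⟨s, s1, s2, s3⟩ := h'.frac z hz
  obtain ⟨t, t1, t2, t3⟩ := h.frac s s1
  obtain ⟨u, u1, u2, u3⟩ := h.frac _ s3
  refine ⟨u * (t * s), mul_mem u1 t3, (u2.mono h'.le).mul ((t2.mono h'.le).mul s2), ?_⟩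
  rw [show u * (t * s) * z = t * (u * (s * z)) by ring]
  exact mul_mem t1 u3

theorem IsLoc.of_le (h : IsLoc A O') (h1 : A ≤ O) (h2 : O ≤ O') : IsLoc O O' :=
  ⟨h2, h.loc, fun z hz => let ⟨s, s1, s2, s3⟩ := h.frac z hz; ⟨s, h1 s1, s2, h1 s3⟩⟩

theorem IsLoc.isLocalRing (h : IsLoc A O) : IsLocalRing O :=
  .of_isUnit_or_isUnit_one_sub_self fun z => (h.loc z z.2).imp (un_iff z).1 (un_iff (1 - z)).1

theorem IsLoc.nu_add (h : IsLoc A O) (ha : a ∈ O) (hb : b ∈ O) (ha' : ¬Un O a) (hb' : ¬Un O b) :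
    ¬Un O (a + b) := by
  intro hu
  rcases h.loc _ (hu.div_mem ha) with e | e
  · exact ha' (div_mul_cancel₀ a hu.2.1 ▸ e.mul hu)
  · have e' := e.mul hu
    rw [sub_mul, div_mul_cancel₀ a hu.2.1, one_mul, add_sub_cancel_left] at e'
    exact hb' e'

theorem IsLoc.un_add (h : IsLoc A O) (ha : Un O a) (hb : b ∈ O) (hb' : ¬Un O b) :
    Un O (a + b) := by
  by_contra hu
  exact h.nu_add (add_mem ha.1 hb) (neg_mem hb) hu (fun e => hb' (neg_neg b ▸ e.neg))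
    ((add_neg_cancel_right a b).symm ▸ ha)

theorem IsLoc.exists_un {ι : Type} (h : IsLoc A O) {s : Finset ι} {f : ι → F}
    (hf : ∀ i ∈ s, f i ∈ O) (hs : Un O (∑ i ∈ s, f i)) : ∃ i ∈ s, Un O (f i) := by
  by_contra hn
  exact (Finset.sum_induction f (fun x => x ∈ O ∧ ¬Un O x)
    (fun _ _ u v => ⟨add_mem u.1 v.1, h.nu_add u.1 v.1 u.2 v.2⟩)
    ⟨zero_mem _, fun e => e.2.1 rfl⟩ fun i hi => ⟨hf i hi, fun e => hn ⟨i, hi, e⟩⟩).2 hs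

theorem exists_loc (𝔭 : Ideal A) [𝔭.IsPrime] : ∃ O, IsLoc A O ∧ ∀ a : A, Un O a ↔ a ∉ 𝔭 := by
  have hp : 𝔭.IsPrime := inferInstance
  have h1 : (1 : A) ∉ 𝔭 := 𝔭.ne_top_iff_one.1 hp.ne_top
  have hm : ∀ {s t : A}, s ∉ 𝔭 → t ∉ 𝔭 → s * t ∉ 𝔭 := fun hs ht e => (hp.mem_or_mem e).elim hs ht
  let O : Subring F :=
    { carrier := {z | ∃ s : A, s ∉ 𝔭 ∧ (s : F) * z ∈ A}
      mul_mem' := fun {x y} ⟨s, s1, s2⟩ ⟨t, t1, t2⟩ => ⟨s * t, hm s1 t1, by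
        rw [Subring.coe_mul, mul_mul_mul_comm]
        exact mul_mem s2 t2⟩
      one_mem' := ⟨1, h1, mul_mem (1 : A).2 (one_mem A)⟩
      add_mem' := fun {x y} ⟨s, s1, s2⟩ ⟨t, t1, t2⟩ => ⟨s * t, hm s1 t1, by
        rw [Subring.coe_mul, show (s : F) * t * (x + y) = t * (s * x) + s * (t * y) by ring]
        exact add_mem (mul_mem t.2 s2) (mul_mem s.2 t2)⟩
      zero_mem' := ⟨1, h1, mul_mem (1 : A).2 (zero_mem A)⟩
      neg_mem' := fun {x} ⟨s, s1, s2⟩ => ⟨s, s1, (mul_neg (s : F) x).symm ▸ neg_mem s2⟩ }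
  have hle : A ≤ O := fun z hz => ⟨1, h1, mul_mem (1 : A).2 hz⟩
  have hu : ∀ a : A, Un O a ↔ a ∉ 𝔭 := fun a => by
    refine ⟨fun ⟨_, a0, s, s1, s2⟩ e => s1 ?_, fun e => ?_⟩
    · have e' : s = ⟨_, s2⟩ * a := Subtype.ext (inv_mul_cancel_right₀ a0 (s : F)).symm
      exact e' ▸ 𝔭.mul_mem_left _ e
    · have a0 : (a : F) ≠ 0 := fun e' => e ((Subtype.ext e' : a = 0) ▸ 𝔭.zero_mem)
      exact ⟨hle a.2, a0, a, e, (mul_inv_cancel₀ a0).symm ▸ one_mem A⟩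
  refine ⟨O, ⟨hle, fun z ⟨s, s1, s2⟩ => ?_, fun z ⟨s, s1, s2⟩ => ⟨s, s.2, (hu s).2 s1, s2⟩⟩, hu⟩
  have hs := (hu s).2 s1
  by_cases e : (⟨_, s2⟩ : A) ∈ 𝔭
  · have e' := hs.inv.mul ((hu (s - ⟨_, s2⟩)).2 fun e' => s1 (by simpa using 𝔭.add_mem e' e))
    refine .inr ((?_ : _ = 1 - z) ▸ e')
    change (s : F)⁻¹ * (s - s * z) = 1 - z
    rw [mul_sub, inv_mul_cancel₀ hs.2.1, inv_mul_cancel_left₀ hs.2.1]
  · exact .inl (inv_mul_cancel_left₀ hs.2.1 z ▸ hs.inv.mul ((hu ⟨_, s2⟩).2 e))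

theorem IsLoc.prime (h : IsLoc A O) : ∃ 𝔭 : Ideal A, 𝔭.IsPrime ∧ ∀ a : A, Un O a ↔ a ∉ 𝔭 := by
  have := h.isLocalRing
  refine ⟨(IsLocalRing.maximalIdeal O).comap (Subring.inclusion h.le), inferInstance, fun a => ?_⟩
  rw [Ideal.mem_comap, IsLocalRing.mem_maximalIdeal, mem_nonunits_iff, not_not]
  exact un_iff (Subring.inclusion h.le a)

theorem IsLoc.of_un (h : IsLoc A O) (h' : IsLoc A O') (e : ∀ a ∈ A, Un O a → Un O' a) :
    IsLoc O O' :=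
  h'.of_le h.le fun z hz =>
    let ⟨s, s1, s2, s3⟩ := h.frac z hz
    (e s s1 s2).mul_mem_iff.1 (h'.le s3)

theorem IsLoc.ext (h : IsLoc A O) (h' : IsLoc A O') (e : ∀ a ∈ A, Un O a ↔ Un O' a) : O = O' :=
  le_antisymm (h.of_un h' fun a ha => (e a ha).1).le (h'.of_un h fun a ha => (e a ha).2).le

theorem IsLoc.exists_max (h : IsLoc A O) : ∃ (O₀ : Subring F) (𝔪 : Ideal A), 𝔪.IsMaximal ∧
    IsLoc A O₀ ∧ (∀ a : A, Un O₀ a ↔ a ∉ 𝔪) ∧ IsLoc O₀ O := by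
  obtain ⟨𝔭, p1, p2⟩ := h.prime
  obtain ⟨𝔪, m1, m2⟩ := 𝔭.exists_le_maximal p1.ne_top
  have := m1.isPrime
  obtain ⟨O₀, h1, h2⟩ := exists_loc 𝔪
  exact ⟨O₀, 𝔪, m1, h1, h2, h1.of_un h fun a ha e =>
    (p2 ⟨a, ha⟩).2 fun e' => (h2 ⟨a, ha⟩).1 e (m2 e')⟩

theorem isLoc_top (hA : ∀ z : F, ∃ s ∈ A, s ≠ 0 ∧ s * z ∈ A) : IsLoc A ⊤ := by
  refine ⟨le_top, fun z _ => ?_, fun z _ => ?_⟩
  · by_cases e : z = 0
    · exact .inr (by rw [e, sub_zero]; exact un_one _)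
    · exact .inl (un_top.2 e)
  · obtain ⟨s, s1, s2, s3⟩ := hA z
    exact ⟨s, s1, un_top.2 s2, s3⟩

/-- a common denominator -/
theorem IsLoc.common {ι : Type} [Finite ι] (h : IsLoc A O) {z : ι → F} (hz : ∀ i, z i ∈ O) :
    ∃ s ∈ A, Un O s ∧ ∀ i, s * z i ∈ A := by
  have := Fintype.ofFinite ι
  choose s s1 s2 s3 using fun i => h.frac _ (hz i)
  refine ⟨∏ i, s i, prod_mem fun i _ => s1 i, un_prod _ fun i _ => s2 i, fun i => ?_⟩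
  rw [← Finset.prod_erase_mul _ s (Finset.mem_univ i), mul_assoc]
  exact mul_mem (prod_mem fun j _ => s1 j) (s3 i)

theorem le_away (A : Subring F) (h : F) : A ≤ away A h :=
  fun _ hx => Subring.subset_closure (Set.mem_insert_of_mem _ hx)

theorem mem_away (hh : h ∈ A) (h0 : h ≠ 0) : a ∈ away A h ↔ ∃ N : ℕ, h ^ N * a ∈ A := by
  refine ⟨fun ha => ?_, fun ⟨N, hN⟩ => ?_⟩
  · induction ha using Subring.closure_induction with
    | mem x hx =>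
      rcases hx with rfl | hx
      · exact ⟨1, by rw [pow_one, mul_inv_cancel₀ h0]; exact one_mem _⟩
      · exact ⟨0, mul_mem (pow_mem hh 0) hx⟩
    | zero => exact ⟨0, mul_mem (pow_mem hh 0) (zero_mem _)⟩
    | one => exact ⟨0, mul_mem (pow_mem hh 0) (one_mem _)⟩
    | add x y _ _ hx hy =>
      obtain ⟨M, hM⟩ := hx
      obtain ⟨N, hN⟩ := hy
      refine ⟨M + N, ?_⟩
      rw [show h ^ (M + N) * (x + y) = h ^ N * (h ^ M * x) + h ^ M * (h ^ N * y) by ring]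
      exact add_mem (mul_mem (pow_mem hh N) hM) (mul_mem (pow_mem hh M) hN)
    | neg x _ hx => exact hx.imp fun N hN => (mul_neg (h ^ N) x).symm ▸ neg_mem hN
    | mul x y _ _ hx hy =>
      obtain ⟨M, hM⟩ := hx
      obtain ⟨N, hN⟩ := hy
      exact ⟨M + N, by rw [pow_add, mul_mul_mul_comm]; exact mul_mem hM hN⟩
  · rw [← inv_mul_cancel_left₀ (pow_ne_zero N h0) a, ← inv_pow]
    exact mul_mem (pow_mem (Subring.subset_closure (Set.mem_insert _ _)) N) (le_away A h hN)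

theorem un_away (hh : h ∈ A) (h0 : h ≠ 0) : Un (away A h) h :=
  ⟨le_away A h hh, h0, Subring.subset_closure (Set.mem_insert _ _)⟩

theorem isLoc_away (hh : h ∈ A) (h0 : h ≠ 0) : IsLoc (away A h) O ↔ IsLoc A O ∧ Un O h := by
  refine ⟨fun H => ?_, fun ⟨H, hu⟩ => H.of_le (le_away A h)
    (Subring.closure_le.2 (Set.insert_subset hu.2.2 H.le))⟩
  have hu := (un_away hh h0).mono H.le
  refine ⟨⟨(le_away A h).trans H.le, H.loc, fun z hz => ?_⟩, hu⟩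
  obtain ⟨s, s1, s2, s3⟩ := H.frac z hz
  obtain ⟨N, hN⟩ := (mem_away hh h0).1 s1
  obtain ⟨M, hM⟩ := (mem_away hh h0).1 s3
  refine ⟨h ^ M * (h ^ N * s), mul_mem (pow_mem hh M) hN, (hu.pow M).mul ((hu.pow N).mul s2), ?_⟩
  rw [show h ^ M * (h ^ N * s) * z = h ^ N * (h ^ M * (s * z)) by ring]
  exact mul_mem (pow_mem hh N) hM

end Pool.Agent.ZFd
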