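import Pool.Agent.Lib.MP_751085_ag.ZF.D.Loc

/-! Smooth rings, discrete valuation rings. -/

namespace Pool.Agent.ZFd

open scoped Classical

variable {F : Type} [Field F] {A O O' : Subring F} {a b h : F}

/-- `O'` is a ring of fractions of `O` -/
theorem essFiniteType_of_frac (h : O ≤ O') (e : ∀ z ∈ O', ∃ s ∈ O, Un O' s ∧ s * z ∈ O)
    (hO : Algebra.EssFiniteType ℤ O) : Algebra.EssFiniteType ℤ O' := by
  let := (Subring.inclusion h).toAlgebra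
  have : Algebra.EssFiniteType O O' := by
    rw [Algebra.essFiniteType_iff]
    refine ⟨∅, fun z => ?_⟩
    obtain ⟨s, h1, h2, h3⟩ := e z z.2
    refine ⟨⟨s, h h1⟩, Subalgebra.algebraMap_mem _ (⟨s, h1⟩ : O), (un_iff _).1 h2, ?_⟩
    rw [mul_comm]
    exact Subalgebra.algebraMap_mem _ (⟨s * z, h3⟩ : O)
  exact Algebra.EssFiniteType.comp ℤ O O'

variable {p m : ℕ}

theorem Sm.noeth (h : Sm p m A) : IsNoetherianRing A :=
  have := h.eft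
  Algebra.EssFiniteType.isNoetherianRing ℤ A

theorem loc2_frac (hA : ∀ z : F, ∃ s ∈ A, s ≠ 0 ∧ s * z ∈ A) (h : A ≤ O) (z : F) :
    ∃ s ∈ O, s ≠ 0 ∧ s * z ∈ O :=
  have ⟨s, h1, h2, h3⟩ := hA z
  ⟨s, h h1, h2, h h3⟩

theorem Sm.reg (h : Sm p m A) (hO : IsLoc A O) : Reg p m O :=
  ⟨⟨essFiniteType_of_frac hO.le hO.frac h.eft, loc2_frac h.frac hO.le,
    fun O' h' => h.pb O' (hO.trans h')⟩, hO.self⟩

theorem Sm.away (hA : Sm p m A) (hh : h ∈ A) (h0 : h ≠ 0) : Sm p m (away A h) :=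
  ⟨essFiniteType_of_frac (le_away A h) (fun _ hz =>
    have ⟨N, hN⟩ := (mem_away hh h0).1 hz
    ⟨h ^ N, A.pow_mem hh N, (un_away hh h0).pow N, hN⟩) hA.eft, loc2_frac hA.frac (le_away A h),
    fun O h' => hA.pb O ((isLoc_away hh h0).1 h').1⟩

theorem Sm.top (h : Sm p m A) : Reg p m (⊤ : Subring F) := h.reg (isLoc_top h.frac)

theorem Reg.pb (h : Reg p m O) : ∃ u : Fin m → F, PB p O u := h.1.pb O h.2

variable {R R' : Subring F} {y y' : F}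

theorem loc2_zpw (h : Dv R y) (hR : ∀ z : F, ∃ s ∈ R, s ≠ 0 ∧ s * z ∈ R) (ha : a ≠ 0) :
    ∃ n : ℤ, Un R (a / y ^ n) := by
  obtain ⟨s, h1, h2, h3⟩ := hR a
  obtain ⟨n, hn⟩ := h.pw s h1 h2
  obtain ⟨k, hk⟩ := h.pw _ h3 (mul_ne_zero h2 ha)
  have h0 := h.ne
  refine ⟨k - n, ?_⟩
  have : a / y ^ ((k : ℤ) - n) = s * a / y ^ k / (s / y ^ n) := by
    rw [zpow_sub₀ h0, zpow_natCast, zpow_natCast]
    field_simp
  rw [this]
  exact hk.div hn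

theorem Dv.mem_or (h : Dv R y) (hR : ∀ z : F, ∃ s ∈ R, s ≠ 0 ∧ s * z ∈ R) (z : F) :
    z ∈ R ∨ z⁻¹ / y ∈ R := by
  by_cases hz : z = 0
  · exact Or.inl (hz ▸ R.zero_mem)
  have h0 := h.ne
  obtain ⟨n | n, hn⟩ := loc2_zpw h hR hz
  · left
    have := R.mul_mem hn.1 (R.pow_mem h.mem n)
    rwa [Int.ofNat_eq_natCast, zpow_natCast, div_mul_cancel₀ _ (pow_ne_zero n h0)] at this
  · right
    have e : z⁻¹ / y = (z / y ^ Int.negSucc n)⁻¹ * y ^ n := by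
      rw [zpow_negSucc]
      field_simp
      ring
    exact e ▸ R.mul_mem hn.2.2 (R.pow_mem h.mem n)

theorem Dv.nu_iff (h : Dv R y) (ha : a ∈ R) : ¬Un R a ↔ a / y ∈ R := by
  have h0 := h.ne
  refine ⟨fun hu => ?_, fun h1 hu => h.nu (Un.left (b := a / y) ?_ h.mem h1)⟩
  · by_cases hz : a = 0
    · simp [hz]
    obtain ⟨_ | n, hn⟩ := h.pw a ha hz
    · exact (hu (by simpa using hn)).elim
    · have e : a / y = a / y ^ (n + 1) * y ^ n := by field_simp; ring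
      exact e ▸ R.mul_mem hn.1 (R.pow_mem h.mem n)
  · rwa [mul_div_cancel₀ _ h0]

theorem Dv.zpw (h : Dv R y) (hR : ∀ z : F, ∃ s ∈ R, s ≠ 0 ∧ s * z ∈ R) (ha : a ≠ 0) :
    ∃ n : ℤ, Un R (a / y ^ n) := loc2_zpw h hR ha

theorem Dv.un_div (h : Dv R y) (h' : Dv R y') : Un R (y / y') :=
  ⟨(h'.nu_iff h.mem).1 h.nu, div_ne_zero h.ne h'.ne, by
    rw [inv_div]
    exact (h.nu_iff h'.mem).1 h'.nu⟩

theorem Dv.of_un (h : Dv R y) (hu : Un R (y / y')) : Dv R y' := by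
  have h0 := h.ne
  have h1 : y' ≠ 0 := fun e => hu.2.1 (by simp [e])
  refine ⟨h.loc, ?_, h1, fun h2 => h.nu ?_, fun z hz hz0 => ?_⟩
  · have := R.mul_mem hu.2.2 h.mem
    rwa [inv_div, div_mul_cancel₀ _ h0] at this
  · have := hu.mul h2
    rwa [div_mul_cancel₀ _ h1] at this
  · obtain ⟨n, hn⟩ := h.pw z hz hz0
    have e : z / y' ^ n = z / y ^ n * (y / y') ^ n := by
      rw [div_pow]
      field_simp
    exact ⟨n, e ▸ hn.mul (hu.pow n)⟩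

/-- a discrete valuation ring is a maximal subring -/
theorem Dv.eq_of_le (h : Dv R y) (hR : ∀ z : F, ∃ s ∈ R, s ≠ 0 ∧ s * z ∈ R) (h' : Dv R' y')
    (hle : R ≤ R') : R = R' := by
  refine le_antisymm hle fun z hz => by_contra fun hc => h'.nu ?_
  have hz0 : z ≠ 0 := fun e => hc (e ▸ R.zero_mem)
  have hy : Un R' y := ⟨hle h.mem, h.ne, by
    have := R'.mul_mem hz (hle ((h.mem_or hR z).resolve_left hc))
    rwa [← mul_div_assoc, mul_inv_cancel₀ hz0, one_div] at this⟩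
  obtain ⟨n, hn⟩ := h.zpw hR h'.ne
  have := (hn.mono hle).mul (hy.zpow n)
  rwa [div_mul_cancel₀ _ (zpow_ne_zero n h.ne)] at this

/-- Krull intersection (or well-foundedness of divisibility) -/
theorem dv_of_noeth [IsNoetherianRing R] (hR : IsLoc R R) (hy : y ∈ R) (h0 : y ≠ 0)
    (hm : ∀ a ∈ R, ¬Un R a ↔ a / y ∈ R) : Dv R y := by
  have hu : ¬Un R y := (hm y hy).2 (by simp [div_self h0])
  refine ⟨hR, hy, h0, hu, fun z hz hz0 => ?_⟩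
  obtain ⟨n, w, hw, e⟩ := WfDvdMonoid.max_power_factor' (a₀ := (⟨z, hz⟩ : R)) (x := ⟨y, hy⟩)
    (fun h => hz0 (congrArg Subtype.val h)) fun h => hu ((un_iff _).2 h)
  have e' : z = y ^ n * w := congrArg Subtype.val e
  refine ⟨n, ?_⟩
  rw [e', mul_div_cancel_left₀ _ (pow_ne_zero n h0)]
  by_contra hc
  exact hw ⟨⟨_, (hm w w.2).1 hc⟩, Subtype.ext (mul_div_cancel₀ _ h0).symm⟩

/-- the primes are minimal over `h` -/
theorem finite_dv [IsNoetherianRing A] (hh : h ∈ A) (h0 : h ≠ 0) :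
    {R : Subring F | IsLoc A R ∧ (∃ y, Dv R y) ∧ ¬Un R h}.Finite := by
  refine ((Ideal.finite_minimalPrimes_of_isNoetherianRing A (Ideal.span {⟨h, hh⟩})).biUnion
    (t := fun 𝔭 => {R | IsLoc A R ∧ ∀ a : A, Un R a ↔ a ∉ 𝔭}) fun 𝔭 _ =>
      Set.Subsingleton.finite fun R h1 R' h2 => h1.1.ext h2.1 fun a ha =>
        (h1.2 ⟨a, ha⟩).trans (h2.2 ⟨a, ha⟩).symm).subset ?_
  rintro R ⟨hR, ⟨y, hy⟩, hu⟩
  obtain ⟨𝔭, h1, h2⟩ := hR.prime
  refine Set.mem_biUnion (x := 𝔭) ⟨⟨h1, (Ideal.span_singleton_le_iff_mem _).2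
    (by_contra fun e => hu ((h2 _).2 e))⟩, fun 𝔮 h𝔮 hle a ha => ?_⟩ ⟨hR, h2⟩
  obtain ⟨n, hn⟩ := hy.pw h (hR.le hh) h0
  have h3 := hn.div_mem (R.pow_mem ((hy.nu_iff (hR.le a.2)).1 fun e => (h2 a).1 e ha) n)
  obtain ⟨s, hs, hs', hc⟩ := hR.frac _ h3
  have h4 : (⟨s, hs⟩ : A) * a ^ n ∈ 𝔮 := by
    have e : (⟨s, hs⟩ : A) * a ^ n = ⟨_, hc⟩ * ⟨h, hh⟩ := Subtype.ext (by
      have := hy.ne
      change s * (a : F) ^ n = s * ((a / y) ^ n / (h / y ^ n)) * h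
      rw [div_pow]
      field_simp)
    exact e ▸ 𝔮.mul_mem_left _ ((Ideal.span_singleton_le_iff_mem _).1 h𝔮.2)
  exact h𝔮.1.mem_of_pow_mem n
    ((h𝔮.1.mem_or_mem h4).resolve_left fun e => (h2 ⟨s, hs⟩).1 hs' (hle e))

end Pool.Agent.ZFd
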