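import Pool.Agent.Lib.MP_751085_ag.ZF.D.Kae
import Pool.Agent.Lib.MP_751085_ag.ZF.D.Loc2

/-! Regular forms; the local-global principle; quasi-coherent systems. -/

namespace Pool.Agent.ZFd

open scoped Classical

variable {F F' : Type} [Field F] [Field F'] {A O O' : Subring F} {a b h : F} {ω : Om F}

theorem smul_d_mem (ha : a ∈ O) (hb : b ∈ O) : a • dK b ∈ OmS O :=
  AddSubgroup.subset_closure ⟨a, ha, b, hb, rfl⟩

theorem d_mem (hb : b ∈ O) : dK b ∈ OmS O := by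
  have := smul_d_mem O.one_mem hb
  rwa [one_smul] at this

theorem OmS_ind {P : Om F → Prop} (h0 : P 0) (h1 : ∀ a ∈ O, ∀ b ∈ O, P (a • dK b))
    (h2 : ∀ x y, x ∈ OmS O → y ∈ OmS O → P x → P y → P (x + y)) (h : ω ∈ OmS O) : P ω := by
  induction h using AddSubgroup.closure_induction'' with
  | mem x hx =>
    obtain ⟨a, ha, b, hb, rfl⟩ := hx
    exact h1 a ha b hb
  | neg_mem x hx =>
    obtain ⟨a, ha, b, hb, rfl⟩ := hx
    rw [← neg_smul]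
    exact h1 _ (O.neg_mem ha) b hb
  | zero => exact h0
  | add x y hx hy px py => exact h2 x y hx hy px py

theorem OmS_smul (ha : a ∈ O) (h : ω ∈ OmS O) : a • ω ∈ OmS O := by
  refine OmS_ind (P := fun ω => a • ω ∈ OmS O) ?_ (fun c hc b hb => ?_) (fun x y _ _ px py => ?_) h
  · rw [smul_zero]
    exact zero_mem _
  · rw [smul_smul]
    exact smul_d_mem (O.mul_mem ha hc) hb
  · rw [smul_add]
    exact add_mem px py

theorem OmS_mono (h : O ≤ O') : OmS O ≤ OmS O' :=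
  AddSubgroup.closure_mono fun _ ⟨a, ha, b, hb, e⟩ => ⟨a, h ha, b, h hb, e⟩

theorem OmS_top (ω : Om F) : ω ∈ OmS (⊤ : Subring F) :=
  om_ind (P := fun ω => ω ∈ OmS (⊤ : Subring F)) (zero_mem _)
    (fun a b => smul_d_mem (Subring.mem_top a) (Subring.mem_top b)) (fun _ _ => add_mem) ω

theorem mem_OmS_range : ω ∈ OmS O ↔ ∃ ω' : Om O, pb O.subtype ω' = ω := by
  constructor
  · intro h
    refine OmS_ind (P := fun ω => ∃ ω' : Om O, pb O.subtype ω' = ω) ⟨0, map_zero _⟩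
      (fun a ha b hb => ⟨(⟨a, ha⟩ : O) • dK (⟨b, hb⟩ : O), pb_smul_d _ _ _⟩) ?_ h
    rintro _ _ _ _ ⟨x, rfl⟩ ⟨y, rfl⟩
    exact ⟨x + y, map_add _ _ _⟩
  · rintro ⟨ω', rfl⟩
    refine om_ind (P := fun ω' => pb O.subtype ω' ∈ OmS O) ?_ (fun a b => ?_) (fun x y px py => ?_)
      ω'
    · rw [map_zero]
      exact zero_mem _
    · rw [pb_smul_d]
      exact smul_d_mem a.2 b.2
    · rw [map_add]
      exact add_mem px py

theorem dlog_mem (ha : Un O a) : dlog a ∈ OmS O := smul_d_mem ha.2.2 ha.1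

theorem pb_mem_OmS (φ : F →+* F') {B : Subring F'} (hφ : ∀ a ∈ O, φ a ∈ B) (h : ω ∈ OmS O) :
    pb φ ω ∈ OmS B := by
  refine OmS_ind (P := fun ω => pb φ ω ∈ OmS B) ?_ (fun c hc b hb => ?_)
    (fun x y _ _ px py => ?_) h
  · rw [map_zero]
    exact zero_mem _
  · rw [pb_smul_d]
    exact smul_d_mem (hφ c hc) (hφ b hb)
  · rw [map_add]
    exact add_mem px py

/-- `KaehlerDifferential.finite` -/
theorem OmS_fg (hA : Algebra.EssFiniteType ℤ A) : ∃ (τ : Type) (_ : Fintype τ) (w : τ → Om F),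
    (∀ t, w t ∈ OmS A) ∧ ∀ ω ∈ OmS A, ∃ c : τ → F, (∀ t, c t ∈ A) ∧ ω = ∑ t, c t • w t := by
  have : Module.Finite A (Om A) := KaehlerDifferential.finite ℤ A
  obtain ⟨n, s, hs⟩ := Module.Finite.exists_fin (R := A) (M := Om A)
  refine ⟨Fin n, inferInstance, fun t => pb A.subtype (s t),
    fun t => mem_OmS_range.2 ⟨_, rfl⟩, fun ω hω => ?_⟩
  obtain ⟨ω', rfl⟩ := mem_OmS_range.1 hω
  have hm : ω' ∈ Submodule.span A (Set.range s) := by
    rw [hs]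
    trivial
  obtain ⟨c, rfl⟩ := (Submodule.mem_span_range_iff_exists_fun A).1 hm
  refine ⟨fun t => c t, fun t => (c t).2, ?_⟩
  rw [map_sum]
  exact Finset.sum_congr rfl fun t _ => pb_smul _ _ _

section

variable {W : Type} [AddCommGroup W] [Module F W] {μ : F →+* F} {M : AddSubgroup W}
  {S S' : Subring F → AddSubgroup W} {w : W}

/-- the ideal of the `s` with `μ s • w ∈ M` lies in no prime that misses `h` -/
theorem pow_mem_of_loc (hM : ∀ a ∈ A, ∀ w ∈ M, μ a • w ∈ M) (hh : h ∈ A)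
    (H : ∀ O, IsLoc A O → Un O h → ∃ s ∈ A, Un O s ∧ μ s • w ∈ M) : ∃ N : ℕ, μ (h ^ N) • w ∈ M := by
  let I : Ideal A :=
    { carrier := {s | μ s • w ∈ M}
      add_mem' := fun {a b} ha hb => by
        show μ ((a : F) + b) • w ∈ M
        rw [map_add, add_smul]
        exact add_mem ha hb
      zero_mem' := by
        show μ (0 : F) • w ∈ M
        rw [map_zero, zero_smul]
        exact zero_mem _
      smul_mem' := fun c a ha => by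
        show μ ((c : F) * a) • w ∈ M
        rw [map_mul, mul_smul]
        exact hM _ c.2 _ ha }
  have hr : (⟨h, hh⟩ : A) ∈ I.radical := by
    rw [Ideal.radical_eq_sInf, Ideal.mem_sInf]
    rintro 𝔭 ⟨hI, h𝔭⟩
    by_contra hn
    obtain ⟨O, hO, e⟩ := exists_loc 𝔭
    obtain ⟨s, hs, hu, hw⟩ := H O hO ((e ⟨h, hh⟩).2 hn)
    exact (e ⟨s, hs⟩).1 hu (hI (show (⟨s, hs⟩ : A) ∈ I from hw))
  obtain ⟨N, hN⟩ := hr
  exact ⟨N, hN⟩

theorem mem_of_loc (hM : ∀ a ∈ A, ∀ w ∈ M, μ a • w ∈ M)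
    (H : ∀ O, IsLoc A O → ∃ s ∈ A, Un O s ∧ μ s • w ∈ M) : w ∈ M := by
  obtain ⟨N, hN⟩ := pow_mem_of_loc hM A.one_mem fun O hO _ => H O hO
  rwa [one_pow, map_one, one_smul] at hN

theorem QC.away (hS : QC μ A M S) (hh : h ∈ A) (H : ∀ O, IsLoc A O → Un O h → w ∈ S O) :
    ∃ N : ℕ, μ (h ^ N) • w ∈ M :=
  pow_mem_of_loc hS.smul hh fun O hO hu => (hS.loc O hO w).1 (H O hO hu)

theorem QC.glob (hS : QC μ A M S) : w ∈ M ↔ ∀ O, IsLoc A O → w ∈ S O :=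
  ⟨fun hw O hO => (hS.loc O hO w).2 ⟨1, A.one_mem, un_one O, hS.smul _ A.one_mem _ hw⟩,
    fun H => mem_of_loc hS.smul fun O hO => (hS.loc O hO w).1 (H O hO)⟩

/-- a local section is a section on a neighbourhood -/
theorem QC.spread (hS : QC μ A M S) (hO : IsLoc A O) (hw : w ∈ S O) :
    ∃ s ∈ A, Un O s ∧ ∀ O', IsLoc A O' → Un O' s → w ∈ S O' := by
  obtain ⟨s, hs, hu, hm⟩ := (hS.loc O hO w).1 hw
  exact ⟨s, hs, hu, fun O' hO' hu' => (hS.loc O' hO' w).2 ⟨s, hs, hu', hm⟩⟩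

end

theorem qc_ring (A : Subring F) :
    QC (RingHom.id F) A A.toAddSubgroup fun O : Subring F => O.toAddSubgroup :=
  ⟨fun _ ha _ hw => A.mul_mem ha hw, fun _ hO w =>
    ⟨fun hw => hO.frac w hw, fun ⟨_, _, hu, hm⟩ => hu.mul_mem_iff.1 (hO.le hm)⟩⟩

theorem oms_loc (hO : IsLoc A O) (h : ω ∈ OmS O) : ∃ s ∈ A, Un O s ∧ s • ω ∈ OmS A := by
  refine OmS_ind (P := fun ω => ∃ s ∈ A, Un O s ∧ s • ω ∈ OmS A)
    ⟨1, A.one_mem, un_one O, by rw [smul_zero]; exact zero_mem _⟩ (fun a ha b hb => ?_) ?_ h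
  · obtain ⟨s, hs, us, hsa⟩ := hO.frac a ha
    obtain ⟨t, ht, ut, htb⟩ := hO.frac b hb
    refine ⟨s * t * t, A.mul_mem (A.mul_mem hs ht) ht, (us.mul ut).mul ut, ?_⟩
    have e : (s * t * t) • a • (dK b : Om F) =
        (s * a * t) • dK (t * b) - (s * a * (t * b)) • dK t := by
      rw [Derivation.leibniz]
      module
    rw [e]
    exact sub_mem (smul_d_mem (A.mul_mem hsa ht) htb) (smul_d_mem (A.mul_mem hsa htb) ht)
  · rintro x y - - ⟨s, hs, us, hx⟩ ⟨t, ht, ut, hy⟩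
    refine ⟨s * t, A.mul_mem hs ht, us.mul ut, ?_⟩
    have e : (s * t) • (x + y) = t • s • x + s • t • y := by module
    rw [e]
    exact add_mem (OmS_smul ht hx) (OmS_smul hs hy)

theorem qc_om (A : Subring F) : QC (RingHom.id F) A (OmS A) OmS := by
  refine ⟨fun _ ha _ hw => OmS_smul ha hw, fun O hO w => ⟨oms_loc hO, ?_⟩⟩
  rintro ⟨s, -, hu, hm⟩
  have := OmS_smul hu.2.2 (OmS_mono hO.le hm)
  rwa [RingHom.id_apply, inv_smul_smul₀ hu.2.1] at this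

theorem oms_span {T : Set A} (H : ∀ O, IsLoc A O → ∃ h ∈ T, Un O (h : A)) : Ideal.span T = ⊤ := by
  by_contra hn
  obtain ⟨𝔪, hm, hle⟩ := Ideal.exists_le_maximal _ hn
  obtain ⟨O, hO, e⟩ := exists_loc 𝔪
  obtain ⟨h, hh, hu⟩ := H O hO
  exact (e h).1 hu (hle (Ideal.subset_span hh))

/-- quasi-compactness -/
theorem exists_cover {P : F → Prop} (H : ∀ O, IsLoc A O → ∃ h ∈ A, Un O h ∧ P h) :
    ∃ (κ : Type) (_ : Fintype κ) (_ : Nonempty κ) (h : κ → F), (∀ i, h i ∈ A ∧ h i ≠ 0 ∧ P (h i)) ∧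
      ∀ O, IsLoc A O → ∃ i, Un O (h i) := by
  have h1 : Ideal.span {h : A | (h : F) ≠ 0 ∧ P h} = ⊤ := oms_span fun O hO => by
    obtain ⟨h, hh, hu, hp⟩ := H O hO
    exact ⟨⟨h, hh⟩, ⟨hu.2.1, hp⟩, hu⟩
  obtain ⟨s, hs, h2⟩ := (Ideal.span_eq_top_iff_finite _).1 h1
  have h3 : ∀ 𝔭 : Ideal A, 𝔭 ≠ ⊤ → ∃ i : s, (i : A) ∉ 𝔭 := by
    intro 𝔭 h𝔭
    by_contra hn
    refine h𝔭 (top_le_iff.1 (h2 ▸ Ideal.span_le.2 fun i hi => ?_))
    by_contra hi'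
    exact hn ⟨⟨i, hi⟩, hi'⟩
  obtain ⟨i₀, -⟩ := h3 ⊥ bot_ne_top
  refine ⟨s, inferInstance, ⟨i₀⟩, fun i => ((i : A) : F),
    fun i => ⟨(i : A).2, (hs i.2).1, (hs i.2).2⟩, fun O hO => ?_⟩
  obtain ⟨𝔭, h𝔭, e⟩ := hO.prime
  obtain ⟨i, hi⟩ := h3 𝔭 h𝔭.ne_top
  exact ⟨i, (e i).2 hi⟩

/-- partition of unity -/
theorem exists_pou {κ : Type} [Fintype κ] {h : κ → F} (hh : ∀ i, h i ∈ A)
    (H : ∀ O, IsLoc A O → ∃ i, Un O (h i)) (N : ℕ) :
    ∃ c : κ → F, (∀ i, c i ∈ A) ∧ ∑ i, c i * h i ^ N = 1 := by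
  have h1 : Ideal.span (Set.range fun i => (⟨h i, hh i⟩ : A) ^ N) = ⊤ := oms_span fun O hO => by
    obtain ⟨i, hi⟩ := H O hO
    exact ⟨_, ⟨i, rfl⟩, hi.pow N⟩
  obtain ⟨c, hc⟩ := Ideal.mem_span_range_iff_exists_fun.1 ((Ideal.eq_top_iff_one _).1 h1)
  refine ⟨fun i => c i, fun i => (c i).2, ?_⟩
  have := congrArg A.subtype hc
  rw [map_sum, map_one] at this
  exact this

variable {p : ℕ} {x : Qm p F}

theorem mem_QS : x ∈ QS p O ↔ ∃ ω ∈ OmS O, mq p ω = x := Iff.rfl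

theorem mem_ZS : ω ∈ ZS p O ↔ wp p ω ∈ QS p O := Iff.rfl

theorem mq_mem (h : ω ∈ OmS O) : mq p ω ∈ QS p O := ⟨ω, h, rfl⟩

theorem QS_mono (h : O ≤ O') : QS p O ≤ QS p O' := AddSubgroup.map_mono (OmS_mono h)

theorem ZS_mono (h : O ≤ O') : ZS p O ≤ ZS p O' := AddSubgroup.comap_mono (QS_mono h)

theorem QS_top (x : Qm p F) : x ∈ QS p (⊤ : Subring F) := by
  obtain ⟨ω, rfl⟩ := mq_surj p x
  exact mq_mem (OmS_top ω)

theorem pbQ_mem_QS (φ : F →+* F') {B : Subring F'} (hφ : ∀ a ∈ O, φ a ∈ B) (h : x ∈ QS p O) :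
    pbQ p φ x ∈ QS p B := by
  obtain ⟨ω, hω, rfl⟩ := mem_QS.1 h
  rw [pbQ_mq]
  exact mq_mem (pb_mem_OmS φ hφ hω)

variable [Fact p.Prime] [CharP F p]

theorem QS_smul (ha : a ∈ O) (h : x ∈ QS p O) : a • x ∈ QS p O := by
  obtain ⟨ω, hω, rfl⟩ := mem_QS.1 h
  rw [smul_mq]
  exact mq_mem (OmS_smul (O.pow_mem ha p) hω)

theorem gam_mem (h : ω ∈ OmS O) : gam p ω ∈ QS p O := by
  refine OmS_ind (P := fun ω => gam p ω ∈ QS p O) ?_ (fun c hc b hb => ?_)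
    (fun x y _ _ px py => ?_) h
  · rw [map_zero]
    exact zero_mem _
  · rw [gam_smul_d]
    exact mq_mem (smul_d_mem (O.mul_mem (O.pow_mem hc _) (O.pow_mem hb _)) hb)
  · rw [map_add]
    exact add_mem px py

theorem wp_mem (h : ω ∈ OmS O) : wp p ω ∈ QS p O := by
  rw [wp_apply]
  exact sub_mem (gam_mem h) (mq_mem h)

theorem OmS_le_ZS (O : Subring F) : OmS O ≤ ZS p O := fun _ h => mem_ZS.2 (wp_mem h)

theorem dlog_mem_ZS (O : Subring F) (f : F) : dlog f ∈ ZS p O := by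
  rw [mem_ZS, wp_dlog]
  exact zero_mem _

theorem qc_q (A : Subring F) : QC (RingHom.id F) A (QS p A) (QS p) := by
  refine ⟨fun _ ha _ hw => QS_smul ha hw, fun O hO w => ⟨fun hw => ?_, ?_⟩⟩
  · obtain ⟨ω, hω, rfl⟩ := mem_QS.1 hw
    obtain ⟨s, hs, us, hm⟩ := oms_loc hO hω
    refine ⟨s, hs, us, ?_⟩
    rw [RingHom.id_apply, smul_mq, ← pow_sub_one_mul (Fact.out : p.Prime).ne_zero, mul_smul]
    exact mq_mem (OmS_smul (A.pow_mem hs _) hm)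
  · rintro ⟨s, -, hu, hm⟩
    have := QS_smul hu.2.2 (QS_mono hO.le hm)
    rwa [RingHom.id_apply, inv_smul_smul₀ hu.2.1] at this

end Pool.Agent.ZFd
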