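import Pool.Agent.Lib.MP_751085_ag.ZF.D.OmS

/-! Coordinates and derivations attached to a `p`-basis. -/

namespace Pool.Agent.ZFd

open scoped Classical

variable {F : Type} [Field F] {p : ℕ} [Fact p.Prime] [CharP F p] {ι : Type} [Fintype ι]
  {O O' : Subring F} {u : ι → F} {a : F} {ω : Om F}

theorem PB.ne (h : PB p O u) (i : ι) : u i ≠ 0 := fun e =>
  h.ind.ne_zero i (show dK (u i) = 0 by rw [e, map_zero])

theorem PB.mon_ne (h : PB p O u) (I : ι → Fin p) : mon u I ≠ 0 :=
  Finset.prod_ne_zero_iff.2 fun i _ => pow_ne_zero _ (h.ne i)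

theorem PB.mon_mem (h : PB p O u) (I : ι → Fin p) : mon u I ∈ O :=
  prod_mem fun i _ => pow_mem (h.mem i) _

/-- `z = (s z) s ^ (p - 1) / s ^ p` -/
theorem PB.mono (h : PB p O u) (hle : O ≤ O') (e : ∀ z ∈ O', ∃ s ∈ O, Un O' s ∧ s * z ∈ O) :
    PB p O' u := by
  refine ⟨fun i => hle (h.mem i), fun z hz => ?_, h.ind, fun z => ?_⟩
  · obtain ⟨s, hs, hu, hz'⟩ := e z hz
    obtain ⟨c, hc, ec⟩ := h.span _ (mul_mem (pow_mem hs (p - 1)) hz')
    refine ⟨fun I => c I / s, fun I => hu.div_mem (hle (hc I)), ?_⟩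
    have h0 : s ^ p ≠ 0 := pow_ne_zero _ hu.2.1
    rw [← mul_assoc, pow_sub_one_mul (Fact.out : p.Prime).ne_zero] at ec
    apply mul_left_cancel₀ h0
    rw [ec, Finset.mul_sum]
    refine Finset.sum_congr rfl fun I _ => ?_
    rw [div_pow, ← mul_assoc, mul_div_cancel₀ _ h0]
  · obtain ⟨s, hs, h0, hz⟩ := h.frac z
    exact ⟨s, hle hs, h0, hle hz⟩

theorem PB.loc (h : PB p O u) (hO : IsLoc O O') : PB p O' u := h.mono hO.le hO.frac

theorem PB.top (h : PB p O u) : PB p ⊤ u :=
  h.mono le_top fun z _ => by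
    obtain ⟨s, hs, h0, hz⟩ := h.frac z
    exact ⟨s, hs, un_top.2 h0, hz⟩

theorem der_apply (u : ι → F) (i : ι) (a : F) : der u i a = co u i (dK a) := rfl

theorem eul_apply (u : ι → F) (i : ι) (a : F) : eul u i a = u i * der u i a := rfl

theorem pb1_span {A : Type} [CommRing A] [CharP A p] (v : ι → A)
    (H : ∀ b : A, ∃ c : (ι → Fin p) → A, b = ∑ I, c I ^ p * ∏ i, v i ^ (I i : ℕ)) :
    Submodule.span A (Set.range fun i => (dK (v i) : Om A)) = ⊤ := by
  set M := Submodule.span A (Set.range fun i => (dK (v i) : Om A))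
  have hm : ∀ x y : A, dK x ∈ M → dK y ∈ M → dK (x * y) ∈ M := fun x y hx hy => by
    rw [Derivation.leibniz]
    exact M.add_mem (M.smul_mem _ hy) (M.smul_mem _ hx)
  have h1 : dK (1 : A) ∈ M := by
    rw [Derivation.map_one_eq_zero]
    exact M.zero_mem
  refine eq_top_iff.2 fun ω _ => ?_
  refine om_ind (P := fun ω => ω ∈ M) M.zero_mem (fun a b => M.smul_mem _ ?_)
    (fun _ _ => M.add_mem) ω
  obtain ⟨c, rfl⟩ := H b
  rw [map_sum]
  refine M.sum_mem fun I _ => ?_
  rw [d_pow_p_mul]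
  refine M.smul_mem _ (Finset.prod_induction _ (fun x => dK x ∈ M) hm h1 fun i _ => ?_)
  rw [Derivation.leibniz_pow]
  exact M.smul_of_tower_mem _ (M.smul_mem _ (Submodule.subset_span ⟨i, rfl⟩))

theorem pb1_exp (h : PB p O u) (a : F) : ∃ c : (ι → Fin p) → F, a = ∑ I, c I ^ p * mon u I :=
  (h.top.span a trivial).imp fun _ hc => hc.2

/-- the `dK (u i)` span because `dK (c ^ p * mon u I)` lies in their span -/
theorem PB.exists_basis (h : PB p O u) : ∃ b : Module.Basis ι F (Om F), ∀ j, b j = dK (u j) :=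
  ⟨Module.Basis.mk h.ind (pb1_span u (pb1_exp h)).ge, Module.Basis.mk_apply _ _⟩

theorem pb1_co (h : PB p O u) :
    ∃ b : Module.Basis ι F (Om F), (∀ j, b j = dK (u j)) ∧ ∀ i, co u i = b.coord i :=
  ⟨h.exists_basis.choose, h.exists_basis.choose_spec, fun _ => dif_pos h.exists_basis⟩

theorem PB.sum_co (h : PB p O u) (ω : Om F) : ∑ i, co u i ω • dK (u i) = ω := by
  obtain ⟨b, hb, hc⟩ := pb1_co h
  simp only [hc, ← hb, Module.Basis.coord_apply]
  exact b.sum_repr ω

theorem PB.der_u (h : PB p O u) (i j : ι) : der u i (u j) = if j = i then 1 else 0 := by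
  obtain ⟨b, hb, hc⟩ := pb1_co h
  rw [der_apply, hc, ← hb, Module.Basis.coord_apply, Module.Basis.repr_self_apply]

theorem PB.co_sum (h : PB p O u) (w : ι → F) (i : ι) : co u i (∑ j, w j • dK (u j)) = w i := by
  simp only [map_sum, map_smul, ← der_apply, h.der_u, smul_eq_mul, mul_ite, mul_one, mul_zero,
    Finset.sum_ite_eq', Finset.mem_univ, if_true]

theorem PB.ext (h : PB p O u) {ω ω' : Om F} (e : ∀ i, co u i ω = co u i ω') : ω = ω' := by
  rw [← h.sum_co ω, ← h.sum_co ω']
  simp only [e]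

theorem PB.sum_dlog (h : PB p O u) (ω : Om F) : ∑ i, (u i * co u i ω) • dlog (u i) = ω := by
  refine (Finset.sum_congr rfl fun i _ => ?_).trans (h.sum_co ω)
  rw [mul_comm, mul_smul, smul_dlog (h.ne i)]

theorem PB.co_sum_dlog (h : PB p O u) (w : ι → F) (i : ι) :
    u i * co u i (∑ j, w j • dlog (u j)) = w i := by
  simp only [dlog, smul_smul]
  rw [h.co_sum, mul_comm, inv_mul_cancel_right₀ (h.ne i)]

theorem PB.card (h : PB p O u) : Module.finrank F (Om F) = Fintype.card ι :=
  Module.finrank_eq_card_basis h.exists_basis.choose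

theorem der_pow_p_mul (D : Derivation ℤ F F) (c x : F) : D (c ^ p * x) = c ^ p * D x := by
  rw [Derivation.leibniz, Derivation.leibniz_pow, nsmul_eq_mul, CharP.cast_eq_zero F p, zero_mul,
    smul_zero, add_zero, smul_eq_mul]

theorem pb1_nat (D : Derivation ℤ F F) (n : ℕ) (x : F) : D (n * x) = n * D x := by
  rw [← nsmul_eq_mul, map_nsmul, nsmul_eq_mul]

theorem pb1_eig (D : Derivation ℤ F F) {κ : Type} (s : Finset κ) {f e : κ → F}
    (h : ∀ j, D (f j) = e j * f j) : D (∏ j ∈ s, f j) = (∑ j ∈ s, e j) * ∏ j ∈ s, f j := by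
  induction s using Finset.induction_on with
  | empty => simp
  | insert j s hj ih =>
    rw [Finset.prod_insert hj, Finset.sum_insert hj, Derivation.leibniz, ih, h, smul_eq_mul,
      smul_eq_mul]
    ring

theorem PB.eul_prod (h : PB p O u) (i : ι) (n : ι → ℕ) :
    eul u i (∏ j, u j ^ n j) = n i * ∏ j, u j ^ n j := by
  have h1 : ∀ j, eul u i (u j) = (if j = i then 1 else 0) * u j := fun j => by
    rw [eul_apply, h.der_u]
    split_ifs with e
    · rw [e, mul_comm]
    · rw [mul_zero, zero_mul]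
  have h2 : ∀ j, eul u i (u j ^ n j) = (if j = i then (n j : F) else 0) * u j ^ n j := fun j => by
    have := pb1_eig (eul u i) (Finset.range (n j)) fun _ => h1 j
    rw [Finset.prod_const, Finset.sum_const, Finset.card_range, nsmul_eq_mul, mul_ite, mul_one,
      mul_zero] at this
    exact this
  rw [pb1_eig _ _ h2, Finset.sum_ite_eq', if_pos (Finset.mem_univ i)]

theorem PB.eul_mon (h : PB p O u) (i : ι) (c : F) (I : ι → Fin p) :
    eul u i (c ^ p * mon u I) = (I i : ℕ) * (c ^ p * mon u I) := by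
  rw [der_pow_p_mul, mon, h.eul_prod i fun j => I j, mul_left_comm]

theorem PB.eul_comm (h : PB p O u) (i j : ι) (a : F) :
    eul u i (eul u j a) = eul u j (eul u i a) := by
  obtain ⟨c, rfl⟩ := pb1_exp h a
  simp only [map_sum, h.eul_mon, pb1_nat]
  exact Finset.sum_congr rfl fun I _ => mul_left_comm _ _ _

theorem pb1_iter_sum (D : Derivation ℤ F F) (k : ℕ) {κ : Type} (s : Finset κ) (f : κ → F) :
    (fun x => D x)^[k] (∑ j ∈ s, f j) = ∑ j ∈ s, (fun x => D x)^[k] (f j) := by
  induction k with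
  | zero => rfl
  | succ k ih => simp only [Function.iterate_succ_apply', ih, map_sum]

/-- Fermat: `n ^ p = n` in `F` -/
theorem PB.eul_iter (h : PB p O u) (i : ι) (a : F) :
    (fun x => eul u i x)^[p] a = eul u i a := by
  obtain ⟨c, rfl⟩ := pb1_exp h a
  rw [pb1_iter_sum, map_sum]
  refine Finset.sum_congr rfl fun I _ => ?_
  have : ∀ k, (fun x => eul u i x)^[k] (c I ^ p * mon u I) =
      ((I i : ℕ) ^ k : ℕ) * (c I ^ p * mon u I) := fun k => by
    induction k with
    | zero => simp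
    | succ k ih =>
      rw [Function.iterate_succ_apply', ih, pb1_nat, h.eul_mon, ← mul_assoc, ← Nat.cast_mul,
        pow_succ]
  rw [this, h.eul_mon, Nat.cast_pow, ← frobenius_def, map_natCast]

theorem pb1_zero (h : PB p O u) (D : Derivation ℤ F F) (hD : ∀ j, D (u j) = 0) (a : F) :
    D a = 0 := by
  rw [← D.liftKaehlerDifferential_comp_D, ← h.sum_co (dK a), map_sum]
  refine Finset.sum_eq_zero fun j _ => ?_
  rw [map_smul, D.liftKaehlerDifferential_comp_D, hD, smul_zero]

theorem PB.der_comm (h : PB p O u) (i j : ι) (a : F) :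
    der u i (der u j a) = der u j (der u i a) := by
  refine sub_eq_zero.1 (pb1_zero h ⁅der u i, der u j⁆ (fun k => ?_) a)
  rw [Derivation.commutator_apply, h.der_u, h.der_u]
  split_ifs <;> simp

theorem pb1_nil (h : PB p O u) (i : ι) (k : ℕ) :
    ∀ x : F, eul u i x = k * x → (fun x => der u i x)^[k + 1] x = 0 := by
  induction k with
  | zero =>
    intro x hx
    rw [Nat.cast_zero, zero_mul, eul_apply] at hx
    exact (mul_eq_zero.1 hx).resolve_left (h.ne i)
  | succ k ih =>
    intro x hx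
    rw [Function.iterate_succ_apply]
    refine ih _ ?_
    have := congrArg (der u i) hx
    rw [pb1_nat, eul_apply, Derivation.leibniz, h.der_u, if_pos rfl, smul_eq_mul, smul_eq_mul,
      Nat.cast_succ] at this
    rw [eul_apply]
    linear_combination this

theorem PB.der_iter (h : PB p O u) (i : ι) (a : F) : (fun x => der u i x)^[p] a = 0 := by
  obtain ⟨c, rfl⟩ := pb1_exp h a
  rw [pb1_iter_sum]
  refine Finset.sum_eq_zero fun I _ => ?_
  obtain ⟨k, hk⟩ := Nat.exists_eq_add_of_le' (Nat.succ_le_of_lt (I i).2)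
  have := pb1_nil h i _ _ (h.eul_mon i (c I) I)
  generalize c I ^ p * mon u I = x at this
  rw [hk, Function.iterate_add_apply, this]
  exact Function.iterate_fixed (map_zero _) k

theorem PB.der_mem (h : PB p O u) (i : ι) (ha : a ∈ O) : der u i a ∈ O := by
  obtain ⟨c, hc, rfl⟩ := h.span a ha
  rw [map_sum]
  refine sum_mem fun I _ => ?_
  rw [der_pow_p_mul]
  refine mul_mem (pow_mem (hc I) _) (Finset.prod_induction _ (fun x => x ∈ O ∧ der u i x ∈ O)
    (fun x y hx hy => ⟨mul_mem hx.1 hy.1, ?_⟩) ⟨one_mem _, ?_⟩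
    fun j _ => ⟨pow_mem (h.mem j) _, ?_⟩).2
  · rw [Derivation.leibniz]
    exact add_mem (mul_mem hx.1 hy.2) (mul_mem hy.1 hx.2)
  · rw [Derivation.map_one_eq_zero]
    exact zero_mem _
  · rw [Derivation.leibniz_pow, h.der_u]
    refine nsmul_mem (mul_mem (pow_mem (h.mem j) _) ?_) _
    split_ifs
    exacts [one_mem _, zero_mem _]

theorem PB.eul_mem (h : PB p O u) (i : ι) (ha : a ∈ O) : eul u i a ∈ O :=
  mul_mem (h.mem i) (h.der_mem i ha)

theorem PB.mem_OmS (h : PB p O u) : ω ∈ OmS O ↔ ∀ i, co u i ω ∈ O := by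
  refine ⟨fun hω i => OmS_ind (P := fun ω => co u i ω ∈ O) ?_ (fun a ha b hb => ?_)
    (fun x y _ _ hx hy => ?_) hω, fun H => ?_⟩
  · rw [map_zero]
    exact zero_mem _
  · rw [map_smul]
    exact mul_mem ha (h.der_mem i hb)
  · rw [map_add]
    exact add_mem hx hy
  · rw [← h.sum_co ω]
    exact sum_mem fun i _ => smul_d_mem (H i) (h.mem i)

/-- `Om O` is spanned by the `dK (u i)` (expand inside the ring `O`) -/
theorem PB.span_om (h : PB p O u) :
    Submodule.span O (Set.range fun i => (dK (⟨u i, h.mem i⟩ : O) : Om O)) = ⊤ := by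
  refine pb1_span (p := p) (fun i => (⟨u i, h.mem i⟩ : O)) fun b => ?_
  obtain ⟨c, hc, e⟩ := h.span b b.2
  refine ⟨fun I => ⟨c I, hc I⟩, Subtype.ext (e.trans ?_)⟩
  simp [mon]

theorem PB.pb_inj (h : PB p O u) : Function.Injective (pb O.subtype) := by
  refine (injective_iff_map_eq_zero _).2 fun ω hω => ?_
  obtain ⟨c, rfl⟩ := (Submodule.mem_span_range_iff_exists_fun O).1
    (h.span_om.ge (Submodule.mem_top (x := ω)))
  refine Finset.sum_eq_zero fun i _ => ?_
  have := h.co_sum (fun j => (c j : F)) i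
  simp only [map_sum, pb_smul_d] at hω
  have e : (c i : F) = 0 := by
    rw [← this]
    exact (congrArg (co u i) hω).trans (map_zero _)
  rw [show c i = 0 from Subtype.ext e, zero_smul]

theorem PB.gam_eq (h : PB p O u) (ω : Om F) :
    gam p ω = mq p (∑ i, (co u i ω ^ p * u i ^ (p - 1)) • dK (u i)) := by
  rw [map_sum, ← congrArg (gam p) (h.sum_co ω), map_sum]
  exact Finset.sum_congr rfl fun i _ => gam_smul_d _ _

theorem PB.reindex {κ : Type} [Fintype κ] (h : PB p O u) (e : κ ≃ ι) : PB p O (u ∘ e) := by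
  refine ⟨fun i => h.mem _, fun a ha => ?_, h.ind.comp e e.injective, h.frac⟩
  obtain ⟨c, hc, rfl⟩ := h.span a ha
  refine ⟨fun I => c (I ∘ e.symm), fun I => hc _, ?_⟩
  refine (Fintype.sum_equiv (e.arrowCongr (Equiv.refl _)) _ _ fun I => ?_).symm
  refine congrArg₂ _ rfl (Fintype.prod_equiv e _ _ fun j => ?_)
  simp

end Pool.Agent.ZFd
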