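import Pool.Agent.Lib.MP_751085_ag.ZF.D.PB1

/-! Coefficients with respect to a `p`-basis, exact forms. -/

namespace Pool.Agent.ZFd

open scoped Classical

variable {F : Type} [Field F] {p : ℕ} [Fact p.Prime] [CharP F p] {ι : Type} [Fintype ι]
  {O : Subring F} {u : ι → F} {a g : F} {ω : Om F}

theorem pb2_int_pow (n : ℤ) : (n : F) ^ p = n := by
  have := map_intCast (frobenius F p) n
  rwa [frobenius_def] at this

theorem pb2_nat_pow (n : ℕ) : (n : F) ^ p = n := by
  have := map_natCast (frobenius F p) n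
  rwa [frobenius_def] at this

theorem pb2_cancel (q : ℕ) [Fact q.Prime] [CharP F q] (M : AddSubgroup F) {n : ℤ}
    (hn : (n : F) ≠ 0) {x : F} (hx : (n : F) * x ∈ M) : x ∈ M := by
  obtain ⟨k, hk⟩ : ∃ k, q = k + 2 := ⟨q - 2, by have := (Fact.out : q.Prime).two_le; omega⟩
  have h1 : (n : F) ^ (k + 2) = n := hk ▸ pb2_int_pow (p := q) n
  have h2 : (n : F) ^ k * n = 1 := by
    apply mul_right_cancel₀ hn
    rw [one_mul]
    calc (n : F) ^ k * n * n = (n : F) ^ (k + 2) := by ring
      _ = n := h1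
  have h3 : x = (n ^ k : ℤ) • ((n : F) * x) := by
    rw [zsmul_eq_mul, Int.cast_pow, ← mul_assoc, h2, one_mul]
  rw [h3]
  exact M.zsmul_mem hx _

omit [Fact p.Prime] in
theorem pb2_cast_ne {m n : Fin p} (h : m ≠ n) : ((((m : ℕ) : ℤ) - ((n : ℕ) : ℤ) : ℤ) : F) ≠ 0 := by
  rw [Int.cast_sub, Int.cast_natCast, Int.cast_natCast, sub_ne_zero]
  intro e
  exact h (Fin.ext (CharP.natCast_injOn_Iio F p m.2 n.2 e))

theorem pb2_cast_ne0 {m : ℕ} (hp : m < p) (h : m ≠ 0) : (((m : ℕ) : ℤ) : F) ≠ 0 := by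
  rw [Int.cast_natCast]
  intro e
  exact h (CharP.natCast_injOn_Iio F p hp (Fact.out : p.Prime).pos (e.trans Nat.cast_zero.symm))

theorem pb2_term (M : AddSubgroup F) (hM : ∀ i, ∀ x ∈ M, eul u i x ∈ M) (n : ℕ) :
    ∀ (S : Finset (ι → Fin p)) (t : (ι → Fin p) → F), S.card = n →
      (∀ L i, eul u i (t L) = (L i : ℕ) * t L) → ∑ L ∈ S, t L ∈ M → ∀ J ∈ S, t J ∈ M := by
  induction n with
  | zero =>
    intro S t hS _ _ J hJ
    rw [Finset.card_eq_zero.1 hS] at hJ
    exact absurd hJ (Finset.notMem_empty J)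
  | succ n ih =>
    intro S t hS ht hs J hJ
    by_cases hK : ∃ K ∈ S, K ≠ J
    · obtain ⟨K, hKS, hKJ⟩ := hK
      obtain ⟨i, hi⟩ := Function.ne_iff.1 hKJ
      let w : (ι → Fin p) → ℤ := fun L => ((L i : ℕ) : ℤ) - ((K i : ℕ) : ℤ)
      have h1 : ∑ L ∈ S, (w L : F) * t L ∈ M := by
        have e : ∑ L ∈ S, (w L : F) * t L =
            eul u i (∑ L ∈ S, t L) - ((K i : ℕ) : ℤ) • ∑ L ∈ S, t L := by
          rw [map_sum, Finset.smul_sum, ← Finset.sum_sub_distrib]
          refine Finset.sum_congr rfl fun L _ => ?_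
          rw [ht, zsmul_eq_mul]
          simp only [w]
          push_cast
          ring
        rw [e]
        exact M.sub_mem (hM i _ hs) (M.zsmul_mem hs _)
      have h2 : ∑ L ∈ S.erase K, (w L : F) * t L ∈ M := by
        rw [Finset.sum_erase]
        · exact h1
        · simp only [w, sub_self, Int.cast_zero, zero_mul]
      have h3 := ih (S.erase K) (fun L => (w L : F) * t L)
        (by rw [Finset.card_erase_of_mem hKS, hS]; rfl)
        (fun L j => by
          rw [Derivation.leibniz, Derivation.map_intCast, smul_zero, add_zero, ht, smul_eq_mul]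
          ring) h2 J (Finset.mem_erase.2 ⟨hKJ.symm, hJ⟩)
      exact pb2_cancel p M (pb2_cast_ne hi.symm) h3
    · have e : S = {J} := by
        refine Finset.eq_singleton_iff_unique_mem.2 ⟨hJ, fun K hKS => ?_⟩
        by_contra hne
        exact hK ⟨K, hKS, hne⟩
      rwa [e, Finset.sum_singleton] at hs

theorem pb2_term' (h : PB p O u) (M : AddSubgroup F) (hM : ∀ i, ∀ x ∈ M, eul u i x ∈ M)
    {c : (ι → Fin p) → F} (hc : ∑ I, c I ^ p * mon u I ∈ M) (I : ι → Fin p) :
    c I ^ p * mon u I ∈ M :=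
  pb2_term M hM _ Finset.univ (fun L => c L ^ p * mon u L) rfl (fun L i => h.eul_mon i (c L) L) hc I
    (Finset.mem_univ I)

theorem pb2_strip (h : PB p O u) (M : AddSubgroup F) (hM : ∀ i, ∀ x ∈ M, der u i x ∈ M) (c : F)
    (N : ℕ) : ∀ n : ι → ℕ, ∑ j, n j = N → (∀ j, n j < p) → c ^ p * ∏ j, u j ^ n j ∈ M →
      c ^ p ∈ M := by
  induction N with
  | zero =>
    intro n hn _ hc
    have e : ∀ j, n j = 0 := fun j => Finset.sum_eq_zero_iff.1 hn j (Finset.mem_univ j)
    simpa only [e, pow_zero, Finset.prod_const_one, mul_one] using hc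
  | succ N ih =>
    intro n hn hp hc
    obtain ⟨i, hi⟩ : ∃ i, n i ≠ 0 := by
      by_contra hcon
      push Not at hcon
      simp [hcon] at hn
    obtain ⟨k, hk⟩ := Nat.exists_eq_succ_of_ne_zero hi
    have e1 : ∏ j, u j ^ n j = u i * ∏ j, u j ^ Function.update n i k j := by
      rw [← Finset.mul_prod_erase _ _ (Finset.mem_univ i),
        ← Finset.mul_prod_erase _ (fun j => u j ^ Function.update n i k j) (Finset.mem_univ i),
        Function.update_self, hk, pow_succ', mul_assoc]
      refine congrArg _ (congrArg _ (Finset.prod_congr rfl fun j hj => ?_))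
      rw [Function.update_of_ne (Finset.ne_of_mem_erase hj)]
    have e2 : ∑ j, Function.update n i k j = N := by
      rw [Finset.sum_update_of_mem (Finset.mem_univ i)]
      rw [← Finset.add_sum_erase _ _ (Finset.mem_univ i), hk] at hn
      rw [Finset.sdiff_singleton_eq_erase]
      omega
    have e3 : der u i (∏ j, u j ^ n j) = n i * ∏ j, u j ^ Function.update n i k j := by
      apply mul_left_cancel₀ (h.ne i)
      rw [← eul_apply, h.eul_prod, e1]
      ring
    refine ih (Function.update n i k) e2 (fun j => ?_) ?_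
    · by_cases hj : j = i
      · subst hj
        rw [Function.update_self]
        have := hp j
        omega
      · rw [Function.update_of_ne hj]
        exact hp j
    · refine pb2_cancel p M (pb2_cast_ne0 (hp i) hi) ?_
      have h4 := hM i _ hc
      rw [der_pow_p_mul, e3] at h4
      rw [Int.cast_natCast, mul_left_comm]
      exact h4

omit [CharP F p] in
theorem pb2_mon_zero (u : ι → F) : mon u (0 : ι → Fin p) = 1 := by
  simp [mon]

/-- the terms are simultaneous eigenvectors of the `eul u i` with different weights: apply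
`∏ i, ∏ n ≠ I i, (eul u i - n)`, or induct on the support -/
theorem PB.mon_ind (h : PB p O u) {c : (ι → Fin p) → F} (hc : ∑ I, c I ^ p * mon u I = 0)
    (I : ι → Fin p) : c I = 0 := by
  have h1 := pb2_term' h ⊥ (fun i x hx => by
    rw [AddSubgroup.mem_bot] at hx ⊢
    rw [hx, map_zero]) (AddSubgroup.mem_bot.2 hc) I
  rw [AddSubgroup.mem_bot] at h1
  exact pow_eq_zero_iff (Fact.out : p.Prime).ne_zero |>.1
    ((mul_eq_zero.1 h1).resolve_right (h.mon_ne I))

theorem PB.sum_cf (h : PB p O u) (a : F) : ∑ I, cf p u I a ^ p * mon u I = a := by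
  obtain ⟨c, -, hc⟩ := h.top.span a (Subring.mem_top a)
  have e : ∃ c : (ι → Fin p) → F, a = ∑ J, c J ^ p * mon u J := ⟨c, hc⟩
  simp only [cf, dif_pos e]
  exact e.choose_spec.symm

theorem PB.cf_sum (h : PB p O u) (c : (ι → Fin p) → F) (I : ι → Fin p) :
    cf p u I (∑ J, c J ^ p * mon u J) = c I := by
  have h1 := h.sum_cf (∑ J, c J ^ p * mon u J)
  rw [← sub_eq_zero, ← Finset.sum_sub_distrib] at h1
  refine sub_eq_zero.1 (h.mon_ind (c := fun J => cf p u J (∑ J, c J ^ p * mon u J) - c J) ?_ I)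
  rw [← h1]
  refine Finset.sum_congr rfl fun J _ => ?_
  rw [sub_pow_char, sub_mul]

theorem PB.cf_add (h : PB p O u) (I : ι → Fin p) (a b : F) :
    cf p u I (a + b) = cf p u I a + cf p u I b := by
  rw [← h.cf_sum (fun J => cf p u J a + cf p u J b) I]
  refine congrArg _ ?_
  simp only [add_pow_char, add_mul, Finset.sum_add_distrib, h.sum_cf]

theorem PB.cf_mul (h : PB p O u) (I : ι → Fin p) (a b : F) :
    cf p u I (a * b ^ p) = cf p u I a * b := by
  rw [← h.cf_sum (fun J => cf p u J a * b) I]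
  refine congrArg _ ?_
  conv_lhs => rw [← h.sum_cf a, Finset.sum_mul]
  refine Finset.sum_congr rfl fun J _ => ?_
  rw [mul_pow]
  ring

theorem PB.cf_mem (h : PB p O u) (I : ι → Fin p) (ha : a ∈ O) : cf p u I a ∈ O := by
  obtain ⟨c, hc, rfl⟩ := h.span a ha
  rw [h.cf_sum]
  exact hc I

theorem PB.cf_eul (h : PB p O u) (I : ι → Fin p) (i : ι) (a : F) :
    cf p u I (eul u i a) = (I i : ℕ) * cf p u I a := by
  rw [← h.cf_sum (fun J => (J i : ℕ) * cf p u J a) I]
  refine congrArg _ ?_
  conv_lhs => rw [← h.sum_cf a, map_sum]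
  refine Finset.sum_congr rfl fun J _ => ?_
  rw [h.eul_mon, mul_pow, pb2_nat_pow, mul_assoc]

theorem PB.fb (h : PB p O u) : FB p O := by
  refine ⟨ι → Fin p, inferInstance, fun t => ⟨mon u t, h.mon_mem t⟩,
    fun t => AddMonoidHom.mk' (fun s => ⟨cf p u t s, h.cf_mem t s.2⟩)
      fun a b => Subtype.ext (h.cf_add t a b), fun t s b => Subtype.ext ?_, fun s => Subtype.ext ?_⟩
  · exact h.cf_mul t s b
  · rw [AddSubmonoidClass.coe_finsetSum]
    exact (h.sum_cf s).symm

theorem PB.mem_of_pow (h : PB p O u) (ha : a ^ p ∈ O) : a ∈ O := by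
  have h1 := h.cf_mem 0 ha
  have h2 := h.cf_mul 0 1 a
  have h3 : cf p u 0 (1 : F) = 1 := by
    have h4 := h.cf_sum (Pi.single 0 1) 0
    rw [Finset.sum_eq_single 0 (fun J _ hJ => by
      rw [Pi.single_eq_of_ne hJ, zero_pow (Fact.out : p.Prime).ne_zero, zero_mul])
      (fun hJ => absurd (Finset.mem_univ _) hJ), Pi.single_eq_same, one_pow, pb2_mon_zero,
      one_mul] at h4
    exact h4
  rw [h3, one_mul, one_mul] at h2
  rwa [h2] at h1

theorem PB.eq_pow (h : PB p O u) (ha : dK a = 0) : ∃ b, a = b ^ p := by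
  refine ⟨cf p u 0 a, ?_⟩
  have h0 : ∀ I, cf p u I (0 : F) = 0 := fun I => by
    have h1 := h.cf_add I 0 0
    rw [add_zero] at h1
    exact left_eq_add.1 h1
  conv_lhs => rw [← h.sum_cf a]
  rw [Finset.sum_eq_single 0 (fun J _ hJ => ?_) (fun hJ => absurd (Finset.mem_univ _) hJ),
    pb2_mon_zero, mul_one]
  obtain ⟨i, hi⟩ := Function.ne_iff.1 hJ
  have h1 := h.cf_eul J i a
  rw [eul_apply, der_apply, ha, map_zero, mul_zero, h0] at h1
  have h2 : ((J i : ℕ) : F) ≠ 0 := by
    have := pb2_cast_ne0 (F := F) (J i).2 fun e => hi (Fin.ext e)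
    rwa [Int.cast_natCast] at this
  rw [(mul_eq_zero.1 h1.symm).resolve_left h2, zero_pow (Fact.out : p.Prime).ne_zero, zero_mul]

/-- all `cf p u I g` with `I ≠ 0` lie in `O` by `cf_eul`; subtract `cf p u 0 g ^ p` -/
theorem PB.exists_d (h : PB p O u) (hg : dK g ∈ OmS O) : ∃ a ∈ O, dK a = dK g := by
  refine ⟨∑ J ∈ Finset.univ.erase (0 : ι → Fin p), cf p u J g ^ p * mon u J, ?_, ?_⟩
  · refine O.sum_mem fun J hJ => O.mul_mem (O.pow_mem ?_ p) (h.mon_mem J)
    obtain ⟨i, hi⟩ := Function.ne_iff.1 (Finset.ne_of_mem_erase hJ)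
    have h1 : eul u i g ∈ O := O.mul_mem (h.mem i) (h.mem_OmS.1 hg i)
    have h2 := h.cf_mem J h1
    rw [h.cf_eul] at h2
    refine pb2_cancel p O.toAddSubgroup (pb2_cast_ne0 (F := F) (J i).2 fun e => hi (Fin.ext e)) ?_
    rw [Int.cast_natCast]
    exact h2
  · conv_rhs => rw [← h.sum_cf g, ← Finset.add_sum_erase _ _ (Finset.mem_univ 0), map_add,
      pb2_mon_zero, mul_one, Derivation.leibniz_pow, ← Nat.cast_smul_eq_nsmul F,
      CharP.cast_eq_zero F p, zero_smul, zero_add]

/-- the ideal `y O` is stable under all `der u i` only if `y ∈ y ^ p O`: if all `der u i y / y` lie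
in `O` then, for `I ≠ 0`, `(cf I y) ^ p * mon I ∈ y O`; go on with the operators
`∏ (der u i) ^ (I i)` and the projection to weight `0`, which preserve `y O`: `(cf I y) ^ p ∈ y O`
for all `I` -/
theorem PB.cf_pow_div (h : PB p O u) {y : F} (hy : y ≠ 0) (H : ∀ i, der u i y / y ∈ O)
    (ha : a / y ∈ O) (I : ι → Fin p) : cf p u I a ^ p / y ∈ O := by
  let M : AddSubgroup F :=
    { carrier := {x | x / y ∈ O}
      add_mem' := fun {a b} ha hb => by
        show (a + b) / y ∈ O
        rw [add_div]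
        exact O.add_mem ha hb
      zero_mem' := by
        show (0 : F) / y ∈ O
        rw [zero_div]
        exact O.zero_mem
      neg_mem' := fun {a} ha => by
        show -a / y ∈ O
        rw [neg_div]
        exact O.neg_mem ha }
  have hd : ∀ i, ∀ x ∈ M, der u i x ∈ M := fun i x hx => by
    have hx' : x / y ∈ O := hx
    have e : der u i x / y = der u i (x / y) + x / y * (der u i y / y) := by
      conv_lhs => rw [← mul_div_cancel₀ x hy, Derivation.leibniz, smul_eq_mul, smul_eq_mul]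
      field_simp
    show der u i x / y ∈ O
    rw [e]
    exact O.add_mem (h.der_mem i hx') (O.mul_mem hx' (H i))
  have he : ∀ i, ∀ x ∈ M, eul u i x ∈ M := fun i x hx => by
    show eul u i x / y ∈ O
    rw [eul_apply, mul_div_assoc]
    exact O.mul_mem (h.mem i) (hd i x hx)
  have h1 : ∑ J, cf p u J a ^ p * mon u J ∈ M := by
    rw [h.sum_cf]
    exact ha
  exact pb2_strip h M hd _ _ (fun j => (I j : ℕ)) rfl (fun j => (I j).2) (pb2_term' h M he h1 I)

end Pool.Agent.ZFd
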