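import Pool.Agent.Lib.MP_751085_ag.ZF.D.Pr

/-! Forms along a smooth divisor. -/

namespace Pool.Agent.ZFd

open scoped Classical

variable {F F' : Type} [Field F] [Field F'] {p m : ℕ} [Fact p.Prime] [CharP F p] [CharP F' p]
  {R A O : Subring F} {a b e h : F} {ω : Om F} {ρ : Rd p R F'}

omit [Fact p.Prime] [CharP F p] [CharP F' p] in
theorem pr2_e (H : Pr m ρ A e) : ρ.r e = 0 :=
  (H.ker e H.mem).2 (by rw [div_self H.ne]; exact A.one_mem)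

omit [Fact p.Prime] [CharP F p] in
theorem pr2_mon {ι : Type} [Fintype ι] {u : ι → F} {N : Submodule O (Om F)} (hu : ∀ i, u i ∈ O)
    (hN : ∀ i, dK (u i) ∈ N) (I : ι → Fin p) : dK (mon u I) ∈ N := by
  refine (Finset.prod_induction _ (fun x : F => x ∈ O ∧ dK x ∈ N) (fun x y hx hy =>
    ⟨O.mul_mem hx.1 hy.1, ?_⟩) ⟨O.one_mem, by simp⟩ fun i _ => ⟨O.pow_mem (hu i) _, ?_⟩).2
  · rw [Derivation.leibniz]
    exact N.add_mem (N.smul_mem ⟨x, hx.1⟩ hy.2) (N.smul_mem ⟨y, hy.1⟩ hx.2)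
  · rw [Derivation.leibniz_pow]
    exact N.toAddSubgroup.nsmul_mem (N.smul_mem ⟨_, O.pow_mem (hu i) _⟩ (hN i)) _

theorem pr2_lift {ι : Type} [Fintype ι] {u : ι → F} {N : Submodule O (Om F)} (hR : O ≤ R)
    (hu : ∀ i, u i ∈ O) (hN : ∀ i, dK (u i) ∈ N) (hv : PB p (ρ.im O) fun i => ρ.r (u i))
    (ha : a ∈ O) : ∃ b ∈ O, ρ.r b = ρ.r a ∧ dK b ∈ N := by
  obtain ⟨c', hc', h2⟩ := hv.span _ ((ρ.mem_im hR).2 ⟨_, ha, rfl⟩)
  choose c hc hc'' using fun I => (ρ.mem_im hR).1 (hc' I)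
  have hm : ∀ I : ι → Fin p, mon u I ∈ O := fun I => O.prod_mem fun i _ => O.pow_mem (hu i) _
  refine ⟨∑ I, c I ^ p * mon u I, O.sum_mem fun I _ => O.mul_mem (O.pow_mem (hc I) _) (hm I),
    ?_, ?_⟩
  · rw [map_sum, h2]
    refine Finset.sum_congr rfl fun I _ => ?_
    rw [ρ.mul _ (hR (O.pow_mem (hc I) _)) _ (hR (hm I)), ρ.pow (hR (hc I)), hc'', mon, mon,
      ρ.prod _ fun i _ => hR (O.pow_mem (hu i) _)]
    exact congrArg _ (Finset.prod_congr rfl fun i _ => ρ.pow (hR (hu i)) _)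
  · rw [map_sum]
    refine N.sum_mem fun I _ => ?_
    rw [d_pow_p_mul]
    exact N.smul_mem ⟨_, O.pow_mem (hc I) _⟩ (pr2_mon hu hN I)

/-- Lift a basis of `ρ.im O`, then Nakayama and `PB.exch`. -/
theorem Pr.pb (H : Pr m ρ A e) (hO : IsLoc A O) (he : ¬Un O e) :
    ∃ u : Fin (m + 1) → F, PB p O u ∧ u 0 = e ∧
      PB p (ρ.im O) fun i : Fin m => ρ.r (u i.succ) := by
  obtain ⟨hR, hY, hk⟩ := H.down hO he
  obtain ⟨w, hw⟩ := H.sm.pb O hO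
  obtain ⟨v, hv⟩ := H.smY.pb _ hY
  choose u' hu' hu'' using fun i => (ρ.mem_im hR.le).1 (hv.mem i)
  have hv' : PB p (ρ.im O) fun i => ρ.r (u' i) := by simpa only [hu'']
  have heO : e ∈ O := hO.le H.mem
  have hu : ∀ j, (Fin.cons e u' : Fin (m + 1) → F) j ∈ O := fun j => Fin.cases heO hu' j
  refine ⟨Fin.cons e u', hw.exch hu le_rfl fun i => ?_, rfl, hv'⟩
  let N : Submodule O (Om F) :=
    Submodule.span O (Set.range fun j => dK ((Fin.cons e u' : Fin (m + 1) → F) j))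
  let N' : Submodule O (Om F) := Submodule.span O (Set.range fun j => dK (w j))
  have hN' : ∀ a ∈ O, dK a ∈ N' := fun a ha => by
    rw [← hw.sum_co (dK a)]
    exact N'.sum_mem fun j _ => N'.smul_mem ⟨_, hw.der_mem j ha⟩ (Submodule.subset_span ⟨j, rfl⟩)
  have := hO.isLocalRing
  have h1 : N' ≤ N := by
    refine Submodule.le_of_le_smul_of_le_jacobson_bot (I := Ideal.span {⟨e, heO⟩})
      (Submodule.fg_span (Set.finite_range _)) ?_ (Submodule.span_le.2 ?_)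
    · rw [IsLocalRing.jacobson_eq_maximalIdeal _ bot_ne_top, Ideal.span_singleton_le_iff_mem]
      exact fun h => he ((un_iff ⟨e, heO⟩).2 h)
    · rintro _ ⟨j, rfl⟩
      obtain ⟨b, hb, h2, h3⟩ := pr2_lift (N := N) hR.le hu'
        (fun i => Submodule.subset_span ⟨i.succ, rfl⟩) hv' (hw.mem j)
      have h4 := (hk (w j - b) (O.sub_mem (hw.mem j) hb)).1 (by rw [map_sub, h2, sub_self])
      have h5 : dK (w j) = dK b + (e • dK ((w j - b) / e) + ((w j - b) / e) • dK e) := by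
        rw [← Derivation.leibniz, mul_div_cancel₀ _ H.ne, ← map_add, add_sub_cancel]
      have h6 := Submodule.smul_mem_smul (Ideal.mem_span_singleton_self (⟨e, heO⟩ : O)) (hN' _ h4)
      have h7 := N.smul_mem ⟨_, h4⟩ (Submodule.subset_span ⟨0, rfl⟩)
      exact Set.mem_of_eq_of_mem h5 (Submodule.add_mem _ (Submodule.mem_sup_left h3)
        (Submodule.add_mem _ (Submodule.mem_sup_right h6) (Submodule.mem_sup_left h7)))
  obtain ⟨c, hc⟩ := (Submodule.mem_span_range_iff_exists_fun O).1 (h1 (hN' _ (hw.mem i)))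
  exact ⟨fun j => c j, fun j => (c j).2, hc.symm⟩

theorem pr2_loc (H : Pr m ρ A e) (hO : IsLoc A O) (he : ¬Un O e) (hω : ω ∈ OmS O)
    (h0 : ρ.o ω = 0) : ∃ a ∈ O, ∃ ω' ∈ OmS O, ω = a • dK e + e • ω' := by
  obtain ⟨hR, -, hk⟩ := H.down hO he
  obtain ⟨u, hu, h1, hv⟩ := H.pb hO he
  have hc := hu.mem_OmS.1 hω
  have h2 := hu.sum_co ω
  rw [Fin.sum_univ_succ, h1] at h2
  have h3 : ∑ i : Fin m, ρ.r (co u i.succ ω) • dK (ρ.r (u i.succ)) = 0 := by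
    rw [← h0, ← h2, map_add, map_sum, ρ.om _ (hR.le (hc 0)) _ (hR.le (hO.le H.mem)), pr2_e H,
      map_zero, smul_zero, zero_add, h2]
    exact Finset.sum_congr rfl fun i _ => (ρ.om _ (hR.le (hc _)) _ (hR.le (hu.mem _))).symm
  refine ⟨_, hc 0, ∑ i : Fin m, (co u i.succ ω / e) • dK (u i.succ), (OmS O).sum_mem fun i _ =>
    smul_d_mem ((hk _ (hc _)).1 (Fintype.linearIndependent_iff.1 hv.ind _ h3 i)) (hu.mem _), ?_⟩
  simp only [Finset.smul_sum, smul_smul, mul_div_cancel₀ _ H.ne, h2]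

/-- the kernel on forms -/
theorem Pr.ker_om (H : Pr m ρ A e) (hω : ω ∈ OmS A) :
    ρ.o ω = 0 ↔ ∃ a ∈ A, ∃ ω' ∈ OmS A, ω = dK (e * a) + e • ω' := by
  have hR := H.loc.le
  refine ⟨fun h0 => ?_, ?_⟩
  · let M : AddSubgroup (Om F) :=
      { carrier := {ω | ∃ a ∈ A, ∃ ω' ∈ OmS A, ω = a • dK e + e • ω'}
        zero_mem' := ⟨0, A.zero_mem, 0, (OmS A).zero_mem, by simp⟩
        add_mem' := by
          rintro _ _ ⟨a, ha, x, hx, rfl⟩ ⟨b, hb, y, hy, rfl⟩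
          exact ⟨a + b, A.add_mem ha hb, x + y, (OmS A).add_mem hx hy, by module⟩
        neg_mem' := by
          rintro _ ⟨a, ha, x, hx, rfl⟩
          exact ⟨-a, A.neg_mem ha, -x, (OmS A).neg_mem hx, by module⟩ }
    obtain ⟨a, ha, x, hx, h1⟩ : ω ∈ M := by
      refine mem_of_loc (μ := RingHom.id F) (A := A) ?_ fun O hO => ?_
      · rintro b hb _ ⟨a, ha, x, hx, rfl⟩
        exact ⟨b * a, A.mul_mem hb ha, b • x, OmS_smul hb hx, by rw [RingHom.id_apply]; module⟩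
      · by_cases he : Un O e
        · exact ⟨e, H.mem, he, 0, A.zero_mem, ω, hω, by simp⟩
        · obtain ⟨a, ha, x, hx, h1⟩ := pr2_loc H hO he (OmS_mono hO.le hω) h0
          obtain ⟨s, hs, hs1, hs2⟩ := hO.frac a ha
          obtain ⟨t, ht, ht1, ht2⟩ := ((qc_om A).loc O hO x).1 hx
          exact ⟨t * s, A.mul_mem ht hs, ht1.mul hs1, t * (s * a), A.mul_mem ht hs2, s • t • x,
            OmS_smul hs ht2, by rw [RingHom.id_apply, h1]; module⟩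
    exact ⟨a, ha, x - dK a, (OmS A).sub_mem hx (d_mem ha), by
      rw [h1, Derivation.leibniz]; module⟩
  · rintro ⟨a, ha, x, hx, rfl⟩
    rw [map_add, ρ.o_d (hR (A.mul_mem H.mem ha)), ρ.o_smul (hR H.mem) (OmS_mono hR hx),
      ρ.mul _ (hR H.mem) _ (hR ha), pr2_e H, zero_mul, map_zero, zero_smul, add_zero]

/-- `dK (e a) = e • ω` forces `e ∣ a` -/
theorem Pr.sq (H : Pr m ρ A e) (ha : a ∈ A) : e⁻¹ • dK (e * a) ∈ OmS A ↔ a / e ∈ A := by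
  have h1 : e⁻¹ • dK (e * a) = dK a + (a / e) • dK e := by
    rw [Derivation.leibniz, smul_add, smul_smul, smul_smul, inv_mul_cancel₀ H.ne, one_smul,
      inv_mul_eq_div]
  rw [h1]
  refine ⟨fun h => (qc_ring A).glob.2 fun O hO => ?_,
    fun h => (OmS A).add_mem (d_mem ha) (smul_d_mem h H.mem)⟩
  by_cases he : Un O e
  · exact he.div_mem (hO.le ha)
  · obtain ⟨u, hu, h2, -⟩ := H.pb hO he
    have h3 := hu.mem_OmS.1 (OmS_mono hO.le h) 0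
    have h4 : co u 0 (dK e) = 1 := by
      rw [← h2]
      exact (hu.der_u 0 0).trans (if_pos rfl)
    rw [map_add, map_smul, h4, smul_eq_mul, mul_one] at h3
    exact (add_mem_cancel_left (hu.der_mem 0 (hO.le ha))).1 h3

theorem pr2_pow (h : Sm p m A) (ha : a ∈ A) (h0 : dK a = 0) : ∃ b ∈ A, a = b ^ p := by
  obtain ⟨u, hu⟩ := h.top.pb
  obtain ⟨b, rfl⟩ := hu.eq_pow h0
  exact ⟨b, h.mem_of_pow ha, rfl⟩

theorem Pr.ker_ex (H : Pr m ρ A e) (hω : ω ∈ OmS A) (h1 : ω ∈ Ex F) (h2 : ρ.o ω = 0) :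
    ∃ a ∈ A, ω = dK (e * a) := by
  have hR := H.loc.le
  obtain ⟨g₀, rfl⟩ := mem_Ex.1 h1
  obtain ⟨g, hg, h3⟩ := H.sm.exists_d hω
  rw [← h3, ρ.o_d (hR hg)] at h2
  obtain ⟨z, hz, h4⟩ := pr2_pow H.smY ((ρ.mem_im hR).2 ⟨g, hg, rfl⟩) h2
  obtain ⟨b, hb, rfl⟩ := (ρ.mem_im hR).1 hz
  refine ⟨_, (H.ker (g - b ^ p) (A.sub_mem hg (A.pow_mem hb _))).1
    (by rw [map_sub, ρ.pow (hR hb), h4, sub_self]), ?_⟩
  rw [mul_div_cancel₀ _ H.ne, map_sub, d_pow_p, sub_zero, h3]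

theorem Pr.ker_q (H : Pr m ρ A e) {x : Qm p F} (hx : x ∈ QS p A) :
    ρ.q x = 0 ↔ ∃ ω ∈ OmS A, ρ.o ω = 0 ∧ mq p ω = x := by
  have hR := H.loc.le
  refine ⟨fun h => ?_, ?_⟩
  · obtain ⟨ω, hω, rfl⟩ := mem_QS.1 hx
    rw [ρ.qm _ (OmS_mono hR hω), mq_eq_zero] at h
    obtain ⟨z, hz⟩ := mem_Ex.1 h
    obtain ⟨z', hz', h1⟩ := H.smY.exists_d (g := z) (hz ▸ (ρ.o_onto hR).2 ⟨ω, hω, rfl⟩)
    obtain ⟨g, hg, rfl⟩ := (ρ.mem_im hR).1 hz'
    exact ⟨ω - dK g, (OmS A).sub_mem hω (d_mem hg), by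
      rw [map_sub, ρ.o_d (hR hg), h1, hz, sub_self], by rw [map_sub, mq_d, sub_zero]⟩
  · rintro ⟨ω, hω, h, rfl⟩
    rw [ρ.qm _ (OmS_mono hR hω), h, map_zero]

theorem Pr.d_eq_zero (H : Pr m ρ A e) (ha : a ∈ A) :
    dK (e * a) = 0 ↔ ∃ b ∈ A, e * a = (e * b) ^ p := by
  have hR := H.loc.le
  refine ⟨fun h => ?_, fun ⟨b, _, h⟩ => h ▸ d_pow_p _⟩
  obtain ⟨z, hz, h1⟩ := pr2_pow H.sm (A.mul_mem H.mem ha) h
  refine ⟨z / e, (H.ker z hz).1 (pow_eq_zero_iff (Fact.out : p.Prime).ne_zero |>.1 ?_), by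
    rwa [mul_div_cancel₀ _ H.ne]⟩
  rw [← ρ.pow (hR hz), ← h1, ρ.mul _ (hR H.mem) _ (hR ha), pr2_e H, zero_mul]

end Pool.Agent.ZFd
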