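import Pool.Agent.Lib.MP_751085_ag.ZF.D.PB2
import Pool.Agent.Lib.MP_751085_ag.ZC.V.Flt
import Pool.Agent.Lib.MP_751085_ag.ZC.V.Ufd

/-! The Taylor map of a ring with a `p`-basis is flat. -/

namespace Pool.Agent.ZFd

open scoped Classical

variable {F : Type} [Field F] {p : ℕ} [Fact p.Prime] [CharP F p] {ι : Type} [Fintype ι]
  {O : Subring F} {u : ι → F}

theorem tay_add {T : Type} [CommRing T] (hT : (p : T) = 0) (x y : T) :
    (x + y) ^ p = x ^ p + y ^ p := by
  obtain ⟨r, hr⟩ := exists_add_pow_prime_eq (Fact.out : p.Prime) x y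
  rw [hr, hT]
  ring

theorem tay_congr {T : Type} [CommRing T] (hT : (p : T) = 0) {J : Ideal T} (hJ : J ^ 2 = ⊥)
    {x y : T} (e : Ideal.Quotient.mk J x = Ideal.Quotient.mk J y) : x ^ p = y ^ p := by
  have h1 : (x - y) ^ 2 = 0 := by
    simpa [hJ] using Ideal.pow_mem_pow (Ideal.Quotient.eq.1 e) 2
  have h2 := tay_add hT y (x - y)
  rwa [add_sub_cancel, pow_eq_zero_of_le (Fact.out : p.Prime).two_le h1, add_zero] at h2

theorem tay_sum (h : PB p O u) (a : O) :
    ∑ I : ι → Fin p, (⟨cf p u I a, h.cf_mem I a.2⟩ : O) ^ p *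
      ∏ i, (⟨u i, h.mem i⟩ : O) ^ (I i : ℕ) = a := by
  apply Subtype.ext
  simpa [mon] using h.sum_cf a

/-- Lifting along a square zero ideal. -/
theorem PB.lift_sq (h : PB p O u) {T : Type} [CommRing T] (hT : (p : T) = 0) (J : Ideal T)
    (hJ : J ^ 2 = ⊥) (φ : O →+* T ⧸ J) (v : ι → T)
    (hv : ∀ i, Ideal.Quotient.mk J (v i) = φ ⟨u i, h.mem i⟩) :
    ∃ ψ : O →+* T, (∀ a, Ideal.Quotient.mk J (ψ a) = φ a) ∧ ∀ i, ψ ⟨u i, h.mem i⟩ = v i := by
  have hp : p.Prime := Fact.out
  choose s hs using fun a : O => Ideal.Quotient.mk_surjective (φ a)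
  let f : O →+* T :=
    { toFun := fun a => s a ^ p
      map_one' := (tay_congr hT hJ (y := 1) (by simp [hs])).trans (one_pow p)
      map_mul' := fun a b => (tay_congr hT hJ (by simp [hs])).trans (mul_pow _ _ p)
      map_zero' := (tay_congr hT hJ (y := 0) (by simp [hs])).trans (zero_pow hp.ne_zero)
      map_add' := fun a b => (tay_congr hT hJ (by simp [hs])).trans (tay_add hT _ _) }
  have f1 : ∀ a, Ideal.Quotient.mk J (f a) = φ a ^ p := fun a => by simp [f, hs]
  have f2 : ∀ i, f ⟨u i, h.mem i⟩ = v i ^ p := fun i => tay_congr hT hJ (by rw [hs, hv])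
  let c : (ι → Fin p) → O → O := fun I a => ⟨cf p u I a, h.cf_mem I a.2⟩
  let L : O →+ T := AddMonoidHom.mk' (fun a => ∑ I, f (c I a) * ∏ i, v i ^ (I i : ℕ))
    fun a b => by
      rw [← Finset.sum_add_distrib]
      refine Finset.sum_congr rfl fun I _ => ?_
      rw [← add_mul, ← map_add]
      exact congrArg (fun z => f z * _) (Subtype.ext (h.cf_add I a b))
  have l0 : ∀ a, L a = ∑ I, f (c I a) * ∏ i, v i ^ (I i : ℕ) := fun a => rfl
  have l1 : ∀ a b, L (a * b ^ p) = L a * f b := fun a b => by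
    rw [l0, l0, Finset.sum_mul]
    refine Finset.sum_congr rfl fun I _ => ?_
    rw [show c I (a * b ^ p) = c I a * b from Subtype.ext (by simpa [c] using h.cf_mul I a b),
      map_mul]
    ring
  have l2 : ∀ I : ι → Fin p,
      L (∏ i, (⟨u i, h.mem i⟩ : O) ^ (I i : ℕ)) = ∏ i, v i ^ (I i : ℕ) := fun I => by
    have e : ∀ K, c K (∏ i, (⟨u i, h.mem i⟩ : O) ^ (I i : ℕ)) = if K = I then 1 else 0 := by
      intro K
      have e1 := h.cf_sum (fun K => if K = I then 1 else 0) K
      rw [Finset.sum_eq_single I (fun K _ hK => by simp [hK, hp.ne_zero]) (by simp)] at e1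
      apply Subtype.ext
      split_ifs with hK <;> simpa [c, mon, hK] using e1
    rw [l0, Finset.sum_eq_single I (fun K _ hK => by rw [e, if_neg hK, map_zero, zero_mul])
      (by simp), e, if_pos rfl, map_one, one_mul]
  have l3 : ∀ n : ι → ℕ, L (∏ i, (⟨u i, h.mem i⟩ : O) ^ n i) = ∏ i, v i ^ n i := fun n => by
    have e : ∀ {R : Type} [CommRing R] (x : ι → R), ∏ i, x i ^ n i =
        (∏ i, x i ^ (n i % p)) * (∏ i, x i ^ (n i / p)) ^ p := fun x => by
      rw [← Finset.prod_pow, ← Finset.prod_mul_distrib]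
      exact Finset.prod_congr rfl fun i _ => by rw [← pow_mul, ← pow_add, Nat.mod_add_div']
    rw [e, l1, l2 fun i => ⟨n i % p, Nat.mod_lt _ hp.pos⟩, e v, map_prod, ← Finset.prod_pow]
    exact congrArg _ (Finset.prod_congr rfl fun i _ => by rw [map_pow, f2, pow_right_comm])
  have l4 : ∀ a b, L (a * b) = L a * L b := fun a b => by
    conv_lhs => rw [← tay_sum h a, ← tay_sum h b]
    rw [l0 a, l0 b, Finset.sum_mul_sum, Finset.sum_mul_sum, map_sum]
    refine Finset.sum_congr rfl fun I _ => ?_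
    rw [map_sum]
    refine Finset.sum_congr rfl fun K _ => ?_
    rw [mul_mul_mul_comm, ← mul_pow, mul_comm, l1, ← Finset.prod_mul_distrib, map_mul,
      mul_mul_mul_comm (f _), ← Finset.prod_mul_distrib, mul_comm]
    simp only [← pow_add]
    rw [l3]
  refine ⟨{ L with map_one' := by simpa using l3 0, map_mul' := l4 }, fun a => ?_, fun i => ?_⟩
  · show Ideal.Quotient.mk J (L a) = φ a
    conv_rhs => rw [← tay_sum h a]
    simp only [l0, map_sum, map_mul, map_prod, map_pow, f1, hv, c]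
  · have e : ∀ {R : Type} [CommRing R] (x : ι → R),
        ∏ j, x j ^ (Pi.single i 1 : ι → ℕ) j = x i := fun x => by
      rw [Finset.prod_eq_single i (fun j _ hj => by simp [hj]) (by simp)]
      simp
    have e1 := l3 (Pi.single i 1)
    rwa [e, e] at e1

/-- The Taylor map. -/
theorem PB.taylor (h : PB p O u) (hO : Algebra.EssFiniteType ℤ O) {K : Type} [Field K]
    (φ : O →+* K) : ∃ ψ : O →+* MvPowerSeries ι K, ψ.Flat ∧
      (∀ a, MvPowerSeries.constantCoeff (ψ a) = φ a) ∧
      ∀ i, ψ ⟨u i, h.mem i⟩ = MvPowerSeries.C (φ ⟨u i, h.mem i⟩) + MvPowerSeries.X i := by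
  let κ : ZMod p →+* O := ZMod.castHom (dvd_refl p) O
  let _ : Algebra (MvPolynomial ι (ZMod p)) O :=
    (MvPolynomial.eval₂Hom κ fun i => ⟨u i, h.mem i⟩).toAlgebra
  have a1 : ∀ i, algebraMap (MvPolynomial ι (ZMod p)) O (MvPolynomial.X i) = ⟨u i, h.mem i⟩ :=
    fun i => MvPolynomial.eval₂Hom_X' _ _ i
  have hp : ∀ (B : Type) [CommRing B] [Algebra (MvPolynomial ι (ZMod p)) B], (p : B) = 0 := by
    intro B _ _
    rw [← map_natCast (algebraMap (MvPolynomial ι (ZMod p)) B), CharP.cast_eq_zero, map_zero]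
  have hx : ∀ {B : Type} [CommRing B] (f g : MvPolynomial ι (ZMod p) →+* B),
      (∀ i, f (MvPolynomial.X i) = g (MvPolynomial.X i)) → ∀ r, f r = g r := fun f g e =>
    RingHom.congr_fun (MvPolynomial.ringHom_ext' (RingHom.ext_zmod _ _) e)
  have : Algebra.FormallySmooth (MvPolynomial ι (ZMod p)) O := by
    refine .of_comp_surjective fun B _ _ I hI f => ?_
    obtain ⟨ψ, h1, h2⟩ := h.lift_sq (hp B) I hI f.toRingHom
      (fun i => algebraMap (MvPolynomial ι (ZMod p)) B (MvPolynomial.X i))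
      fun i => by rw [← a1]; exact (f.commutes _).symm
    exact ⟨{ ψ with
      commutes' := hx (ψ.comp (algebraMap _ O)) _ fun i => by rw [← h2, ← a1]; rfl },
      AlgHom.ext h1⟩
  have : Algebra.FormallyUnramified (MvPolynomial ι (ZMod p)) O := by
    refine Algebra.FormallyUnramified.iff_comp_injective.2 fun B _ _ I hI f g e => ?_
    ext a
    rw [← tay_sum h a]
    simp only [map_sum, map_mul, map_prod, map_pow, ← a1, AlgHom.commutes]
    exact Finset.sum_congr rfl fun J _ =>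
      congrArg (· * _) (tay_congr (hp B) hI (AlgHom.congr_fun e _))
  have : Algebra.EssFiniteType (MvPolynomial ι (ZMod p)) O :=
    Algebra.EssFiniteType.of_comp ℤ _ _
  let _ : Algebra (MvPolynomial ι (ZMod p)) (MvPowerSeries ι K) :=
    (ZCy.pt (φ.comp κ) fun i => φ ⟨u i, h.mem i⟩).toAlgebra
  have a2 : ∀ i, algebraMap (MvPolynomial ι (ZMod p)) (MvPowerSeries ι K) (MvPolynomial.X i) =
      MvPowerSeries.C (φ ⟨u i, h.mem i⟩) + MvPowerSeries.X i := fun i => ZCy.pt_X i
  have hfl : Module.Flat (MvPolynomial ι (ZMod p)) (MvPowerSeries ι K) :=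
    ZCy.flat_pt (ZCy.flat_field _)
  let I : Ideal (MvPowerSeries ι K) := .span (.range MvPowerSeries.X)
  let f : O →ₐ[MvPolynomial ι (ZMod p)] MvPowerSeries ι K ⧸ I :=
    { (Ideal.Quotient.mk I).comp (MvPowerSeries.C.comp φ) with
      commutes' := hx (((Ideal.Quotient.mk I).comp (MvPowerSeries.C.comp φ)).comp
        (algebraMap _ O)) ((Ideal.Quotient.mk I).comp (algebraMap _ _)) fun i => by
        simp only [RingHom.comp_apply, a1, a2, map_add]
        rw [Ideal.Quotient.eq_zero_iff_mem.2 (Ideal.subset_span (Set.mem_range_self i)),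
          add_zero] }
  obtain ⟨g, hg⟩ := Algebra.FormallySmooth.exists_mkₐ_comp_eq_of_isAdicComplete f
  refine ⟨g.toRingHom, ?_, fun a => ?_, fun i => by rw [← a2, ← a1]; exact g.commutes _⟩
  · let _ : Algebra O (MvPowerSeries ι K) := g.toRingHom.toAlgebra
    have := IsScalarTower.of_algebraMap_eq' g.comp_algebraMap.symm
    exact Algebra.FormallyUnramified.flat_of_restrictScalars (MvPolynomial ι (ZMod p)) O _
  · have h1 : I ≤ RingHom.ker (MvPowerSeries.constantCoeff (σ := ι) (R := K)) :=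
      Ideal.span_le.2 (by rintro _ ⟨i, rfl⟩; simp)
    have h2 : g a - MvPowerSeries.C (φ a) ∈ I := Ideal.Quotient.eq.1 (AlgHom.congr_fun hg a)
    simpa [sub_eq_zero] using h1 h2

end Pool.Agent.ZFd
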